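import Pool.Agent.Helper48_FPT.Prog

/-!
# Verification of the computation of the constants
-/

set_option autoImplicit false
set_option linter.unusedSimpArgs false

namespace Pool.Agent.Helper48_FPT

open Finset

@[simp] theorem eval_add' (m : Mem) (x y : NExp) : (x + y).eval m = x.eval m + y.eval m := rfl
@[simp] theorem eval_sub' (m : Mem) (x y : NExp) : (x - y).eval m = x.eval m - y.eval m := rfl
@[simp] theorem eval_ofNat' (m : Mem) (k : ℕ) :
    NExp.eval m (@OfNat.ofNat NExp k _) = @OfNat.ofNat ℕ k (instOfNatNat k) := rfl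
@[simp] theorem reval_add' (m : Mem) (x y : RExp) : (x + y).eval m = x.eval m + y.eval m := rfl
@[simp] theorem reval_sub' (m : Mem) (x y : RExp) : (x - y).eval m = x.eval m - y.eval m := rfl
@[simp] theorem reval_mul' (m : Mem) (x y : RExp) : (x * y).eval m = x.eval m * y.eval m := rfl

attribute [simp] NExp.eval RExp.eval nat_setNat nat_setNat_ne nat_setReal real_setNat real_setReal
  real_setReal_ne

theorem sp_seqs_nil {L : ℕ} {m : Mem} {Q : Mem → Prop} : Sp L (seqs []) m Q ↔ Q m := sp_skip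

theorem sp_seqs_cons {L : ℕ} {c : Cmd} {cs : List Cmd} {m : Mem} {Q : Mem → Prop} :
    Sp L (seqs (c :: cs)) m Q ↔ Sp L c m (fun m' => Sp L (seqs cs) m' Q) := sp_seq

/-- The change bound. -/
def Gh (h : ℕ) : ℕ := 7 ^ 2 ^ (h * h)
/-- The base. -/
def Mh (h : ℕ) : ℕ := Gh h + Gh h + Gh h + 1
/-- The bound for the option codes. -/
def Eh (h : ℕ) : ℕ := 3 * Mh h ^ (h * h)
/-- The offset. -/
def Bh (h : ℕ) : ℕ := (Gh h + 1) * Eh h
/-- The weight of a change. -/
def BIGh (h : ℕ) : ℕ := 2 * Bh h + 1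
/-- The number of states. -/
def Sh (h : ℕ) : ℕ := (Gh h + 1) * BIGh h

/-- Bounds for the loop counts. -/
structure Bnd (L n f s : ℕ) : Prop where
  b3n : 3 * n + n ≤ L
  bh : f + f ≤ L
  br : (f + f) * (f + f) ≤ L
  bO : (f + f) * ((f + f) * (f + f)) ≤ L
  bG : Gh (f + f) + 1 ≤ L
  bM : Mh (f + f) ≤ L
  bS : Sh (f + f) ≤ L
  bs : s ≤ L
  b7 : 7 ≤ L

/-- The values of the constants. -/
structure ConstOK (n h : ℕ) (m : Mem) : Prop where
  h0 : m.nat 0 0 0 = n
  h2 : m.nat 2 0 0 = 3 * n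
  h3 : m.nat 3 0 0 = 3 * n + n
  h4 : m.nat 4 0 0 = h
  h5 : m.nat 5 0 0 = h * h
  h6 : m.nat 6 0 0 = h * (h * h)
  h7 : m.nat 7 0 0 = Gh h
  h8 : m.nat 8 0 0 = Bh h
  h9 : m.nat 9 0 0 = BIGh h
  h10 : m.nat 10 0 0 = Sh h

theorem ConstOK.congr {n h : ℕ} {m m' : Mem} (H : ConstOK n h m) {W W' : List ℕ}
    (hA : Agree W W' m m') (hW : ∀ a ∈ [0, 2, 3, 4, 5, 6, 7, 8, 9, 10], a ∉ W) :
    ConstOK n h m' := by
  have e : ∀ a ∈ [0, 2, 3, 4, 5, 6, 7, 8, 9, 10], m'.nat a = m.nat a := fun a ha =>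
    hA.1 a (hW a ha)
  constructor
  · rw [e 0 (by simp), H.h0]
  · rw [e 2 (by simp), H.h2]
  · rw [e 3 (by simp), H.h3]
  · rw [e 4 (by simp), H.h4]
  · rw [e 5 (by simp), H.h5]
  · rw [e 6 (by simp), H.h6]
  · rw [e 7 (by simp), H.h7]
  · rw [e 8 (by simp), H.h8]
  · rw [e 9 (by simp), H.h9]
  · rw [e 10 (by simp), H.h10]

theorem sp_const {L n f s : ℕ} (hL : Bnd L n f s) {m : Mem} (hn : m.nat 0 0 0 = n)
    (hf : m.nat 0 1 0 = f) :
    Sp L cConst m (fun m' => ConstOK n (f + f) m' ∧ m'.nat 11 0 0 = Eh (f + f) ∧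
      ∀ τ ≤ (f + f) * (f + f), m'.nat 20 τ 0 = Mh (f + f) ^ τ) := by
  have hbh := hL.bh
  have hbr := hL.br
  have hbG := hL.bG
  have hbM := hL.bM
  simp only [cConst, sp_seqs_cons, sp_seqs_nil, sp_setNat]
  -- `h * h`
  apply sp_mulTo (X := f + f) (Y := f + f)
  · simp [hf]
  · exact hbh
  · intro u; simp [hf]
  apply sp_mulTo (X := f + f) (Y := (f + f) * (f + f))
  · simp [hf]
  · exact hbh
  · intro u; simp
  -- the loop computing `G`
  generalize hm1 : (((((m.setNat 2 _ _ _).setNat 3 _ _ _).setNat 4 _ _ _).setNat 5 _ _ _).setNat 6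
    _ _ _).setNat 7 _ _ _ = m1
  have a0 : m1.nat 0 0 0 = n := by subst hm1; simp [hn]
  have a01 : m1.nat 0 1 0 = f := by subst hm1; simp [hf]
  have a2 : m1.nat 2 0 0 = 3 * n := by subst hm1; simp [hn]; ring
  have a3 : m1.nat 3 0 0 = 3 * n + n := by subst hm1; simp [hn]; ring
  have a4 : m1.nat 4 0 0 = f + f := by subst hm1; simp [hf]
  have a5 : m1.nat 5 0 0 = (f + f) * (f + f) := by subst hm1; simp
  have a6 : m1.nat 6 0 0 = (f + f) * ((f + f) * (f + f)) := by subst hm1; simp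
  have a7 : m1.nat 7 0 0 = 7 := by subst hm1; simp
  clear hm1
  apply sp_loop (K := (f + f) * (f + f))
    (Inv := fun t m' => m'.nat 7 0 0 = 7 ^ 2 ^ t ∧ Agree [7, 13] [] m1 m')
  · simp [a5]
  · exact hbr
  · exact ⟨by simp [a7], Agree.refl _ _ _⟩
  · rintro t ht m' ⟨h1, h2⟩
    rw [sp_seq]
    apply sp_mulTo (X := 7 ^ 2 ^ t) (Y := 7 ^ 2 ^ t)
    · simp [h1]
    · calc 7 ^ 2 ^ t ≤ Gh (f + f) := by
            rw [Gh]
            apply Nat.pow_le_pow_right (by norm_num)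
            apply Nat.pow_le_pow_right (by norm_num) ht.le
        _ ≤ L := by omega
    · intro u; simp [h1]
    rw [sp_setNat]
    refine ⟨?_, ?_⟩
    · simp [pow_succ, pow_mul, pow_two]
    · refine h2.trans ⟨fun a ha => ?_, fun a _ => rfl⟩
      simp only [List.mem_cons, not_or] at ha
      rw [nat_setNat_ne ha.1, nat_setNat_ne ha.2.1]
  rintro m2 ⟨b7, hA⟩
  have b0 : m2.nat 0 0 0 = n := by rw [hA.1 0 (by decide), a0]
  have b2 : m2.nat 2 0 0 = 3 * n := by rw [hA.1 2 (by decide), a2]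
  have b3 : m2.nat 3 0 0 = 3 * n + n := by rw [hA.1 3 (by decide), a3]
  have b4 : m2.nat 4 0 0 = f + f := by rw [hA.1 4 (by decide), a4]
  have b5 : m2.nat 5 0 0 = (f + f) * (f + f) := by rw [hA.1 5 (by decide), a5]
  have b6 : m2.nat 6 0 0 = (f + f) * ((f + f) * (f + f)) := by rw [hA.1 6 (by decide), a6]
  have b7' : m2.nat 7 0 0 = Gh (f + f) := b7
  clear hA a0 a01 a2 a3 a4 a5 a6 a7 m1 b7
  -- powers of `M`
  simp only [NExp.eval, eval_add', eval_ofNat', b7']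
  generalize hm3 : (m2.setNat 12 _ _ _).setNat 20 _ _ _ = m3
  have c0 : m3.nat 0 0 0 = n := by subst hm3; simp [b0]
  have c2 : m3.nat 2 0 0 = 3 * n := by subst hm3; simp [b2]
  have c3 : m3.nat 3 0 0 = 3 * n + n := by subst hm3; simp [b3]
  have c4 : m3.nat 4 0 0 = f + f := by subst hm3; simp [b4]
  have c5 : m3.nat 5 0 0 = (f + f) * (f + f) := by subst hm3; simp [b5]
  have c6 : m3.nat 6 0 0 = (f + f) * ((f + f) * (f + f)) := by subst hm3; simp [b6]
  have c7 : m3.nat 7 0 0 = Gh (f + f) := by subst hm3; simp [b7']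
  have c12 : m3.nat 12 0 0 = Mh (f + f) := by subst hm3; simp [Mh]
  have c20 : m3.nat 20 0 0 = 1 := by subst hm3; simp
  clear hm3 b0 b2 b3 b4 b5 b6 b7' m2
  apply sp_for (K := (f + f) * (f + f))
    (Inv := fun t m' => (∀ τ ≤ t, m'.nat 20 τ 0 = Mh (f + f) ^ τ) ∧ Agree [13, 20, 51] [] m3 m')
  · decide
  · simp [c5]
  · exact hbr
  · refine ⟨?_, ?_⟩
    · intro τ hτ
      obtain rfl : τ = 0 := by omega
      simp [c20]
    · refine ⟨fun a ha => ?_, fun a _ => rfl⟩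
      simp only [List.mem_cons, not_or] at ha
      rw [nat_setNat_ne ha.2.2.1]
  · rintro t ht m' hv - ⟨h1, h2⟩
    have h12 : m'.nat 12 0 0 = Mh (f + f) := by rw [h2.1 12 (by decide), c12]
    rw [sp_seq]
    apply sp_mulTo (X := Mh (f + f)) (Y := Mh (f + f) ^ t)
    · simp [h12]
    · exact hbM
    · intro u; simp [hv, h1 t le_rfl]
    rw [sp_setNat]
    refine ⟨?_, ?_⟩
    · intro τ hτ
      simp only [nat_setNat, NExp.eval, eval_add', eval_ofNat', hv, ne_eq, OfNat.ofNat_eq_ofNat,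
        Nat.reduceEqDiff, not_false_eq_true, nat_setNat_ne, and_true, true_and]
      split_ifs with h3
      · rw [h3, pow_succ, mul_comm]
      · exact h1 τ (by omega)
    · refine h2.trans ⟨fun a ha => ?_, fun a _ => rfl⟩
      simp only [List.mem_cons, not_or] at ha
      rw [nat_setNat_ne ha.2.2.1, nat_setNat_ne ha.2.1, nat_setNat_ne ha.1]
  rintro m4 - - ⟨h20, hA⟩
  have d0 : m4.nat 0 0 0 = n := by rw [hA.1 0 (by decide), c0]
  have d2 : m4.nat 2 0 0 = 3 * n := by rw [hA.1 2 (by decide), c2]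
  have d3 : m4.nat 3 0 0 = 3 * n + n := by rw [hA.1 3 (by decide), c3]
  have d4 : m4.nat 4 0 0 = f + f := by rw [hA.1 4 (by decide), c4]
  have d5 : m4.nat 5 0 0 = (f + f) * (f + f) := by rw [hA.1 5 (by decide), c5]
  have d6 : m4.nat 6 0 0 = (f + f) * ((f + f) * (f + f)) := by rw [hA.1 6 (by decide), c6]
  have d7 : m4.nat 7 0 0 = Gh (f + f) := by rw [hA.1 7 (by decide), c7]
  have dr := h20 _ le_rfl
  simp only [NExp.eval, eval_add', eval_ofNat', d5, dr]
  apply sp_mulTo (X := Gh (f + f) + 1) (Y := Eh (f + f))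
  · simp [d7]
  · exact hbG
  · intro u
    simp only [NExp.eval, ne_eq, OfNat.ofNat_eq_ofNat, Nat.reduceEqDiff, not_false_eq_true,
      nat_setNat_ne, nat_setNat, and_self, if_true, Eh]
    ring
  apply sp_mulTo (X := Gh (f + f) + 1) (Y := BIGh (f + f))
  · simp [d7]
  · exact hbG
  · intro u
    simp [BIGh, Bh]
    ring
  refine ⟨?_, ?_, ?_⟩
  · constructor
    · simp [d0]
    · simp [d2]
    · simp [d3]
    · simp [d4]
    · simp [d5]
    · simp [d6]
    · simp [d7]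
    · simp [Bh]
    · simp [BIGh, Bh]; ring
    · simp [Sh]
  · simp [Eh]; ring
  · intro τ hτ
    simp [h20 τ hτ]

end Pool.Agent.Helper48_FPT
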