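import Mathlib

/-!
# Zero-sum splitting and sensitivity of balanced assignment problems
-/

set_option autoImplicit false

open Finset

namespace Pool.Agent.Helper48_FPT

/-- Ordering integers with total sum `-c` such that all partial sums started at `c` stay bounded. -/
theorem exists_order {ι : Type*} [DecidableEq ι] (a : ι → ℤ) (Δ : ℕ) :
    ∀ (k : ℕ) (R : Finset ι) (c : ℤ), R.card = k → (∀ i ∈ R, |a i| ≤ Δ) → |c| ≤ Δ →
      c + ∑ i ∈ R, a i = 0 →
      ∃ l : List ι, l.Nodup ∧ l.toFinset = R ∧ ∀ t, |c + ((l.take t).map a).sum| ≤ Δ := by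
  intro k
  induction k with
  | zero =>
    intro R c hR _ hc _
    refine ⟨[], List.nodup_nil, ?_, ?_⟩
    · rw [Finset.card_eq_zero] at hR
      simp [hR]
    · intro t
      simpa using hc
  | succ k ih =>
    intro R c hR ha hc hsum
    have hne : R.Nonempty := by
      rw [← Finset.card_pos, hR]; exact Nat.succ_pos k
    obtain ⟨i, hi, hic⟩ : ∃ i ∈ R, |c + a i| ≤ Δ := by
      rw [abs_le] at hc
      rcases lt_or_ge 0 c with h0 | h0
      · obtain ⟨i, hi, hneg⟩ : ∃ i ∈ R, a i < 0 := by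
          by_contra! hcon
          have := Finset.sum_nonneg hcon
          linarith
        refine ⟨i, hi, ?_⟩
        have := abs_le.1 (ha i hi)
        rw [abs_le]
        constructor <;> linarith
      · obtain ⟨i, hi, hneg⟩ : ∃ i ∈ R, 0 ≤ a i := by
          by_contra! hcon
          have := Finset.sum_neg hcon hne
          linarith
        refine ⟨i, hi, ?_⟩
        have := abs_le.1 (ha i hi)
        rw [abs_le]
        constructor <;> linarith
    obtain ⟨l, hl1, hl2, hl3⟩ := ih (R.erase i) (c + a i)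
      (by rw [Finset.card_erase_of_mem hi, hR]; rfl)
      (fun j hj => ha j (Finset.mem_of_mem_erase hj)) hic (by
        rw [add_assoc, Finset.add_sum_erase R a hi]
        exact hsum)
    refine ⟨i :: l, ?_, ?_, ?_⟩
    · rw [List.nodup_cons]
      refine ⟨fun h => ?_, hl1⟩
      have : i ∈ l.toFinset := List.mem_toFinset.2 h
      rw [hl2] at this
      exact Finset.notMem_erase i R this
    · rw [List.toFinset_cons, hl2, Finset.insert_erase hi]
    · intro t
      cases t with
      | zero => simpa using hc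
      | succ t =>
        have := hl3 t
        rw [add_assoc] at this
        simpa using this

/-- A nonempty zero-sum family of bounded integers contains a short nonempty zero-sum family. -/
theorem exists_short {ι : Type*} [DecidableEq ι] (a : ι → ℤ) (Δ : ℕ) (D : Finset ι)
    (hD : D.Nonempty) (ha : ∀ i ∈ D, |a i| ≤ Δ) (hsum : ∑ i ∈ D, a i = 0) :
    ∃ T ⊆ D, T.Nonempty ∧ T.card ≤ 2 * Δ + 1 ∧ ∑ i ∈ T, a i = 0 := by
  by_cases hcard : D.card ≤ 2 * Δ + 1
  · exact ⟨D, subset_rfl, hD, hcard, hsum⟩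
  push Not at hcard
  obtain ⟨l, hl1, hl2, hl3⟩ := exists_order a Δ D.card D 0 rfl ha (by simp) (by simpa using hsum)
  have hlen : l.length = D.card := by
    rw [← hl2, List.toFinset_card_of_nodup hl1]
  -- pigeonhole on the first `2Δ+2` partial sums
  let s : ℕ → ℤ := fun t => ((l.take t).map a).sum
  have hs : ∀ t, s t ∈ Finset.Icc (-(Δ : ℤ)) Δ := by
    intro t
    have := hl3 t
    rw [zero_add, abs_le] at this
    exact Finset.mem_Icc.2 this
  obtain ⟨k1, hk1, k2, hk2, hne, heq⟩ := Finset.exists_ne_map_eq_of_card_lt_of_maps_to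
    (s := Finset.range (2 * Δ + 2)) (t := Finset.Icc (-(Δ : ℤ)) Δ) (f := s)
    (by rw [Int.card_Icc, Finset.card_range]; omega) (fun t _ => hs t)
  -- wlog k1 < k2
  wlog hlt : k1 < k2 generalizing k1 k2
  · exact this k2 hk2 k1 hk1 hne.symm heq.symm (lt_of_le_of_ne (not_lt.1 hlt) hne.symm)
  have hk2' : k2 ≤ 2 * Δ + 1 := by
    have := Finset.mem_range.1 hk2
    omega
  have hsplit : l.take k2 = l.take k1 ++ (l.take k2).drop k1 := by
    have h1 : (l.take k2).take k1 = l.take k1 := by
      rw [List.take_take, min_eq_left hlt.le]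
    conv_lhs => rw [← List.take_append_drop k1 (l.take k2), h1]
  have hnd : ((l.take k2).drop k1).Nodup :=
    (hl1.sublist (List.take_sublist _ _)).sublist (List.drop_sublist _ _)
  have hlenT : ((l.take k2).drop k1).length = k2 - k1 := by
    rw [List.length_drop, List.length_take, hlen]
    omega
  refine ⟨((l.take k2).drop k1).toFinset, ?_, ?_, ?_, ?_⟩
  · rw [← hl2]
    intro x hx
    rw [List.mem_toFinset] at hx ⊢
    exact List.mem_of_mem_take (List.mem_of_mem_drop hx)
  · rw [← Finset.card_pos, List.toFinset_card_of_nodup hnd, hlenT]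
    omega
  · rw [List.toFinset_card_of_nodup hnd, hlenT]
    omega
  · rw [List.sum_toFinset _ hnd]
    have h2 : s k2 = s k1 + (((l.take k2).drop k1).map a).sum := by
      simp only [s]
      conv_lhs => rw [hsplit, List.map_append, List.sum_append]
    linarith

/-- Partition of a zero-sum family into short zero-sum blocks. -/
theorem exists_blocks {ι : Type*} [DecidableEq ι] (a : ι → ℤ) (Δ : ℕ) :
    ∀ (k : ℕ) (D : Finset ι), D.card = k → (∀ i ∈ D, |a i| ≤ Δ) → ∑ i ∈ D, a i = 0 →
      ∃ PP : Finset (Finset ι), (∀ T ∈ PP, T.Nonempty ∧ T.card ≤ 2 * Δ + 1 ∧ ∑ i ∈ T, a i = 0) ∧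
        (PP : Set (Finset ι)).PairwiseDisjoint id ∧ PP.biUnion id = D := by
  intro k
  induction k using Nat.strong_induction_on with
  | _ k ih =>
    intro D hD ha hsum
    rcases D.eq_empty_or_nonempty with rfl | hne
    · exact ⟨∅, by simp, by simp, by simp⟩
    obtain ⟨T, hTD, hT, hTc, hTs⟩ := exists_short a Δ D hne ha hsum
    have hcard : (D \ T).card < k := by
      rw [Finset.card_sdiff_of_subset hTD, hD]
      have := hT.card_pos
      have := Finset.card_le_card hTD
      omega
    obtain ⟨PP, h1, h2, h3⟩ := ih _ hcard (D \ T) rfl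
      (fun i hi => ha i (Finset.mem_sdiff.1 hi).1) (by
        have := Finset.sum_sdiff hTD (f := a)
        linarith)
    have hdisj : ∀ U ∈ PP, Disjoint T U := by
      intro U hU
      have : U ⊆ D \ T := by
        rw [← h3]
        exact Finset.subset_biUnion_of_mem id hU
      exact (Finset.disjoint_sdiff (s := T) (t := D)).mono_right this
    refine ⟨insert T PP, ?_, ?_, ?_⟩
    · intro U hU
      rcases Finset.mem_insert.1 hU with rfl | hU
      · exact ⟨hT, hTc, hTs⟩
      · exact h1 U hU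
    · rw [Finset.coe_insert]
      rw [Set.pairwiseDisjoint_insert]
      exact ⟨h2, fun U hU _ => hdisj U hU⟩
    · rw [Finset.biUnion_insert, h3]
      exact Finset.union_sdiff_of_subset hTD

/-- The bound for the length of an irreducible zero-sum family of vectors with `r` coordinates
bounded by `Δ`. -/
def GG : ℕ → ℕ → ℕ
  | 0, _ => 1
  | (r + 1), Δ => (2 * Δ + 1) * GG r ((2 * Δ + 1) * Δ)

/-- **Zero-sum splitting.** -/
theorem exists_split (r : ℕ) : ∀ {ι : Type} [DecidableEq ι] (Δ : ℕ) (v : ι → ℕ → ℤ) (D : Finset ι),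
    (∀ i ∈ D, ∀ c < r, |v i c| ≤ Δ) → (∀ c < r, ∑ i ∈ D, v i c = 0) → GG r Δ < D.card →
    ∃ T ⊆ D, T.Nonempty ∧ (D \ T).Nonempty ∧ ∀ c < r, ∑ i ∈ T, v i c = 0 := by
  induction r with
  | zero =>
    intro ι _ Δ v D _ _ hcard
    rw [GG, Finset.one_lt_card] at hcard
    obtain ⟨x, hx, y, hy, hxy⟩ := hcard
    refine ⟨{x}, by simpa using hx, by simp, ⟨y, ?_⟩, by simp⟩
    rw [Finset.mem_sdiff, Finset.mem_singleton]
    exact ⟨hy, hxy.symm⟩
  | succ r ih =>
    intro ι _ Δ v D hv hsum hcard
    obtain ⟨PP, h1, h2, h3⟩ := exists_blocks (fun i => v i 0) Δ D.card D rfl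
      (fun i hi => hv i hi 0 (Nat.succ_pos r)) (hsum 0 (Nat.succ_pos r))
    have hsub : ∀ T ∈ PP, T ⊆ D := by
      intro T hT
      rw [← h3]
      exact Finset.subset_biUnion_of_mem id hT
    have hcardPP : GG r ((2 * Δ + 1) * Δ) < PP.card := by
      have h4 : D.card ≤ PP.card * (2 * Δ + 1) := by
        rw [← h3]
        exact Finset.card_biUnion_le_card_mul _ _ _ fun T hT => (h1 T hT).2.1
      rw [GG] at hcard
      have h5 := lt_of_lt_of_le hcard h4
      rw [mul_comm] at h5
      exact lt_of_mul_lt_mul_right h5 (Nat.zero_le _)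
    have hsumU : ∀ (TT : Finset (Finset ι)), TT ⊆ PP → ∀ f : ι → ℤ,
        ∑ T ∈ TT, ∑ i ∈ T, f i = ∑ i ∈ TT.biUnion id, f i := by
      intro TT hTT f
      rw [Finset.sum_biUnion (h2.subset (by exact_mod_cast hTT))]
      rfl
    obtain ⟨TT, hT1, hT2, hT3, hT4⟩ := ih ((2 * Δ + 1) * Δ) (fun T c => ∑ i ∈ T, v i (c + 1)) PP
      (by
        intro T hT c hc
        calc |∑ i ∈ T, v i (c + 1)| ≤ ∑ i ∈ T, |v i (c + 1)| := Finset.abs_sum_le_sum_abs _ _
          _ ≤ ∑ _i ∈ T, (Δ : ℤ) := Finset.sum_le_sum fun i hi =>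
              hv i (hsub T hT hi) (c + 1) (by omega)
          _ = (T.card : ℤ) * Δ := by simp
          _ ≤ (((2 * Δ + 1) * Δ : ℕ) : ℤ) := by
              push_cast
              have : (T.card : ℤ) ≤ 2 * Δ + 1 := by exact_mod_cast (h1 T hT).2.1
              have h0 : (0 : ℤ) ≤ Δ := by positivity
              nlinarith)
      (by
        intro c hc
        rw [hsumU PP subset_rfl, h3]
        exact hsum (c + 1) (by omega))
      hcardPP
    refine ⟨TT.biUnion id, ?_, ?_, ?_, ?_⟩
    · rw [← h3]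
      exact Finset.biUnion_subset_biUnion_of_subset_left id hT1
    · obtain ⟨T, hT⟩ := hT2
      obtain ⟨x, hx⟩ := (h1 T (hT1 hT)).1
      exact ⟨x, Finset.mem_biUnion.2 ⟨T, hT, hx⟩⟩
    · obtain ⟨T, hT⟩ := hT3
      rw [Finset.mem_sdiff] at hT
      obtain ⟨x, hx⟩ := (h1 T hT.1).1
      refine ⟨x, Finset.mem_sdiff.2 ⟨hsub T hT.1 hx, fun hx' => ?_⟩⟩
      obtain ⟨U, hU, hxU⟩ := Finset.mem_biUnion.1 hx'
      have hne : T ≠ U := by
        rintro rfl
        exact hT.2 hU
      exact Finset.disjoint_left.1 (h2 hT.1 (hT1 hU) hne) hx hxU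
    · intro c hc
      rw [← hsumU TT hT1]
      cases c with
      | zero => exact Finset.sum_eq_zero fun T hT => (h1 T (hT1 hT)).2.2
      | succ c => exact hT4 c (by omega)

/-- Feasible assignments: the vectors of the chosen options sum to zero. -/
def Feas {ι O : Type} [Fintype ι] (r : ℕ) (v : ι → O → ℕ → ℤ) (x : ι → O) : Prop :=
  ∀ c < r, ∑ i, v i (x i) c = 0

/-- Optimal assignments. -/
def IsOpt {ι O : Type} [Fintype ι] (r : ℕ) (v : ι → O → ℕ → ℤ) (w : ι → O → ℝ) (x : ι → O) :
    Prop :=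
  Feas r v x ∧ ∀ y, Feas r v y → ∑ i, w i (y i) ≤ ∑ i, w i (x i)

/-- **Sensitivity theorem.** Changing the weights of one item changes some optimal solution in at
most `GG r Δ` items. -/
theorem sensitivity {ι O : Type} [Fintype ι] [Finite O] [DecidableEq ι] [DecidableEq O] (r Δ : ℕ)
    (v : ι → O → ℕ → ℤ) (hv : ∀ i o o' c, c < r → |v i o c - v i o' c| ≤ Δ)
    (w w' : ι → O → ℝ) (i₀ : ι) (hw : ∀ i, i ≠ i₀ → w' i = w i) (x : ι → O)
    (hx : IsOpt r v w x) :
    ∃ y, IsOpt r v w' y ∧ (univ.filter fun i => y i ≠ x i).card ≤ GG r Δ := by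
  classical
  -- existence of an optimal solution for `w'`
  have hfin : (Set.univ : Set (ι → O)).Finite := Set.toFinite _
  let A : Set (ι → O) := {y | Feas r v y}
  have hA : A.Finite := hfin.subset (Set.subset_univ _)
  obtain ⟨y₀, hy₀A, hy₀⟩ := hA.exists_maximalFor (fun y => ∑ i, w' i (y i)) A ⟨x, hx.1⟩
  have hy₀opt : IsOpt r v w' y₀ := by
    refine ⟨hy₀A, fun y hy => ?_⟩
    by_contra hcon
    push Not at hcon
    have := hy₀ hy hcon.le
    linarith
  let B : Set (ι → O) := {y | IsOpt r v w' y}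
  have hB : B.Finite := hfin.subset (Set.subset_univ _)
  obtain ⟨y, hyB, hymin⟩ := hB.exists_minimalFor
    (fun y => (univ.filter fun i => y i ≠ x i).card) B ⟨y₀, hy₀opt⟩
  refine ⟨y, hyB, ?_⟩
  by_contra hcard
  push Not at hcard
  let D : Finset ι := univ.filter fun i => y i ≠ x i
  have hsumD : ∀ f : ι → O → ℤ, ∑ i ∈ D, (f i (y i) - f i (x i)) =
      ∑ i, f i (y i) - ∑ i, f i (x i) := by
    intro f
    rw [← Finset.sum_sub_distrib]
    apply Finset.sum_subset (Finset.subset_univ _)
    intro i _ hi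
    simp only [D, Finset.mem_filter, Finset.mem_univ, true_and, not_not] at hi
    rw [hi, sub_self]
  obtain ⟨T, hTD, hT1, hT2, hT3⟩ := exists_split r Δ (fun i c => v i (y i) c - v i (x i) c) D
    (fun i _ c hc => hv i _ _ c hc)
    (fun c hc => by rw [hsumD (fun i o => v i o c), hyB.1 c hc, hx.1 c hc, sub_self]) hcard
  -- one of the two parts avoids `i₀`
  obtain ⟨U, hUD, hU1, hU2, hi₀⟩ : ∃ U ⊆ D, U.Nonempty ∧
      (∀ c < r, ∑ i ∈ U, (v i (y i) c - v i (x i) c) = 0) ∧ i₀ ∉ U := by
    by_cases hi : i₀ ∈ T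
    · refine ⟨D \ T, Finset.sdiff_subset, hT2, ?_, fun h => (Finset.mem_sdiff.1 h).2 hi⟩
      intro c hc
      have h1 := Finset.sum_sdiff hTD (f := fun i => v i (y i) c - v i (x i) c)
      have h2 := hT3 c hc
      have h3 := hsumD (fun i o => v i o c)
      rw [hyB.1 c hc, hx.1 c hc] at h3
      simp only [sub_self] at h3
      linarith
    · exact ⟨T, hTD, hT1, hT3, hi⟩
  -- switch back on `U`
  let y' : ι → O := fun i => if i ∈ U then x i else y i
  let x' : ι → O := fun i => if i ∈ U then y i else x i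
  have hy' : ∀ {M : Type} [AddCommGroup M] (f : ι → O → M),
      ∑ i, f i (y' i) = ∑ i, f i (y i) - ∑ i ∈ U, (f i (y i) - f i (x i)) := by
    intro M _ f
    have h1 : ∑ i ∈ U, (f i (y i) - f i (x i)) = ∑ i, (f i (y i) - f i (y' i)) := by
      have h2 : ∑ i ∈ U, (f i (y i) - f i (x i)) = ∑ i ∈ U, (f i (y i) - f i (y' i)) :=
        Finset.sum_congr rfl fun i hi => by simp only [y', if_pos hi]
      rw [h2]
      apply Finset.sum_subset (Finset.subset_univ _)
      intro i _ hi
      simp only [y', if_neg hi, sub_self]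
    rw [h1, Finset.sum_sub_distrib, sub_sub_cancel]
  have hx' : ∀ {M : Type} [AddCommGroup M] (f : ι → O → M),
      ∑ i, f i (x' i) = ∑ i, f i (x i) + ∑ i ∈ U, (f i (y i) - f i (x i)) := by
    intro M _ f
    have h1 : ∑ i ∈ U, (f i (y i) - f i (x i)) = ∑ i, (f i (x' i) - f i (x i)) := by
      have h2 : ∑ i ∈ U, (f i (y i) - f i (x i)) = ∑ i ∈ U, (f i (x' i) - f i (x i)) :=
        Finset.sum_congr rfl fun i hi => by simp only [x', if_pos hi]
      rw [h2]
      apply Finset.sum_subset (Finset.subset_univ _)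
      intro i _ hi
      simp only [x', if_neg hi, sub_self]
    rw [h1, Finset.sum_sub_distrib, add_sub_cancel]
  have hx'f : Feas r v x' := by
    intro c hc
    rw [hx' (fun i o => v i o c), hx.1 c hc, hU2 c hc, add_zero]
  have hy'f : Feas r v y' := by
    intro c hc
    rw [hy' (fun i o => v i o c), hyB.1 c hc, hU2 c hc, sub_zero]
  have hle : ∑ i ∈ U, (w' i (y i) - w' i (x i)) ≤ 0 := by
    have h1 := hx.2 x' hx'f
    rw [hx' w] at h1
    have h2 : ∑ i ∈ U, (w' i (y i) - w' i (x i)) = ∑ i ∈ U, (w i (y i) - w i (x i)) :=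
      Finset.sum_congr rfl fun i hi => by
        rw [hw i (fun h => hi₀ (h ▸ hi))]
    rw [h2]
    linarith
  have hy'opt : IsOpt r v w' y' := by
    refine ⟨hy'f, fun z hz => ?_⟩
    rw [hy' w']
    have := hyB.2 z hz
    linarith
  have hlt : (univ.filter fun i => y' i ≠ x i).card < (univ.filter fun i => y i ≠ x i).card := by
    apply Finset.card_lt_card
    rw [Finset.ssubset_iff_of_subset]
    · obtain ⟨i, hi⟩ := hU1
      refine ⟨i, hUD hi, ?_⟩
      simp [y', hi]
    · intro i hi
      rw [Finset.mem_filter] at hi ⊢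
      refine ⟨Finset.mem_univ _, ?_⟩
      have h := hi.2
      simp only [y'] at h
      split_ifs at h with h'
      · exact absurd rfl h
      · exact h
  exact absurd (hymin hy'opt hlt.le) (not_le.2 hlt)

end Pool.Agent.Helper48_FPT
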