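import Pool.Agent.Helper48_FPT.Core

/-!
# Dynamic programming tables and typed assignments (pure mathematics)
-/

set_option autoImplicit false

namespace Pool.Agent.Helper48_FPT

open Finset

/-- States visited when following the options `o` from state `y0`. -/
def path (step : ℕ → ℕ → ℕ → ℕ) (y0 : ℕ) (o : ℕ → ℕ) : ℕ → ℕ
  | 0 => y0
  | j + 1 => step j (path step y0 o j) (o j)

/-- `o` is an accepted sequence of options. -/
def Valid (N S K : ℕ) (step : ℕ → ℕ → ℕ → ℕ) (Acc : ℕ → Prop) (y0 : ℕ) (o : ℕ → ℕ) : Prop :=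
  (∀ j < N, o j < K) ∧ (∀ j ≤ N, path step y0 o j < S) ∧ Acc (path step y0 o N)

/-- States visited when following the choices `ch`. -/
def greedy (step : ℕ → ℕ → ℕ → ℕ) (ch : ℕ → ℕ → ℕ) (y0 : ℕ) : ℕ → ℕ
  | 0 => y0
  | j + 1 => step j (greedy step ch y0 j) (ch j (greedy step ch y0 j))

/-- Specification of the tables. -/
structure Tables (N S K : ℕ) (step : ℕ → ℕ → ℕ → ℕ) (Acc : ℕ → Prop) (w : ℕ → ℕ → ℝ)
    (F : ℕ → ℕ → ℕ) (Vl : ℕ → ℕ → ℝ) (ch : ℕ → ℕ → ℕ) : Prop where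
  fin : ∀ y < S, (1 ≤ F N y ↔ Acc y) ∧ Vl N y = 0
  sound : ∀ j < N, ∀ y < S, 1 ≤ F j y → ch j y < K ∧ step j y (ch j y) < S ∧
    1 ≤ F (j + 1) (step j y (ch j y)) ∧ Vl j y = w j (ch j y) + Vl (j + 1) (step j y (ch j y))
  complete : ∀ j < N, ∀ y < S, ∀ o < K, step j y o < S → 1 ≤ F (j + 1) (step j y o) →
    1 ≤ F j y ∧ w j o + Vl (j + 1) (step j y o) ≤ Vl j y

theorem Tables.le {N S K : ℕ} {step : ℕ → ℕ → ℕ → ℕ} {Acc : ℕ → Prop} {w : ℕ → ℕ → ℝ}
    {F : ℕ → ℕ → ℕ} {Vl : ℕ → ℕ → ℝ} {ch : ℕ → ℕ → ℕ} (h : Tables N S K step Acc w F Vl ch)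
    {y0 : ℕ} {o : ℕ → ℕ} (ho : Valid N S K step Acc y0 o) :
    1 ≤ F 0 y0 ∧ ∑ j ∈ range N, w j (o j) ≤ Vl 0 y0 := by
  obtain ⟨h1, h2, h3⟩ := ho
  have key : ∀ k ≤ N, 1 ≤ F (N - k) (path step y0 o (N - k)) ∧
      ∑ j ∈ Ico (N - k) N, w j (o j) ≤ Vl (N - k) (path step y0 o (N - k)) := by
    intro k
    induction k with
    | zero =>
      intro _
      have h4 := h.fin _ (h2 N le_rfl)
      simp only [Nat.sub_zero, Finset.Ico_self, Finset.sum_empty]
      exact ⟨h4.1.2 h3, h4.2.ge⟩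
    | succ k ih =>
      intro hk
      obtain ⟨h4, h5⟩ := ih (by omega)
      have h6 : N - k = N - (k + 1) + 1 := by omega
      set j := N - (k + 1) with hj
      have hjN : j < N := by omega
      rw [h6] at h4 h5
      have h7 := h.complete j hjN _ (h2 j hjN.le) _ (h1 j hjN) (h2 (j + 1) (by omega)) h4
      refine ⟨h7.1, ?_⟩
      rw [Finset.sum_eq_sum_Ico_succ_bot hjN]
      refine le_trans ?_ h7.2
      have : path step y0 o (j + 1) = step j (path step y0 o j) (o j) := rfl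
      rw [this] at h5
      linarith
  have := key N le_rfl
  rw [Nat.sub_self] at this
  rw [← Finset.range_eq_Ico] at this
  exact this

theorem Tables.greedy_valid {N S K : ℕ} {step : ℕ → ℕ → ℕ → ℕ} {Acc : ℕ → Prop} {w : ℕ → ℕ → ℝ}
    {F : ℕ → ℕ → ℕ} {Vl : ℕ → ℕ → ℝ} {ch : ℕ → ℕ → ℕ} (h : Tables N S K step Acc w F Vl ch)
    {y0 : ℕ} (hy0 : y0 < S) (h0 : 1 ≤ F 0 y0) :
    Valid N S K step Acc y0 (fun j => ch j (greedy step ch y0 j)) ∧
    ∑ j ∈ range N, w j (ch j (greedy step ch y0 j)) = Vl 0 y0 := by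
  have hpath : ∀ j, path step y0 (fun j => ch j (greedy step ch y0 j)) j = greedy step ch y0 j := by
    intro j
    induction j with
    | zero => rfl
    | succ j ih => simp only [path, greedy, ih]
  have key : ∀ j ≤ N, greedy step ch y0 j < S ∧ 1 ≤ F j (greedy step ch y0 j) ∧
      ∑ i ∈ range j, w i (ch i (greedy step ch y0 i)) + Vl j (greedy step ch y0 j) = Vl 0 y0 := by
    intro j
    induction j with
    | zero => intro _; simpa [greedy] using ⟨hy0, h0⟩
    | succ j ih =>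
      intro hj
      obtain ⟨h1, h2, h3⟩ := ih (by omega)
      obtain ⟨h4, h5, h6, h7⟩ := h.sound j (by omega) _ h1 h2
      refine ⟨h5, h6, ?_⟩
      rw [Finset.sum_range_succ, ← h3, h7]
      simp only [greedy]
      ring
  refine ⟨⟨?_, ?_, ?_⟩, ?_⟩
  · intro j hj
    obtain ⟨h1, h2, h3⟩ := key j hj.le
    exact (h.sound j hj _ h1 h2).1
  · intro j hj
    rw [hpath]
    exact (key j hj).1
  · rw [hpath]
    obtain ⟨h1, h2, h3⟩ := key N le_rfl
    exact (h.fin _ h1).1.1 h2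
  · obtain ⟨h1, h2, h3⟩ := key N le_rfl
    rw [(h.fin _ h1).2, add_zero] at h3
    exact h3

/-! ### Natural-number version of the sensitivity theorem -/

/-- Feasible assignments of options `< K` to the items `< N`. -/
def FeasN (N K r : ℕ) (v : ℕ → ℕ → ℕ → ℤ) (x : ℕ → ℕ) : Prop :=
  (∀ i < N, x i < K) ∧ ∀ c < r, ∑ i ∈ range N, v i (x i) c = 0

/-- Optimal assignments of options `< K` to the items `< N`. -/
def IsOptN (N K r : ℕ) (v : ℕ → ℕ → ℕ → ℤ) (w : ℕ → ℕ → ℝ) (x : ℕ → ℕ) : Prop :=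
  FeasN N K r v x ∧
    ∀ y, FeasN N K r v y → ∑ i ∈ range N, w i (y i) ≤ ∑ i ∈ range N, w i (x i)

theorem sensitivityN (N K r Δ : ℕ) (v : ℕ → ℕ → ℕ → ℤ)
    (hv : ∀ i < N, ∀ o < K, ∀ o' < K, ∀ c < r, |v i o c - v i o' c| ≤ Δ)
    (w w' : ℕ → ℕ → ℝ) (i₀ : ℕ) (hw : ∀ i, i ≠ i₀ → w' i = w i) (x : ℕ → ℕ)
    (hx : IsOptN N K r v w x) :
    ∃ y, IsOptN N K r v w' y ∧ ((range N).filter fun i => y i ≠ x i).card ≤ GG r Δ := by
  classical
  rcases Nat.eq_zero_or_pos N with rfl | hN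
  · refine ⟨x, ⟨hx.1, fun y _ => by simp⟩, by simp⟩
  have hK : 0 < K := lt_of_le_of_lt (Nat.zero_le _) (hx.1.1 0 hN)
  let ext : (Fin N → Fin K) → ℕ → ℕ := fun y i => if h : i < N then y ⟨i, h⟩ else 0
  have hext : ∀ (y : Fin N → Fin K) (i : Fin N), ext y i = y i := by
    intro y i
    simp [ext]
  let res : (y : ℕ → ℕ) → (∀ i < N, y i < K) → Fin N → Fin K := fun y hy i => ⟨y i, hy i i.2⟩
  let vF : Fin N → Fin K → ℕ → ℤ := fun i o c => v i o c
  have hsum : ∀ {M : Type} [AddCommMonoid M] (g : ℕ → ℕ → M) (y : Fin N → Fin K),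
      ∑ i ∈ range N, g i (ext y i) = ∑ i : Fin N, g i (y i) := by
    intro M _ g y
    rw [Finset.sum_range]
    simp only [hext]
  have hsum' : ∀ {M : Type} [AddCommMonoid M] (g : ℕ → ℕ → M) (y : ℕ → ℕ) (hy : ∀ i < N, y i < K),
      ∑ i ∈ range N, g i (y i) = ∑ i : Fin N, g i (res y hy i) := by
    intro M _ g y hy
    rw [Finset.sum_range]
  have hfeas : ∀ y : Fin N → Fin K, Feas r vF y ↔ FeasN N K r v (ext y) := by
    intro y
    constructor
    · intro h
      refine ⟨fun i hi => ?_, fun c hc => ?_⟩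
      · have := hext y ⟨i, hi⟩
        simp only at this
        rw [this]
        exact (y _).2
      · rw [hsum (fun i o => v i o c)]
        exact h c hc
    · intro h c hc
      have := h.2 c hc
      rw [hsum (fun i o => v i o c)] at this
      exact this
  have hfeas' : ∀ (y : ℕ → ℕ) (hy : FeasN N K r v y), Feas r vF (res y hy.1) := by
    intro y hy c hc
    have := hy.2 c hc
    rw [hsum' (fun i o => v i o c) y hy.1] at this
    exact this
  have hxF : IsOpt r vF (fun i o => w i o) (res x hx.1.1) := by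
    refine ⟨hfeas' x hx.1, fun y hy => ?_⟩
    have := hx.2 (ext y) ((hfeas y).1 hy)
    rw [hsum (fun i o => w i o), hsum' (fun i o => w i o) x hx.1.1] at this
    exact this
  obtain ⟨y, hy1, hy2⟩ := sensitivity r Δ vF (fun i o o' c hc => hv i i.2 o o.2 o' o'.2 c hc)
    (fun i o => w i o) (fun i o => w' i o) (if h : i₀ < N then ⟨i₀, h⟩ else ⟨0, hN⟩) (by
      intro i hi
      by_cases h : (i : ℕ) = i₀
      · exfalso
        apply hi
        have h' : i₀ < N := h ▸ i.2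
        rw [dif_pos h']
        exact Fin.ext h
      · funext o
        exact congrFun (hw i h) o) (res x hx.1.1) hxF
  refine ⟨ext y, ⟨(hfeas y).1 hy1.1, fun z hz => ?_⟩, ?_⟩
  · have := hy1.2 (res z hz.1) (hfeas' z hz)
    rw [hsum (fun i o => w' i o), hsum' (fun i o => w' i o) z hz.1]
    exact this
  · refine le_trans (le_of_eq ?_) hy2
    rw [← Finset.card_map (Fin.valEmbedding)]
    congr 1
    ext i
    simp only [Finset.mem_filter, Finset.mem_range, Finset.mem_map, Finset.mem_univ, true_and,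
      Fin.valEmbedding_apply]
    constructor
    · rintro ⟨hi, hne⟩
      refine ⟨⟨i, hi⟩, fun h => hne ?_, rfl⟩
      have h1 := hext y ⟨i, hi⟩
      simp only at h1
      rw [h1, h]
    · rintro ⟨j, hj, rfl⟩
      refine ⟨j.2, fun h => hj ?_⟩
      apply Fin.ext
      rw [hext] at h
      exact h

end Pool.Agent.Helper48_FPT
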