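import Pool.Agent.Helper48_FPT.Dp

/-!
# Encoding of difference vectors by natural numbers
-/

set_option autoImplicit false

namespace Pool.Agent.Helper48_FPT

open Finset

theorem digits_zero (M : ℕ) : ∀ (r : ℕ) (X : ℕ → ℤ), (∀ τ < r, |X τ| < M) →
    ∑ τ ∈ range r, (M : ℤ) ^ τ * X τ = 0 → ∀ τ < r, X τ = 0 := by
  intro r
  induction r with
  | zero => intro X _ _ τ hτ; omega
  | succ r ih =>
    intro X hX hsum τ hτ
    have hM : 0 < (M : ℤ) := lt_of_le_of_lt (abs_nonneg _) (hX 0 (Nat.succ_pos r))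
    rw [Finset.sum_range_succ'] at hsum
    have h1 : ∑ k ∈ range r, (M : ℤ) ^ (k + 1) * X (k + 1) =
        (M : ℤ) * ∑ k ∈ range r, (M : ℤ) ^ k * X (k + 1) := by
      rw [Finset.mul_sum]
      apply Finset.sum_congr rfl
      intro k _
      ring
    rw [h1, pow_zero, one_mul] at hsum
    have h2 : X 0 = 0 := by
      apply Int.eq_zero_of_abs_lt_dvd (m := (M : ℤ)) _ (hX 0 (Nat.succ_pos r))
      exact ⟨-∑ k ∈ range r, (M : ℤ) ^ k * X (k + 1), by linarith⟩
    rw [h2, add_zero] at hsum
    have h3 : ∑ k ∈ range r, (M : ℤ) ^ k * X (k + 1) = 0 := by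
      rcases mul_eq_zero.1 hsum with h | h
      · exact absurd h hM.ne'
      · exact h
    cases τ with
    | zero => exact h2
    | succ τ => exact ih (fun k => X (k + 1)) (fun k hk => hX (k + 1) (by omega)) h3 τ (by omega)

/-- The transition: changing item `j` from option `cur j` to option `o`. -/
def stepc (BIG : ℕ) (Cd : ℕ → ℕ → ℕ) (cur : ℕ → ℕ) (j y o : ℕ) : ℕ :=
  if o = cur j then y else y + BIG + Cd j o - Cd j (cur j)

/-- Number of changed items among the first `j`. -/
def cnt (cur o : ℕ → ℕ) (j : ℕ) : ℕ := ((range j).filter fun i => o i ≠ cur i).card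

/-- Sum of the code differences over the first `j` items. -/
def dsum (Cd : ℕ → ℕ → ℕ) (cur o : ℕ → ℕ) (j : ℕ) : ℤ :=
  ∑ i ∈ range j, ((Cd i (o i) : ℤ) - Cd i (cur i))

theorem cnt_succ (cur o : ℕ → ℕ) (j : ℕ) :
    cnt cur o (j + 1) = cnt cur o j + if o j = cur j then 0 else 1 := by
  rw [cnt, cnt, Finset.range_add_one, Finset.filter_insert]
  by_cases h : o j = cur j
  · simp [h]
  · rw [if_pos h, if_neg h, Finset.card_insert_of_notMem]
    simp

theorem cnt_mono (cur o : ℕ → ℕ) {i j : ℕ} (h : i ≤ j) : cnt cur o i ≤ cnt cur o j := by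
  apply Finset.card_le_card
  apply Finset.filter_subset_filter
  exact Finset.range_subset_range.2 h

theorem dsum_succ (Cd : ℕ → ℕ → ℕ) (cur o : ℕ → ℕ) (j : ℕ) :
    dsum Cd cur o (j + 1) = dsum Cd cur o j + ((Cd j (o j) : ℤ) - Cd j (cur j)) := by
  rw [dsum, dsum, Finset.sum_range_succ]

section
variable {N K E G : ℕ} {Cd : ℕ → ℕ → ℕ} {cur o : ℕ → ℕ}

theorem dsum_abs (hC : ∀ j < N, ∀ o < K, Cd j o ≤ E) (hcur : ∀ j < N, cur j < K)
    (ho : ∀ j < N, o j < K) : ∀ j ≤ N, |dsum Cd cur o j| ≤ cnt cur o j * E := by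
  intro j
  induction j with
  | zero => intro _; simp [dsum, cnt]
  | succ j ih =>
    intro hj
    have h1 := ih (by omega)
    rw [dsum_succ, cnt_succ]
    by_cases h : o j = cur j
    · simpa [h] using h1
    · rw [if_neg h]
      have h2 := hC j (by omega) _ (ho j (by omega))
      have h3 := hC j (by omega) _ (hcur j (by omega))
      have h4 : |(Cd j (o j) : ℤ) - Cd j (cur j)| ≤ E := by
        rw [abs_le]
        constructor <;> [skip; skip] <;> omega
      calc |dsum Cd cur o j + ((Cd j (o j) : ℤ) - Cd j (cur j))|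
          ≤ |dsum Cd cur o j| + |(Cd j (o j) : ℤ) - Cd j (cur j)| := abs_add_le _ _
        _ ≤ cnt cur o j * E + E := add_le_add h1 h4
        _ = _ := by push_cast; ring

theorem path_formula {BIG B : ℕ} (hC : ∀ j < N, ∀ o < K, Cd j o ≤ E) (hE : E ≤ BIG)
    (hcur : ∀ j < N, cur j < K) (ho : ∀ j < N, o j < K) : ∀ j ≤ N,
    (path (stepc BIG Cd cur) B o j : ℤ) = B + cnt cur o j * BIG + dsum Cd cur o j := by
  intro j
  induction j with
  | zero => intro _; simp [dsum, cnt, path]
  | succ j ih =>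
    intro hj
    have h1 := ih (by omega)
    rw [dsum_succ, cnt_succ, path, stepc]
    by_cases h : o j = cur j
    · simpa [h] using h1
    · rw [if_neg h, if_neg h]
      have h3 := hC j (by omega) _ (hcur j (by omega))
      rw [Nat.cast_sub (by omega)]
      push_cast
      rw [h1]
      ring

/-- States of the accepted sequences. -/
def Acc (G B BIG : ℕ) (y : ℕ) : Prop := ∃ k ≤ G, y = k * BIG + B

theorem valid_iff {B BIG S : ℕ} (hC : ∀ j < N, ∀ o < K, Cd j o ≤ E) (hB : B = (G + 1) * E)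
    (hBIG : BIG = 2 * B + 1) (hS : S = (G + 1) * BIG) (hcur : ∀ j < N, cur j < K) :
    Valid N S K (stepc BIG Cd cur) (Acc G B BIG) B o ↔
      (∀ j < N, o j < K) ∧ cnt cur o N ≤ G ∧ dsum Cd cur o N = 0 := by
  have hEB : E ≤ B := by rw [hB]; nlinarith
  have hE : E ≤ BIG := by omega
  constructor
  · rintro ⟨ho, h1, h2⟩
    have hf := path_formula (B := B) hC hE hcur ho
    have hd := dsum_abs hC hcur ho
    have hcnt : ∀ j ≤ N, cnt cur o j ≤ G := by
      intro j
      induction j with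
      | zero => intro _; simp [cnt]
      | succ j ih =>
        intro hj
        have h3 := ih (by omega)
        by_cases h : o j = cur j
        · rw [cnt_succ, if_pos h]
          exact h3
        · have h4 := hf (j + 1) hj
          have h5 := hd (j + 1) hj
          have h6 := h1 (j + 1) hj
          have h7 : cnt cur o (j + 1) = cnt cur o j + 1 := by rw [cnt_succ, if_neg h]
          rw [h7] at h4 h5 ⊢
          by_contra hcon
          have h8 : cnt cur o j = G := by omega
          rw [h8] at h4 h5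
          have h9 : (((G + 1 : ℕ)) : ℤ) * E = B := by rw [hB]; push_cast; ring
          rw [h9] at h5
          have h10 : (((G + 1 : ℕ)) : ℤ) * BIG = S := by rw [hS]; push_cast; ring
          rw [h10] at h4
          have h11 := (abs_le.1 h5).1
          have h12 : (path (stepc BIG Cd cur) B o (j + 1) : ℤ) < S := by exact_mod_cast h6
          linarith
    obtain ⟨k, hk, hky⟩ := h2
    have h3 := hf N le_rfl
    have h4 := hd N le_rfl
    have h5 := hcnt N le_rfl
    rw [hky] at h3
    push_cast at h3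
    have h6 : (cnt cur o N : ℤ) * E ≤ B := by
      rw [hB]
      have : cnt cur o N * E ≤ (G + 1) * E := Nat.mul_le_mul_right _ (by omega)
      exact_mod_cast this
    have h7 := abs_le.1 (h4.trans h6)
    have h8 : ((k : ℤ) - cnt cur o N) * BIG = dsum Cd cur o N := by linarith
    have h9 : (BIG : ℤ) = 2 * B + 1 := by rw [hBIG]; push_cast; ring
    have h10 : (k : ℤ) - cnt cur o N = 0 := by
      by_contra hne
      rcases lt_or_gt_of_ne hne with h | h
      · have : ((k : ℤ) - cnt cur o N) * BIG ≤ (-1) * BIG := by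
          apply mul_le_mul_of_nonneg_right _ (by positivity)
          omega
        have hB0 : (0 : ℤ) ≤ B := by positivity
        linarith [h7.1]
      · have : 1 * (BIG : ℤ) ≤ ((k : ℤ) - cnt cur o N) * BIG := by
          apply mul_le_mul_of_nonneg_right _ (by positivity)
          omega
        have hB0 : (0 : ℤ) ≤ B := by positivity
        linarith [h7.2]
    refine ⟨ho, h5, ?_⟩
    rw [← h8, h10, zero_mul]
  · rintro ⟨ho, h1, h2⟩
    have hf := path_formula (B := B) hC hE hcur ho
    have hd := dsum_abs hC hcur ho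
    refine ⟨ho, fun j hj => ?_, ⟨cnt cur o N, h1, ?_⟩⟩
    · have h3 := hf j hj
      have h4 := hd j hj
      have h5 : cnt cur o j ≤ G := (cnt_mono cur o hj).trans h1
      have h6 : (cnt cur o j : ℤ) * E ≤ B := by
        rw [hB]
        have : cnt cur o j * E ≤ (G + 1) * E := Nat.mul_le_mul_right _ (by omega)
        exact_mod_cast this
      have h7 := (abs_le.1 (h4.trans h6)).2
      have h8 : (cnt cur o j : ℤ) * BIG ≤ G * BIG := by
        have : cnt cur o j * BIG ≤ G * BIG := Nat.mul_le_mul_right _ h5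
        exact_mod_cast this
      have h9 : (S : ℤ) = G * BIG + BIG := by rw [hS]; push_cast; ring
      have h10 : (BIG : ℤ) = 2 * B + 1 := by rw [hBIG]; push_cast; ring
      have : (path (stepc BIG Cd cur) B o j : ℤ) < S := by linarith
      exact_mod_cast this
    · have h3 := hf N le_rfl
      rw [h2, add_zero] at h3
      have : (path (stepc BIG Cd cur) B o N : ℤ) = ((cnt cur o N * BIG + B : ℕ) : ℤ) := by
        rw [h3]; push_cast; ring
      exact_mod_cast this

end

/-- Accepted sequences are the feasible assignments with few changes. -/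
theorem valid_iff_feas {N K G M r Δ E B BIG S : ℕ} {Cd : ℕ → ℕ → ℕ} {cur o : ℕ → ℕ}
    {v : ℕ → ℕ → ℕ → ℤ} {base : ℕ → ℤ}
    (hv : ∀ i < N, ∀ o < K, ∀ o' < K, ∀ c < r, |v i o c - v i o' c| ≤ Δ)
    (hCd : ∀ j < N, ∀ o < K, (Cd j o : ℤ) = base j + ∑ c ∈ range r, (M : ℤ) ^ c * v j o c)
    (hC : ∀ j < N, ∀ o < K, Cd j o ≤ E) (hB : B = (G + 1) * E)
    (hBIG : BIG = 2 * B + 1) (hS : S = (G + 1) * BIG) (hM : Δ * G < M)
    (hcur : FeasN N K r v cur) :
    Valid N S K (stepc BIG Cd cur) (Acc G B BIG) B o ↔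
      FeasN N K r v o ∧ cnt cur o N ≤ G := by
  rw [valid_iff hC hB hBIG hS hcur.1]
  -- express the sum of the code differences through the digit sums
  have key : (∀ j < N, o j < K) → dsum Cd cur o N =
      ∑ c ∈ range r, (M : ℤ) ^ c * ∑ i ∈ range N, v i (o i) c := by
    intro ho
    have h1 : dsum Cd cur o N = ∑ i ∈ range N, (∑ c ∈ range r, (M : ℤ) ^ c * v i (o i) c -
        ∑ c ∈ range r, (M : ℤ) ^ c * v i (cur i) c) := by
      apply Finset.sum_congr rfl
      intro i hi
      rw [Finset.mem_range] at hi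
      rw [hCd i hi _ (ho i hi), hCd i hi _ (hcur.1 i hi)]
      ring
    rw [h1, Finset.sum_sub_distrib, Finset.sum_comm, Finset.sum_comm (s := range N)
      (f := fun i c => (M : ℤ) ^ c * v i (cur i) c), ← Finset.sum_sub_distrib]
    apply Finset.sum_congr rfl
    intro c hc
    rw [← Finset.mul_sum, ← Finset.mul_sum, hcur.2 c (Finset.mem_range.1 hc), mul_zero, sub_zero]
  constructor
  · rintro ⟨ho, hcnt, hd⟩
    refine ⟨⟨ho, ?_⟩, hcnt⟩
    rw [key ho] at hd
    apply digits_zero M r _ _ hd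
    intro c hc
    have h2 : ∑ i ∈ range N, v i (o i) c = ∑ i ∈ range N, (v i (o i) c - v i (cur i) c) := by
      rw [Finset.sum_sub_distrib, hcur.2 c hc, sub_zero]
    have h3 : ∑ i ∈ range N, (v i (o i) c - v i (cur i) c) =
        ∑ i ∈ (range N).filter (fun i => o i ≠ cur i), (v i (o i) c - v i (cur i) c) := by
      symm
      apply Finset.sum_filter_of_ne
      intro i _ hne heq
      apply hne
      rw [heq, sub_self]
    rw [h2, h3]
    calc |∑ i ∈ (range N).filter (fun i => o i ≠ cur i), (v i (o i) c - v i (cur i) c)|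
        ≤ ∑ i ∈ (range N).filter (fun i => o i ≠ cur i), |v i (o i) c - v i (cur i) c| :=
          Finset.abs_sum_le_sum_abs _ _
      _ ≤ ∑ _i ∈ (range N).filter (fun i => o i ≠ cur i), (Δ : ℤ) := by
          apply Finset.sum_le_sum
          intro i hi
          have hi' := Finset.mem_range.1 (Finset.mem_filter.1 hi).1
          exact hv i hi' _ (ho i hi') _ (hcur.1 i hi') c hc
      _ = (cnt cur o N : ℤ) * Δ := by rw [Finset.sum_const, nsmul_eq_mul, cnt]
      _ ≤ (Δ * G : ℕ) := by
          push_cast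
          rw [mul_comm]
          exact mul_le_mul_of_nonneg_left (by exact_mod_cast hcnt) (by positivity)
      _ < M := by exact_mod_cast hM
  · rintro ⟨⟨ho, hsum⟩, hcnt⟩
    refine ⟨ho, hcnt, ?_⟩
    rw [key ho]
    apply Finset.sum_eq_zero
    intro c hc
    rw [hsum c (Finset.mem_range.1 hc), mul_zero]

/-- One stage of the algorithm: from an optimal assignment for `w` to one for `w'`. -/
theorem stage_opt {N K G M r Δ E B BIG S : ℕ} {Cd : ℕ → ℕ → ℕ} {cur : ℕ → ℕ}
    {v : ℕ → ℕ → ℕ → ℤ} {base : ℕ → ℤ}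
    (hv : ∀ i < N, ∀ o < K, ∀ o' < K, ∀ c < r, |v i o c - v i o' c| ≤ Δ)
    (hCd : ∀ j < N, ∀ o < K, (Cd j o : ℤ) = base j + ∑ c ∈ range r, (M : ℤ) ^ c * v j o c)
    (hC : ∀ j < N, ∀ o < K, Cd j o ≤ E) (hB : B = (G + 1) * E)
    (hBIG : BIG = 2 * B + 1) (hS : S = (G + 1) * BIG) (hM : Δ * G < M) (hG : GG r Δ ≤ G)
    {w w' : ℕ → ℕ → ℝ} {i₀ : ℕ} (hw : ∀ i, i ≠ i₀ → w' i = w i)
    (hcur : IsOptN N K r v w cur)
    {F : ℕ → ℕ → ℕ} {Vl : ℕ → ℕ → ℝ} {ch : ℕ → ℕ → ℕ}
    (h : Tables N S K (stepc BIG Cd cur) (Acc G B BIG) w' F Vl ch) :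
    IsOptN N K r v w' (fun j => ch j (greedy (stepc BIG Cd cur) ch B j)) ∧
      (∀ j ≤ N, greedy (stepc BIG Cd cur) ch B j < S) := by
  have hBS : B < S := by rw [hS, hBIG]; nlinarith
  have hvalid : ∀ o, Valid N S K (stepc BIG Cd cur) (Acc G B BIG) B o ↔
      FeasN N K r v o ∧ cnt cur o N ≤ G := fun o =>
    valid_iff_feas hv hCd hC hB hBIG hS hM hcur.1
  have h0 : 1 ≤ F 0 B := (h.le ((hvalid cur).2 ⟨hcur.1, by simp [cnt]⟩)).1
  obtain ⟨h1, h2⟩ := h.greedy_valid hBS h0
  obtain ⟨z, hz1, hz2⟩ := sensitivityN N K r Δ v hv w w' i₀ hw cur hcur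
  have hz3 := h.le ((hvalid z).2 ⟨hz1.1, le_trans hz2 hG⟩)
  refine ⟨⟨((hvalid _).1 h1).1, fun y hy => ?_⟩, ?_⟩
  · rw [h2]
    exact (hz1.2 y hy).trans hz3.2
  · intro j hj
    have h3 := h1.2.1 j hj
    have hpath : ∀ j, path (stepc BIG Cd cur) B
        (fun j => ch j (greedy (stepc BIG Cd cur) ch B j)) j = greedy (stepc BIG Cd cur) ch B j := by
      intro j
      induction j with
      | zero => rfl
      | succ j ih => simp only [path, greedy, ih]
    rw [hpath] at h3
    exact h3

end Pool.Agent.Helper48_FPT
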