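import Pool.Agent.Helper48_FPT.Model

/-!
# Maximum-perimeter triangle partition under a polyhedral norm (Max-3DM)
-/

set_option autoImplicit false

namespace Pool.Agent.Helper48_FPT

/-- The polyhedral norm with unit ball `{x | ∀ i, |a i ⬝ x| ≤ 1}`. -/
noncomputable def polyNorm {f s : ℕ} (a : Fin f → Fin s → ℝ) (x : Fin s → ℝ) : ℝ :=
  ⨆ i, |∑ c, a i c * x c|

/-- Perimeter of the triangle `x`, `y`, `z`. -/
noncomputable def perimeter {f s : ℕ} (a : Fin f → Fin s → ℝ) (x y z : Fin s → ℝ) : ℝ :=
  polyNorm a (x - y) + polyNorm a (y - z) + polyNorm a (z - x)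

/-- Total perimeter of the partition of the `3 * n` points into the `n` triangles
`{P (σ (j, 0)), P (σ (j, 1)), P (σ (j, 2))}`. -/
noncomputable def total {f s n : ℕ} (a : Fin f → Fin s → ℝ) (P : Fin (3 * n) → Fin s → ℝ)
    (σ : Fin n × Fin 3 ≃ Fin (3 * n)) : ℝ :=
  ∑ j, perimeter a (P (σ (j, 0))) (P (σ (j, 1))) (P (σ (j, 2)))

/-- The initial memory for an instance: the numbers `n`, `f`, `s` stand in the natural-number
array `0`, the facet normals in the real array `0` and the points in the real array `1`; all other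
cells hold zero. -/
noncomputable def input {f s n : ℕ} (a : Fin f → Fin s → ℝ) (P : Fin (3 * n) → Fin s → ℝ) :
    Mem where
  nat i j k := if i = 0 ∧ k = 0 then (if j = 0 then n else if j = 1 then f else if j = 2 then s
    else 0) else 0
  real i j k :=
    if i = 0 then (if h : j < f ∧ k < s then a ⟨j, h.1⟩ ⟨k, h.2⟩ else 0)
    else if i = 1 then (if h : j < 3 * n ∧ k < s then P ⟨j, h.1⟩ ⟨k, h.2⟩ else 0)
    else 0

end Pool.Agent.Helper48_FPT
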