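import Pool.Agent.Helper48_FPT.Match
import Pool.Agent.Helper48_FPT.Problem

/-!
# Max-3DM under polyhedral norms: the final assembly
-/

set_option autoImplicit false
set_option linter.unusedSimpArgs false

namespace Pool.Agent.Helper48_FPT

open Finset

section

variable {f s n : ℕ} (a : Fin f → Fin s → ℝ) (P : Fin (3 * n) → Fin s → ℝ)

theorem phi_eq_lt {g : ℕ} (hg : g < f) (p : Fin (3 * n)) :
    Phi f s ((input a P).real 0) ((input a P).real 1) g p = ∑ c, a ⟨g, hg⟩ c * P p c := by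
  rw [Phi, if_pos hg, Finset.sum_range]
  apply Finset.sum_congr rfl
  intro c _
  simp [input, hg]

theorem phi_eq_ge {g : ℕ} (hg : g - f < f) (hg' : ¬ g < f) (p : Fin (3 * n)) :
    Phi f s ((input a P).real 0) ((input a P).real 1) g p = - ∑ c, a ⟨g - f, hg⟩ c * P p c := by
  rw [Phi, if_neg hg', Finset.sum_range, zero_sub]
  congr 1
  apply Finset.sum_congr rfl
  intro c _
  simp [input, hg]

theorem sum_sub' (i : Fin f) (p q : Fin (3 * n)) :
    ∑ c, a i c * (P p - P q) c = ∑ c, a i c * P p c - ∑ c, a i c * P q c := by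
  rw [← Finset.sum_sub_distrib]
  apply Finset.sum_congr rfl
  intro c _
  rw [Pi.sub_apply]
  ring

theorem phi_sub_le {g : ℕ} (hg : g < f + f) (p q : Fin (3 * n)) :
    Phi f s ((input a P).real 0) ((input a P).real 1) g p -
      Phi f s ((input a P).real 0) ((input a P).real 1) g q ≤ polyNorm a (P p - P q) := by
  have hbd : BddAbove (Set.range fun i => |∑ c, a i c * (P p - P q) c|) := (Set.finite_range _).bddAbove
  by_cases h : g < f
  · rw [phi_eq_lt a P h, phi_eq_lt a P h, ← sum_sub' a P]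
    exact (le_abs_self _).trans (le_ciSup hbd (⟨g, h⟩ : Fin f))
  · have h' : g - f < f := by omega
    rw [phi_eq_ge a P h' h, phi_eq_ge a P h' h]
    have h1 : - ∑ c, a ⟨g - f, h'⟩ c * P p c - - ∑ c, a ⟨g - f, h'⟩ c * P q c =
        - ∑ c, a ⟨g - f, h'⟩ c * (P p - P q) c := by
      rw [sum_sub' a P]
      ring
    rw [h1]
    exact (neg_le_abs _).trans (le_ciSup hbd (⟨g - f, h'⟩ : Fin f))

theorem exists_phi_sub (hf : 0 < f) (p q : Fin (3 * n)) :
    ∃ g < f + f, Phi f s ((input a P).real 0) ((input a P).real 1) g p -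
      Phi f s ((input a P).real 0) ((input a P).real 1) g q = polyNorm a (P p - P q) := by
  have : Nonempty (Fin f) := ⟨⟨0, hf⟩⟩
  obtain ⟨i, hi⟩ := exists_eq_ciSup_of_finite (f := fun i => |∑ c, a i c * (P p - P q) c|)
  rw [polyNorm, ← hi]
  rcases abs_choice (∑ c, a i c * (P p - P q) c) with h | h
  · refine ⟨i, by omega, ?_⟩
    rw [phi_eq_lt a P i.2, phi_eq_lt a P i.2, ← sum_sub' a P]
    exact h.symm
  · have h1 : f + (i : ℕ) - f < f := by omega
    have h2 : ¬ f + (i : ℕ) < f := by omega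
    refine ⟨f + i, by omega, ?_⟩
    rw [phi_eq_ge a P h1 h2, phi_eq_ge a P h1 h2]
    have h3 : (⟨f + (i : ℕ) - f, h1⟩ : Fin f) = i := by
      apply Fin.ext
      simp
    rw [h3, h, sum_sub' a P]
    ring

end

theorem le_of_bounded {f s : ℕ} (a : Fin f → Fin s → ℝ)
    (h : Bornology.IsBounded {x : Fin s → ℝ | ∀ i, |∑ c, a i c * x c| ≤ 1}) : s ≤ f := by
  by_contra hcon
  push Not at hcon
  have h1 : Module.finrank ℝ (Fin f → ℝ) < Module.finrank ℝ (Fin s → ℝ) := by simpa using hcon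
  have h2 := LinearMap.ker_ne_bot_of_finrank_lt (f := Matrix.mulVecLin (Matrix.of a)) h1
  obtain ⟨x, hx, hx0⟩ := (Submodule.ne_bot_iff _).1 h2
  rw [LinearMap.mem_ker] at hx
  have hx' : ∀ i, ∑ c, a i c * x c = 0 := by
    intro i
    have := congrFun hx i
    simpa [Matrix.mulVecLin, Matrix.mulVec, dotProduct] using this
  obtain ⟨R, hR⟩ := h.exists_norm_le
  have h3 : ∀ t : ℝ, ‖t • x‖ ≤ R := by
    intro t
    apply hR
    intro i
    have : ∑ c, a i c * (t • x) c = t * ∑ c, a i c * x c := by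
      rw [Finset.mul_sum]
      apply Finset.sum_congr rfl
      intro c _
      simp only [Pi.smul_apply, smul_eq_mul]
      ring
    rw [this, hx' i]
    simp
  have hxn : 0 < ‖x‖ := norm_pos_iff.2 hx0
  have h4 := h3 ((R + 1) / ‖x‖)
  rw [norm_smul, Real.norm_eq_abs] at h4
  have h5 : (R + 1) / ‖x‖ * ‖x‖ ≤ |(R + 1) / ‖x‖| * ‖x‖ :=
    mul_le_mul_of_nonneg_right (le_abs_self _) hxn.le
  rw [div_mul_cancel₀ _ hxn.ne'] at h5
  linarith

/-- A computable bound for the loop counts. -/
def Kf (f : ℕ) : ℕ :=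
  Sh (f + f) + Mh (f + f) + Gh (f + f) + (f + f) * ((f + f) * (f + f)) + (f + f) * (f + f) +
    (f + f) + 8

theorem bnd {f s n : ℕ} (hs : s ≤ f) (hn : 0 < n) : Bnd (Kf f * n) n f s := by
  have h1 : Kf f ≤ Kf f * n := Nat.le_mul_of_pos_right _ hn
  have h2 : 4 * n ≤ Kf f * n := Nat.mul_le_mul_right _ (by rw [Kf]; omega)
  constructor
  · omega
  · refine le_trans ?_ h1; rw [Kf]; omega
  · refine le_trans ?_ h1; rw [Kf]; omega
  · refine le_trans ?_ h1; rw [Kf]; omega
  · refine le_trans ?_ h1; rw [Kf]; omega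
  · refine le_trans ?_ h1; rw [Kf]; omega
  · refine le_trans ?_ h1; rw [Kf]; omega
  · refine le_trans ?_ h1; rw [Kf]; omega
  · refine le_trans ?_ h1; rw [Kf]; omega

/-- The dependence of the running time on the number of facets. -/
def gf (f : ℕ) : ℕ := prog.size * (Kf f + 1) ^ prog.depth

theorem primrec_gf : Primrec gf := by
  have hpow : Primrec₂ ((· ^ ·) : ℕ → ℕ → ℕ) := Primrec₂.unpaired'.1 Nat.Primrec.pow
  have hadd := Primrec.nat_add
  have hmul := Primrec.nat_mul
  have hh : Primrec fun f : ℕ => f + f := hadd.comp Primrec.id Primrec.id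
  have hr : Primrec fun f : ℕ => (f + f) * (f + f) := hmul.comp hh hh
  have hO : Primrec fun f : ℕ => (f + f) * ((f + f) * (f + f)) := hmul.comp hh hr
  have hG : Primrec fun f : ℕ => Gh (f + f) :=
    hpow.comp (Primrec.const 7) (hpow.comp (Primrec.const 2) hr)
  have hM : Primrec fun f : ℕ => Mh (f + f) :=
    hadd.comp (hadd.comp (hadd.comp hG hG) hG) (Primrec.const 1)
  have hE : Primrec fun f : ℕ => Eh (f + f) := hmul.comp (Primrec.const 3) (hpow.comp hM hr)
  have hB : Primrec fun f : ℕ => Bh (f + f) := hmul.comp (hadd.comp hG (Primrec.const 1)) hE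
  have hBIG : Primrec fun f : ℕ => BIGh (f + f) :=
    hadd.comp (hmul.comp (Primrec.const 2) hB) (Primrec.const 1)
  have hS : Primrec fun f : ℕ => Sh (f + f) := hmul.comp (hadd.comp hG (Primrec.const 1)) hBIG
  have hK : Primrec Kf :=
    hadd.comp (hadd.comp (hadd.comp (hadd.comp (hadd.comp (hadd.comp hS hM) hG) hO) hr) hh)
      (Primrec.const 8)
  exact hmul.comp (Primrec.const prog.size)
    (hpow.comp (hadd.comp hK (Primrec.const 1)) (Primrec.const prog.depth))

theorem main {f s n : ℕ} (a : Fin f → Fin s → ℝ) (P : Fin (3 * n) → Fin s → ℝ) (hf : 0 < f)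
    (hn : 0 < n) (hb : Bornology.IsBounded {x : Fin s → ℝ | ∀ i, |∑ c, a i c * x c| ≤ 1}) :
    prog.time (input a P) ≤ gf f * n ^ prog.depth ∧
    ∃ σ : Fin n × Fin 3 ≃ Fin (3 * n),
      (∀ (j : Fin n) (k : Fin 3), (prog.run (input a P)).nat 1 j k = σ (j, k)) ∧
      ∀ ρ : Fin n × Fin 3 ≃ Fin (3 * n), total a P ρ ≤ total a P σ := by
  have hB := bnd (le_of_bounded a hb) hn
  set L := Kf f * n with hLdef
  set h := f + f with hh
  have hh0 : 0 < h := by omega
  set Ph := Phi f s ((input a P).real 0) ((input a P).real 1) with hPh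
  -- the specification of the whole program
  have key : Sp L prog (input a P) (fun m' => ∃ x, IsOptN (3 * n + n) (h * (h * h)) (h * h)
      (vec n h) (wgt n h Ph) x ∧ MInv n h x (3 * n) m') := by
    simp only [prog, sp_seqs_cons, sp_seqs_nil]
    apply Sp.frame
    refine (sp_const hB (by simp [input]) (by simp [input])).mono ?_
    rintro m1 ⟨hc1, h11, h20⟩ hA1
    have r1 : ∀ i, m1.real i = (input a P).real i := fun i => hA1.2 i (by
      have : cConst.rw = [] := by decide
      rw [this]; simp)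
    have b23 : m1.nat 23 = (input a P).nat 23 := hA1.1 23 (by decide)
    have b30 : m1.nat 30 = (input a P).nat 30 := hA1.1 30 (by decide)
    have b0 : m1.nat 0 = (input a P).nat 0 := hA1.1 0 (by decide)
    clear hA1
    apply Sp.frame
    refine (sp_options hB.bh hc1.h4 h11 h20).mono ?_
    intro m2 ho2 hA2
    have hc2 : ConstOK n h m2 := hc1.congr hA2 (by decide)
    have r2 : ∀ i, m2.real i = (input a P).real i := fun i => (hA2.2 i (by
      have : cOptions.rw = [] := by decide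
      rw [this]; simp)).trans (r1 i)
    have c23 : m2.nat 23 = (input a P).nat 23 := (hA2.1 23 (by decide)).trans b23
    have c30 : m2.nat 30 = (input a P).nat 30 := (hA2.1 30 (by decide)).trans b30
    have c0 : m2.nat 0 = (input a P).nat 0 := (hA2.1 0 (by decide)).trans b0
    clear hA2
    apply Sp.frame
    refine (sp_kinds (by have := hB.b3n; omega) hc2.h0 hc2.h2 (by
      intro j; rw [c23]; simp [input])).mono ?_
    intro m3 hk3 hA3
    have hc3 : ConstOK n h m3 := hc2.congr hA3 (by decide)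
    have ho3 : ∀ o < h * (h * h), OptTab h m3 o := fun o ho => (ho2 o ho).congr hA3 (by decide)
    have r3 : ∀ i, m3.real i = (input a P).real i := fun i => (hA3.2 i (by
      have : cKinds.rw = [] := by decide
      rw [this]; simp)).trans (r2 i)
    have d30 : m3.nat 30 = (input a P).nat 30 := (hA3.1 30 (by decide)).trans c30
    have d0 : m3.nat 0 = (input a P).nat 0 := (hA3.1 0 (by decide)).trans c0
    clear hA3
    apply Sp.frame
    refine (sp_phi hB (by rw [d0]; simp [input]) (by rw [d0]; simp [input]) hc3.h2).mono ?_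
    intro m4 hp4 hA4
    have H4 : Glob n h Ph m4 := by
      refine ⟨hc3.congr hA4 (by decide), fun o ho => (ho3 o ho).congr hA4 (by decide),
        fun j hj => ?_, fun g hg p hp => ?_⟩
      · rw [hA4.1 23 (by decide), hk3 j hj]
      · rw [hp4 g hg p hp, r3, r3]
    have e30 : m4.nat 30 = (input a P).nat 30 := (hA4.1 30 (by decide)).trans d30
    clear hA4
    apply Sp.frame
    refine (sp_cSolve hh0 hB.b3n hB.bO hB.bS hB.bG H4 (by
      intro j; rw [e30]; simp [input])).mono ?_
    intro m5 hopt hA5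
    have H5 : Glob n h Ph m5 := H4.congr hA5 (by decide) (by decide)
    refine (sp_cMatch (x := fun j => m5.nat 30 j 0) hh0 hB.b3n (by have := hB.b7; omega)
      H5.con.h0 H5.con.h2 H5.con.h5 ?_ (fun j _ => rfl) hopt.1).mono ?_
    · intro k hk o ho
      have ht := H5.tab o ho
      obtain rfl | rfl | rfl : k = 0 ∨ k = 1 ∨ k = 2 := by omega
      · exact ht.t0
      · exact ht.t1
      · exact ht.t2
    · intro m6 hM
      exact ⟨_, hopt, hM⟩
  obtain ⟨hOK, x, hopt, hM⟩ := key
  refine ⟨?_, ?_⟩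
  · refine (time_le L prog _ hOK).trans ?_
    rw [gf, mul_assoc, ← mul_pow]
    apply Nat.mul_le_mul_left
    apply Nat.pow_le_pow_left
    rw [hLdef]
    nlinarith
  · generalize prog.run (input a P) = m6 at hM ⊢
    clear hOK
    -- the bijection
    have hq : ∀ (j : Fin n) (k : Fin 3), ((3 * (j : ℕ) + k) / 3 = j ∧ (3 * (j : ℕ) + k) % 3 = k) ∧
        3 * (j : ℕ) + k < 3 * n := by
      intro j k
      have := j.2
      have := k.2
      refine ⟨⟨?_, ?_⟩, ?_⟩ <;> omega
    have hout : ∀ (j : Fin n) (k : Fin 3), m6.nat 1 (j : ℕ) (k : ℕ) < 3 * n ∧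
        TT h 0 (x (m6.nat 1 (j : ℕ) (k : ℕ))) = TT h k (x (3 * n + j)) := by
      intro j k
      obtain ⟨⟨q1, q2⟩, q3⟩ := hq j k
      have := hM.out _ q3
      rw [slotT, q1, q2] at this
      exact ⟨this.1, this.2.1⟩
    let σ₀ : Fin n × Fin 3 → Fin (3 * n) := fun jk => ⟨m6.nat 1 (jk.1 : ℕ) (jk.2 : ℕ), (hout jk.1 jk.2).1⟩
    have hinj : Function.Injective σ₀ := by
      rintro ⟨j, k⟩ ⟨j', k'⟩ heq
      obtain ⟨⟨q1, q2⟩, q3⟩ := hq j k
      obtain ⟨⟨q1', q2'⟩, q3'⟩ := hq j' k'
      have h1 : m6.nat 1 (j : ℕ) (k : ℕ) = m6.nat 1 (j' : ℕ) (k' : ℕ) := congrArg Fin.val heq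
      have h2 := hM.inj _ q3 _ q3' (by rw [q1, q2, q1', q2']; exact h1)
      have h3 : (j : ℕ) = j' := by omega
      have h4 : (k : ℕ) = k' := by omega
      exact Prod.ext (Fin.ext h3) (Fin.ext h4)
    have hbij : Function.Bijective σ₀ := by
      rw [Fintype.bijective_iff_injective_and_card]
      refine ⟨hinj, ?_⟩
      simp [mul_comm]
    let σ : Fin n × Fin 3 ≃ Fin (3 * n) := Equiv.ofBijective σ₀ hbij
    refine ⟨σ, fun j k => rfl, fun ρ => ?_⟩
    let d : ℕ → ℕ → ℝ := fun p q =>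
      if hpq : p < 3 * n ∧ q < 3 * n then polyNorm a (P ⟨p, hpq.1⟩ - P ⟨q, hpq.2⟩) else 0
    have hd : ∀ p q : Fin (3 * n), d p q = polyNorm a (P p - P q) := by
      intro p q
      simp only [d, p.2, q.2, and_self, dif_pos, Fin.eta]
    have htot : ∀ ρ : Fin n × Fin 3 ≃ Fin (3 * n), total a P ρ =
        ∑ j : Fin n, (d (ρ (j, 0)) (ρ (j, 1)) + d (ρ (j, 1)) (ρ (j, 2)) +
          d (ρ (j, 2)) (ρ (j, 0))) := by
      intro ρ
      simp only [total, perimeter, hd]
    obtain ⟨y, hy1, hy2⟩ := exists_typed (Phi := Ph) (d := d) hh0 (by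
      intro p hp q hq
      have := exists_phi_sub a P hf ⟨p, hp⟩ ⟨q, hq⟩
      rw [← hd] at this
      exact this) ρ
    rw [htot ρ, hy2, htot σ]
    refine (hopt.2 y hy1).trans ?_
    apply typed_le hh0 (by
      intro p hp q hq g hg
      have := phi_sub_le a P hg ⟨p, hp⟩ ⟨q, hq⟩
      rw [← hd] at this
      exact this) hopt.1.1
    intro j k
    exact (hout j k).2

end Pool.Agent.Helper48_FPT
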