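import Pool.Agent.Helper48_FPT.Encode

/-!
# Typed assignments and triangle partitions
-/

set_option autoImplicit false

namespace Pool.Agent.Helper48_FPT

open Finset

/-- First functional of an option. -/
def ox (h o : ℕ) : ℕ := o / (h * h)
/-- Second functional of an option. -/
def oy (h o : ℕ) : ℕ := o / h % h
/-- Third functional of an option. -/
def oz (h o : ℕ) : ℕ := o % h

/-- The option with given functionals. -/
def idx (h x y z : ℕ) : ℕ := (x * h + y) * h + z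

/-- The pair codes of an option. -/
def TT (h k o : ℕ) : ℕ :=
  if k = 0 then ox h o * h + oz h o else
    if k = 1 then oy h o * h + ox h o else oz h o * h + oy h o

theorem oz_idx {h x y z : ℕ} (hz : z < h) : oz h (idx h x y z) = z := by
  rw [oz, idx, Nat.mul_add_mod_of_lt hz]

theorem idx_div {h x y z : ℕ} (hz : z < h) : idx h x y z / h = x * h + y := by
  rw [idx, Nat.mul_comm _ h, Nat.mul_add_div (by omega), Nat.div_eq_of_lt hz, add_zero]

theorem oy_idx {h x y z : ℕ} (hy : y < h) (hz : z < h) : oy h (idx h x y z) = y := by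
  rw [oy, idx_div hz, Nat.mul_add_mod_of_lt hy]

theorem ox_idx {h x y z : ℕ} (hy : y < h) (hz : z < h) : ox h (idx h x y z) = x := by
  rw [ox, ← Nat.div_div_eq_div_mul, idx_div hz, Nat.mul_comm x h, Nat.mul_add_div (by omega),
    Nat.div_eq_of_lt hy, add_zero]

theorem idx_lt {h x y z : ℕ} (hx : x < h) (hy : y < h) (hz : z < h) :
    idx h x y z < h * (h * h) := by
  have h1 : x * h + y < h * h := by
    calc x * h + y < x * h + h := by omega
      _ = (x + 1) * h := by ring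
      _ ≤ h * h := Nat.mul_le_mul_right _ hx
  calc idx h x y z < (x * h + y) * h + h := by rw [idx]; omega
    _ = (x * h + y + 1) * h := by ring
    _ ≤ (h * h) * h := Nat.mul_le_mul_right _ h1
    _ = h * (h * h) := by ring

theorem ox_lt {h o : ℕ} (ho : o < h * (h * h)) : ox h o < h := by
  rw [ox]
  exact Nat.div_lt_of_lt_mul (by rw [mul_comm]; exact ho)

theorem oy_lt {h o : ℕ} (hh : 0 < h) : oy h o < h := Nat.mod_lt _ hh

theorem oz_lt {h o : ℕ} (hh : 0 < h) : oz h o < h := Nat.mod_lt _ hh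

theorem pair_lt {h x y : ℕ} (hx : x < h) (hy : y < h) : x * h + y < h * h := by
  calc x * h + y < x * h + h := by omega
    _ = (x + 1) * h := by ring
    _ ≤ h * h := Nat.mul_le_mul_right _ hx

theorem pair_inj {h x y x' y' : ℕ} (hy : y < h) (hy' : y' < h) (heq : x * h + y = x' * h + y') :
    x = x' ∧ y = y' := by
  have hh : 0 < h := by omega
  have h1 : (x * h + y) % h = (x' * h + y') % h := by rw [heq]
  rw [Nat.mul_add_mod_of_lt hy, Nat.mul_add_mod_of_lt hy'] at h1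
  refine ⟨?_, h1⟩
  subst h1
  have h2 : x * h = x' * h := by omega
  exact Nat.eq_of_mul_eq_mul_right hh h2

theorem TT_lt {h k o : ℕ} (hh : 0 < h) (ho : o < h * (h * h)) : TT h k o < h * h := by
  rw [TT]
  split_ifs
  · exact pair_lt (ox_lt ho) (oz_lt hh)
  · exact pair_lt (oy_lt hh) (ox_lt ho)
  · exact pair_lt (oz_lt hh) (oy_lt hh)

/-- The vectors of the items: points count their pair code, tokens count their three pair codes
negatively. -/
def vec (n h : ℕ) (j o τ : ℕ) : ℤ :=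
  if j < 3 * n then (if TT h 0 o = τ then 1 else 0)
  else -((if TT h 0 o = τ then 1 else 0) + (if TT h 1 o = τ then 1 else 0) +
    (if TT h 2 o = τ then 1 else 0))

theorem vec_diff {n h j o o' τ : ℕ} : |vec n h j o τ - vec n h j o' τ| ≤ (3 : ℕ) := by
  rw [abs_le]
  simp only [vec]
  split_ifs <;> norm_num

/-- Codes of the options of points (`κ = 0`) and tokens (`κ ≠ 0`). -/
def code (h M : ℕ) (κ o : ℕ) : ℕ :=
  if κ = 0 then M ^ TT h 0 o
  else 3 * M ^ (h * h) - (M ^ TT h 0 o + M ^ TT h 1 o + M ^ TT h 2 o)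

/-- Kind of an item. -/
def kind (n j : ℕ) : ℕ := if j < 3 * n then 0 else 1

theorem pow_TT_le {h M k o : ℕ} (hh : 0 < h) (hM : 0 < M) (ho : o < h * (h * h)) :
    M ^ TT h k o ≤ M ^ (h * h) :=
  Nat.pow_le_pow_right hM (TT_lt hh ho).le

theorem code_le {h M κ o : ℕ} (hh : 0 < h) (hM : 0 < M) (ho : o < h * (h * h)) :
    code h M κ o ≤ 3 * M ^ (h * h) := by
  have h1 := pow_TT_le (k := 0) hh hM ho
  rw [code]
  split_ifs
  · omega
  · omega

theorem code_eq {n h M j o : ℕ} (hh : 0 < h) (hM : 0 < M) (ho : o < h * (h * h)) :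
    (code h M (kind n j) o : ℤ) = (if j < 3 * n then 0 else ((3 * M ^ (h * h) : ℕ) : ℤ)) +
      ∑ c ∈ range (h * h), (M : ℤ) ^ c * vec n h j o c := by
  have hs : ∀ t < h * h, ∑ c ∈ range (h * h), (M : ℤ) ^ c * (if t = c then 1 else 0) =
      (M : ℤ) ^ t := by
    intro t ht
    simp [ht]
  have h0 := hs _ (TT_lt (k := 0) hh ho)
  have h1 := hs _ (TT_lt (k := 1) hh ho)
  have h2 := hs _ (TT_lt (k := 2) hh ho)
  have h3 := pow_TT_le (k := 0) hh hM ho
  have h4 := pow_TT_le (k := 1) hh hM ho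
  have h5 := pow_TT_le (k := 2) hh hM ho
  by_cases hj : j < 3 * n
  · simp only [code, kind, vec, if_pos hj, if_true, h0]
    push_cast
    ring
  · simp only [code, kind, vec, if_neg hj]
    rw [if_neg one_ne_zero, Nat.cast_sub (by omega)]
    have h6 : ∑ c ∈ range (h * h), (M : ℤ) ^ c * -((if TT h 0 o = c then 1 else 0) +
        (if TT h 1 o = c then 1 else 0) + (if TT h 2 o = c then 1 else 0)) =
        -(∑ c ∈ range (h * h), (M : ℤ) ^ c * (if TT h 0 o = c then 1 else 0) +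
        ∑ c ∈ range (h * h), (M : ℤ) ^ c * (if TT h 1 o = c then 1 else 0) +
        ∑ c ∈ range (h * h), (M : ℤ) ^ c * (if TT h 2 o = c then 1 else 0)) := by
      rw [← Finset.sum_add_distrib, ← Finset.sum_add_distrib, ← Finset.sum_neg_distrib]
      apply Finset.sum_congr rfl
      intro c _
      ring
    rw [h6, h0, h1, h2]
    push_cast
    ring

/-- Weights of the options. -/
noncomputable def wgt (n h : ℕ) (Phi : ℕ → ℕ → ℝ) (j o : ℕ) : ℝ :=
  if j < 3 * n then Phi (ox h o) j - Phi (oz h o) j else 0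

theorem sum_split {M : Type} [AddCommMonoid M] (n : ℕ) (F : ℕ → M)
    (ρ : Fin n × Fin 3 ≃ Fin (3 * n)) :
    ∑ i ∈ range (3 * n + n), F i =
      ∑ j : Fin n, (F (ρ (j, 0)) + F (ρ (j, 1)) + F (ρ (j, 2)) + F (3 * n + j)) := by
  rw [Finset.sum_range_add, Finset.sum_range, Finset.sum_range, Finset.sum_add_distrib]
  congr 1
  rw [← Equiv.sum_comp ρ, Fintype.sum_prod_type]
  apply Finset.sum_congr rfl
  intro j _
  rw [Fin.sum_univ_three]

/-- A partition yields a feasible typed assignment of at least the same value. -/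
theorem exists_typed {n h : ℕ} {Phi d : ℕ → ℕ → ℝ} (hh : 0 < h)
    (hd : ∀ p < 3 * n, ∀ q < 3 * n, ∃ g < h, Phi g p - Phi g q = d p q)
    (ρ : Fin n × Fin 3 ≃ Fin (3 * n)) :
    ∃ x, FeasN (3 * n + n) (h * (h * h)) (h * h) (vec n h) x ∧
      ∑ j : Fin n, (d (ρ (j, 0)) (ρ (j, 1)) + d (ρ (j, 1)) (ρ (j, 2)) + d (ρ (j, 2)) (ρ (j, 0))) =
        ∑ i ∈ range (3 * n + n), wgt n h Phi i (x i) := by
  choose! G hG1 hG2 using hd
  let gx : Fin n → ℕ := fun j => G (ρ (j, 0)) (ρ (j, 1))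
  let gy : Fin n → ℕ := fun j => G (ρ (j, 1)) (ρ (j, 2))
  let gz : Fin n → ℕ := fun j => G (ρ (j, 2)) (ρ (j, 0))
  have hgx : ∀ j, gx j < h := fun j => hG1 _ (ρ (j, 0)).2 _ (ρ (j, 1)).2
  have hgy : ∀ j, gy j < h := fun j => hG1 _ (ρ (j, 1)).2 _ (ρ (j, 2)).2
  have hgz : ∀ j, gz j < h := fun j => hG1 _ (ρ (j, 2)).2 _ (ρ (j, 0)).2
  let pt : Fin n × Fin 3 → ℕ := fun jk =>
    if jk.2 = 0 then idx h (gx jk.1) 0 (gz jk.1) else
      if jk.2 = 1 then idx h (gy jk.1) 0 (gx jk.1) else idx h (gz jk.1) 0 (gy jk.1)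
  let x : ℕ → ℕ := fun i => if hi : i < 3 * n then pt (ρ.symm ⟨i, hi⟩) else
    if hi : i - 3 * n < n then idx h (gx ⟨i - 3 * n, hi⟩) (gy ⟨i - 3 * n, hi⟩) (gz ⟨i - 3 * n, hi⟩)
    else 0
  have hxp : ∀ jk, x (ρ jk) = pt jk := by
    intro jk
    simp only [x, (ρ jk).2, dif_pos, Fin.eta, Equiv.symm_apply_apply]
  have hxt : ∀ j : Fin n, x (3 * n + j) = idx h (gx j) (gy j) (gz j) := by
    intro j
    have h1 : ¬ 3 * n + (j : ℕ) < 3 * n := by omega
    have h2 : 3 * n + (j : ℕ) - 3 * n < n := by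
      have := j.2
      omega
    simp only [x]
    rw [dif_neg h1, dif_pos h2]
    have h3 : (⟨3 * n + (j : ℕ) - 3 * n, h2⟩ : Fin n) = j := by
      apply Fin.ext
      simp
    rw [h3]
  have hp0 : ∀ j, x (ρ (j, 0)) = idx h (gx j) 0 (gz j) := fun j => by rw [hxp]; simp [pt]
  have hp1 : ∀ j, x (ρ (j, 1)) = idx h (gy j) 0 (gx j) := fun j => by rw [hxp]; simp [pt]
  have hp2 : ∀ j, x (ρ (j, 2)) = idx h (gz j) 0 (gy j) := fun j => by rw [hxp]; simp [pt]
  refine ⟨x, ⟨?_, ?_⟩, ?_⟩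
  · intro i _
    simp only [x]
    split_ifs with h1 h2
    · simp only [pt]
      split_ifs
      · exact idx_lt (hgx _) hh (hgz _)
      · exact idx_lt (hgy _) hh (hgx _)
      · exact idx_lt (hgz _) hh (hgy _)
    · exact idx_lt (hgx _) (hgy _) (hgz _)
    · positivity
  · intro c _
    rw [sum_split n (fun i => vec n h i (x i) c) ρ]
    apply Finset.sum_eq_zero
    intro j _
    have h1 : ¬ 3 * n + (j : ℕ) < 3 * n := by omega
    simp only [vec, (ρ (j, 0)).2, (ρ (j, 1)).2, (ρ (j, 2)).2, if_true, h1, if_false]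
    rw [hp0, hp1, hp2, hxt]
    have e0 : TT h 0 (idx h (gx j) 0 (gz j)) = TT h 0 (idx h (gx j) (gy j) (gz j)) := by
      simp only [TT, if_true, ox_idx hh (hgz j), oz_idx (hgz j), ox_idx (hgy j) (hgz j)]
    have e1 : TT h 0 (idx h (gy j) 0 (gx j)) = TT h 1 (idx h (gx j) (gy j) (gz j)) := by
      simp only [TT, if_true, ox_idx hh (hgx j), oz_idx (hgx j), ox_idx (hgy j) (hgz j),
        oy_idx (hgy j) (hgz j), one_ne_zero, if_false]
    have e2 : TT h 0 (idx h (gz j) 0 (gy j)) = TT h 2 (idx h (gx j) (gy j) (gz j)) := by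
      simp only [TT, if_true, ox_idx hh (hgy j), oz_idx (hgy j), oz_idx (hgz j),
        oy_idx (hgy j) (hgz j), OfNat.ofNat_ne_zero, OfNat.ofNat_ne_one, if_false]
    rw [e0, e1, e2]
    ring
  · rw [sum_split n (fun i => wgt n h Phi i (x i)) ρ]
    apply Finset.sum_congr rfl
    intro j _
    have h1 : ¬ 3 * n + (j : ℕ) < 3 * n := by omega
    simp only [wgt, (ρ (j, 0)).2, (ρ (j, 1)).2, (ρ (j, 2)).2, if_true, h1, if_false]
    rw [hp0, hp1, hp2, ox_idx hh (hgz j), oz_idx (hgz j), ox_idx hh (hgx j), oz_idx (hgx j),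
      ox_idx hh (hgy j), oz_idx (hgy j)]
    have e0 := hG2 _ (ρ (j, 0)).2 _ (ρ (j, 1)).2
    have e1 := hG2 _ (ρ (j, 1)).2 _ (ρ (j, 2)).2
    have e2 := hG2 _ (ρ (j, 2)).2 _ (ρ (j, 0)).2
    rw [← e0, ← e1, ← e2]
    simp only [gx, gy, gz]
    ring

/-- A partition that matches a typed assignment has at least its value. -/
theorem typed_le {n h : ℕ} {Phi d : ℕ → ℕ → ℝ} (hh : 0 < h)
    (hd : ∀ p < 3 * n, ∀ q < 3 * n, ∀ g < h, Phi g p - Phi g q ≤ d p q)
    {x : ℕ → ℕ} (hx : ∀ i < 3 * n + n, x i < h * (h * h))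
    (σ : Fin n × Fin 3 ≃ Fin (3 * n))
    (hσ : ∀ (j : Fin n) (k : Fin 3), TT h 0 (x (σ (j, k))) = TT h k (x (3 * n + j))) :
    ∑ i ∈ range (3 * n + n), wgt n h Phi i (x i) ≤
      ∑ j : Fin n,
        (d (σ (j, 0)) (σ (j, 1)) + d (σ (j, 1)) (σ (j, 2)) + d (σ (j, 2)) (σ (j, 0))) := by
  rw [sum_split n (fun i => wgt n h Phi i (x i)) σ]
  apply Finset.sum_le_sum
  intro j _
  have h1 : ¬ 3 * n + (j : ℕ) < 3 * n := by omega
  have hj := hx (3 * n + j) (by have := j.2; omega)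
  simp only [wgt, (σ (j, 0)).2, (σ (j, 1)).2, (σ (j, 2)).2, if_true, h1, if_false]
  have s0 := hσ j 0
  have s1 := hσ j 1
  have s2 := hσ j 2
  simp only [TT, Fin.val_zero, Fin.val_one, Fin.val_two, if_true, one_ne_zero, if_false,
    OfNat.ofNat_ne_zero, OfNat.ofNat_ne_one] at s0 s1 s2
  obtain ⟨a0, b0⟩ := pair_inj (oz_lt hh) (oz_lt hh) s0
  obtain ⟨a1, b1⟩ := pair_inj (oz_lt hh) (ox_lt hj) s1
  obtain ⟨a2, b2⟩ := pair_inj (oz_lt hh) (oy_lt hh) s2
  rw [a0, b0, a1, b1, a2, b2]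
  have e0 := hd _ (σ (j, 0)).2 _ (σ (j, 1)).2 _ (ox_lt hj)
  have e1 := hd _ (σ (j, 1)).2 _ (σ (j, 2)).2 _ (oy_lt (o := x (3 * n + j)) hh)
  have e2 := hd _ (σ (j, 2)).2 _ (σ (j, 0)).2 _ (oz_lt (o := x (3 * n + j)) hh)
  linarith

end Pool.Agent.Helper48_FPT
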