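import Pool.Agent.Helper48_FPT.Model

/-!
# Program verification rules
-/

set_option autoImplicit false

namespace Pool.Agent.Helper48_FPT

open Finset

/-! ### All loop counts are bounded -/

/-- All loops met while running the program have at most `L` rounds. -/
def OK (L : ℕ) : Cmd → Mem → Prop
  | .skip, _ => True
  | .setNat _ _ _ _, _ => True
  | .setReal _ _ _ _, _ => True
  | .seq c d, m => OK L c m ∧ OK L d (c.run m)
  | .ifNat x y c d, m => (x.eval m ≤ y.eval m → OK L c m) ∧ (¬ x.eval m ≤ y.eval m → OK L d m)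
  | .ifReal x y c d, m => (x.eval m ≤ y.eval m → OK L c m) ∧ (¬ x.eval m ≤ y.eval m → OK L d m)
  | .loop k c, m => k.eval m ≤ L ∧ ∀ t < k.eval m, OK L c (c.run^[t] m)

/-- Size of a program. -/
def Cmd.size : Cmd → ℕ
  | .skip => 1
  | .setNat _ i j e => i.cost + j.cost + e.cost + 1
  | .setReal _ i j e => i.cost + j.cost + e.cost + 1
  | .seq c d => c.size + d.size
  | .ifNat x y c d => x.cost + y.cost + 1 + (c.size + d.size)
  | .ifReal x y c d => x.cost + y.cost + 1 + (c.size + d.size)
  | .loop k c => k.cost + 1 + (1 + c.size)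

/-- Loop nesting depth of a program. -/
def Cmd.depth : Cmd → ℕ
  | .skip => 0
  | .setNat _ _ _ _ => 0
  | .setReal _ _ _ _ => 0
  | .seq c d => max c.depth d.depth
  | .ifNat _ _ c d => max c.depth d.depth
  | .ifReal _ _ c d => max c.depth d.depth
  | .loop _ c => c.depth + 1

theorem time_le (L : ℕ) : ∀ (c : Cmd) (m : Mem), OK L c m →
    c.time m ≤ c.size * (L + 1) ^ c.depth := by
  intro c
  have hpos : ∀ k, 1 ≤ (L + 1) ^ k := fun k => Nat.one_le_pow _ _ (Nat.succ_pos L)
  have hmono : ∀ {k l : ℕ}, k ≤ l → (L + 1) ^ k ≤ (L + 1) ^ l := fun h =>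
    Nat.pow_le_pow_right (Nat.succ_pos L) h
  induction c with
  | skip => intro m _; simp [Cmd.time, Cmd.size, Cmd.depth]
  | setNat a i j e => intro m _; simp [Cmd.time, Cmd.size, Cmd.depth]
  | setReal a i j e => intro m _; simp [Cmd.time, Cmd.size, Cmd.depth]
  | seq c d ihc ihd =>
    intro m h
    have h1 := ihc m h.1
    have h2 := ihd _ h.2
    have h3 := Nat.mul_le_mul_left c.size (hmono (le_max_left c.depth d.depth))
    have h4 := Nat.mul_le_mul_left d.size (hmono (le_max_right c.depth d.depth))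
    simp only [Cmd.time, Cmd.size, Cmd.depth]
    rw [add_mul]
    omega
  | ifNat x y c d ihc ihd =>
    intro m h
    have h3 := Nat.mul_le_mul_left c.size (hmono (le_max_left c.depth d.depth))
    have h4 := Nat.mul_le_mul_left d.size (hmono (le_max_right c.depth d.depth))
    simp only [Cmd.time, Cmd.size, Cmd.depth]
    rw [add_mul (x.cost + y.cost + 1), add_mul c.size]
    have h5 := Nat.mul_le_mul_left (x.cost + y.cost + 1) (hpos (max c.depth d.depth))
    rw [mul_one] at h5
    split_ifs with hxy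
    · have := ihc m (h.1 hxy)
      omega
    · have := ihd m (h.2 hxy)
      omega
  | ifReal x y c d ihc ihd =>
    intro m h
    have h3 := Nat.mul_le_mul_left c.size (hmono (le_max_left c.depth d.depth))
    have h4 := Nat.mul_le_mul_left d.size (hmono (le_max_right c.depth d.depth))
    simp only [Cmd.time, Cmd.size, Cmd.depth]
    rw [add_mul (x.cost + y.cost + 1), add_mul c.size]
    have h5 := Nat.mul_le_mul_left (x.cost + y.cost + 1) (hpos (max c.depth d.depth))
    rw [mul_one] at h5
    split_ifs with hxy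
    · have := ihc m (h.1 hxy)
      omega
    · have := ihd m (h.2 hxy)
      omega
  | loop k c ih =>
    intro m h
    simp only [Cmd.time, Cmd.size, Cmd.depth]
    have h1 : ∑ t ∈ range (k.eval m), (1 + c.time (c.run^[t] m)) ≤
        L * ((1 + c.size) * (L + 1) ^ c.depth) := by
      calc ∑ t ∈ range (k.eval m), (1 + c.time (c.run^[t] m))
          ≤ ∑ _t ∈ range (k.eval m), ((1 + c.size) * (L + 1) ^ c.depth) := by
            apply Finset.sum_le_sum
            intro t ht
            have := ih _ (h.2 t (Finset.mem_range.1 ht))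
            have := hpos c.depth
            rw [add_mul, one_mul]
            omega
        _ = k.eval m * ((1 + c.size) * (L + 1) ^ c.depth) := by simp
        _ ≤ _ := Nat.mul_le_mul_right _ h.1
    have h5 := Nat.mul_le_mul_left (k.cost + 1) (hpos (c.depth + 1))
    rw [mul_one] at h5
    have h6 : L * ((1 + c.size) * (L + 1) ^ c.depth) ≤ (1 + c.size) * (L + 1) ^ (c.depth + 1) := by
      rw [pow_succ]
      have := Nat.zero_le ((1 + c.size) * (L + 1) ^ c.depth)
      nlinarith
    rw [add_mul]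
    omega

/-! ### Weakest preconditions -/

/-- Running the program meets only loops with at most `L` rounds and ends in a memory satisfying
`Q`. -/
def Sp (L : ℕ) (c : Cmd) (m : Mem) (Q : Mem → Prop) : Prop := OK L c m ∧ Q (c.run m)

theorem Sp.mono {L : ℕ} {c : Cmd} {m : Mem} {Q Q' : Mem → Prop} (h : Sp L c m Q)
    (h' : ∀ m', Q m' → Q' m') : Sp L c m Q' := ⟨h.1, h' _ h.2⟩

theorem sp_skip {L : ℕ} {m : Mem} {Q : Mem → Prop} : Sp L .skip m Q ↔ Q m := by
  simp [Sp, OK, Cmd.run]

theorem sp_setNat {L a : ℕ} {i j e : NExp} {m : Mem} {Q : Mem → Prop} :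
    Sp L (.setNat a i j e) m Q ↔ Q (m.setNat a (i.eval m) (j.eval m) (e.eval m)) := by
  simp [Sp, OK, Cmd.run]

theorem sp_setReal {L a : ℕ} {i j : NExp} {e : RExp} {m : Mem} {Q : Mem → Prop} :
    Sp L (.setReal a i j e) m Q ↔ Q (m.setReal a (i.eval m) (j.eval m) (e.eval m)) := by
  simp [Sp, OK, Cmd.run]

theorem sp_seq {L : ℕ} {c d : Cmd} {m : Mem} {Q : Mem → Prop} :
    Sp L (.seq c d) m Q ↔ Sp L c m (fun m' => Sp L d m' Q) := by
  simp [Sp, OK, Cmd.run, and_assoc]

theorem sp_ifNat {L : ℕ} {x y : NExp} {c d : Cmd} {m : Mem} {Q : Mem → Prop} :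
    Sp L (.ifNat x y c d) m Q ↔
      (x.eval m ≤ y.eval m → Sp L c m Q) ∧ (¬ x.eval m ≤ y.eval m → Sp L d m Q) := by
  by_cases h : x.eval m ≤ y.eval m <;> simp [Sp, OK, Cmd.run, h]

theorem sp_ifReal {L : ℕ} {x y : RExp} {c d : Cmd} {m : Mem} {Q : Mem → Prop} :
    Sp L (.ifReal x y c d) m Q ↔
      (x.eval m ≤ y.eval m → Sp L c m Q) ∧ (¬ x.eval m ≤ y.eval m → Sp L d m Q) := by
  by_cases h : x.eval m ≤ y.eval m <;> simp [Sp, OK, Cmd.run, h]

theorem sp_loop {L K : ℕ} {k : NExp} {c : Cmd} {m : Mem} {Q : Mem → Prop} (Inv : ℕ → Mem → Prop)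
    (hk : k.eval m = K) (hK : K ≤ L) (h0 : Inv 0 m)
    (hs : ∀ t < K, ∀ m', Inv t m' → Sp L c m' (Inv (t + 1))) (hQ : ∀ m', Inv K m' → Q m') :
    Sp L (.loop k c) m Q := by
  have key : ∀ t ≤ K, Inv t (c.run^[t] m) := by
    intro t
    induction t with
    | zero => intro _; simpa using h0
    | succ t ih =>
      intro ht
      rw [Function.iterate_succ_apply']
      exact (hs t (by omega) _ (ih (by omega))).2
  refine ⟨⟨hk ▸ hK, fun t ht => ?_⟩, ?_⟩
  · rw [hk] at ht
    exact (hs t ht _ (key t ht.le)).1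
  · simp only [Cmd.run, hk]
    exact hQ _ (key K le_rfl)

/-! ### Written arrays -/

/-- The natural-number arrays a program may write to. -/
def Cmd.nw : Cmd → List ℕ
  | .skip => []
  | .setNat a _ _ _ => [a]
  | .setReal _ _ _ _ => []
  | .seq c d => c.nw ++ d.nw
  | .ifNat _ _ c d => c.nw ++ d.nw
  | .ifReal _ _ c d => c.nw ++ d.nw
  | .loop _ c => c.nw

/-- The real arrays a program may write to. -/
def Cmd.rw : Cmd → List ℕ
  | .skip => []
  | .setNat _ _ _ _ => []
  | .setReal a _ _ _ => [a]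
  | .seq c d => c.rw ++ d.rw
  | .ifNat _ _ c d => c.rw ++ d.rw
  | .ifReal _ _ c d => c.rw ++ d.rw
  | .loop _ c => c.rw

theorem frameN : ∀ (c : Cmd) (m : Mem) (a : ℕ), a ∉ c.nw → (c.run m).nat a = m.nat a := by
  intro c
  induction c with
  | skip => intro m a _; rfl
  | setNat b i j e =>
    intro m a h
    simp only [Cmd.nw, List.mem_singleton] at h
    funext i' j'
    simp [Cmd.run, Mem.setNat, h]
  | setReal b i j e => intro m a _; rfl
  | seq c d ihc ihd =>
    intro m a h
    simp only [Cmd.nw, List.mem_append, not_or] at h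
    simp only [Cmd.run]
    rw [ihd _ a h.2, ihc _ a h.1]
  | ifNat x y c d ihc ihd =>
    intro m a h
    simp only [Cmd.nw, List.mem_append, not_or] at h
    simp only [Cmd.run]
    split_ifs
    · exact ihc _ a h.1
    · exact ihd _ a h.2
  | ifReal x y c d ihc ihd =>
    intro m a h
    simp only [Cmd.nw, List.mem_append, not_or] at h
    simp only [Cmd.run]
    split_ifs
    · exact ihc _ a h.1
    · exact ihd _ a h.2
  | loop k c ih =>
    intro m a h
    simp only [Cmd.run]
    generalize k.eval m = K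
    induction K with
    | zero => rfl
    | succ K ihK =>
      rw [Function.iterate_succ_apply', ih _ a h, ihK]

theorem frameR : ∀ (c : Cmd) (m : Mem) (a : ℕ), a ∉ c.rw → (c.run m).real a = m.real a := by
  intro c
  induction c with
  | skip => intro m a _; rfl
  | setNat b i j e => intro m a _; rfl
  | setReal b i j e =>
    intro m a h
    simp only [Cmd.rw, List.mem_singleton] at h
    funext i' j'
    simp [Cmd.run, Mem.setReal, h]
  | seq c d ihc ihd =>
    intro m a h
    simp only [Cmd.rw, List.mem_append, not_or] at h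
    simp only [Cmd.run]
    rw [ihd _ a h.2, ihc _ a h.1]
  | ifNat x y c d ihc ihd =>
    intro m a h
    simp only [Cmd.rw, List.mem_append, not_or] at h
    simp only [Cmd.run]
    split_ifs
    · exact ihc _ a h.1
    · exact ihd _ a h.2
  | ifReal x y c d ihc ihd =>
    intro m a h
    simp only [Cmd.rw, List.mem_append, not_or] at h
    simp only [Cmd.run]
    split_ifs
    · exact ihc _ a h.1
    · exact ihd _ a h.2
  | loop k c ih =>
    intro m a h
    simp only [Cmd.run]
    generalize k.eval m = K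
    induction K with
    | zero => rfl
    | succ K ihK =>
      rw [Function.iterate_succ_apply', ih _ a h, ihK]

/-- The two memories agree except on the listed arrays. -/
def Agree (W W' : List ℕ) (m m' : Mem) : Prop :=
  (∀ a, a ∉ W → m'.nat a = m.nat a) ∧ (∀ a, a ∉ W' → m'.real a = m.real a)

theorem Agree.refl (W W' : List ℕ) (m : Mem) : Agree W W' m m := ⟨fun _ _ => rfl, fun _ _ => rfl⟩

theorem Agree.trans {W W' : List ℕ} {m m' m'' : Mem} (h : Agree W W' m m') (h' : Agree W W' m' m'') :
    Agree W W' m m'' :=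
  ⟨fun a ha => (h'.1 a ha).trans (h.1 a ha), fun a ha => (h'.2 a ha).trans (h.2 a ha)⟩

theorem Agree.mono {W W' V V' : List ℕ} {m m' : Mem} (h : Agree W W' m m') (hW : W ⊆ V)
    (hW' : W' ⊆ V') : Agree V V' m m' :=
  ⟨fun a ha => h.1 a fun h' => ha (hW h'), fun a ha => h.2 a fun h' => ha (hW' h')⟩

/-- Adding the frame information to a specification. -/
theorem Sp.frame {L : ℕ} {c : Cmd} {m : Mem} {Q : Mem → Prop}
    (h : Sp L c m (fun m' => Agree c.nw c.rw m m' → Q m')) : Sp L c m Q :=
  ⟨h.1, h.2 ⟨frameN c m, frameR c m⟩⟩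

/-! ### Reading after writing -/

theorem nat_setNat_ne {m : Mem} {a b i j v : ℕ} (h : b ≠ a) : (m.setNat a i j v).nat b = m.nat b := by
  funext i' j'
  simp [Mem.setNat, h]

theorem nat_setNat {m : Mem} {a i j v i' j' : ℕ} :
    (m.setNat a i j v).nat a i' j' = if i' = i ∧ j' = j then v else m.nat a i' j' := by
  simp [Mem.setNat]

theorem nat_setReal {m : Mem} {a i j : ℕ} {v : ℝ} : (m.setReal a i j v).nat = m.nat := rfl

theorem real_setNat {m : Mem} {a i j v : ℕ} : (m.setNat a i j v).real = m.real := rfl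

theorem real_setReal_ne {m : Mem} {a b i j : ℕ} {v : ℝ} (h : b ≠ a) :
    (m.setReal a i j v).real b = m.real b := by
  funext i' j'
  simp [Mem.setReal, h]

theorem real_setReal {m : Mem} {a i j i' j' : ℕ} {v : ℝ} :
    (m.setReal a i j v).real a i' j' = if i' = i ∧ j' = j then v else m.real a i' j' := by
  simp [Mem.setReal]

theorem setNat_setNat_self {m : Mem} {a i j u v : ℕ} :
    (m.setNat a i j u).setNat a i j v = m.setNat a i j v := by
  cases m
  simp only [Mem.setNat, Mem.mk.injEq, and_true]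
  funext a' i' j'
  split_ifs <;> rfl

/-! ### Derived commands -/

/-- The scalar variable `a`. -/
abbrev V (a : ℕ) : NExp := .get a (.lit 0) (.lit 0)

/-- Assignment to the scalar variable `a`. -/
abbrev set (a : ℕ) (e : NExp) : Cmd := .setNat a (.lit 0) (.lit 0) e

/-- Counting loop with counter `v`. -/
def forLoop (v : ℕ) (k : NExp) (c : Cmd) : Cmd :=
  .seq (set v (.lit 0)) (.loop k (.seq c (set v (.add (V v) (.lit 1)))))

/-- Multiplication by repeated addition. -/
def mulTo (v : ℕ) (x y : NExp) : Cmd :=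
  .seq (set v (.lit 0)) (.loop x (set v (.add (V v) y)))

/-- Rule for counting loops; `Inv t m` describes the memory at the beginning of round `t`. -/
theorem sp_for {L K v : ℕ} {k : NExp} {c : Cmd} {m : Mem} {Q : Mem → Prop} (Inv : ℕ → Mem → Prop)
    (hv : v ∉ c.nw)
    (hk : k.eval (m.setNat v 0 0 0) = K) (hK : K ≤ L) (h0 : Inv 0 (m.setNat v 0 0 0))
    (hs : ∀ t < K, ∀ m', m'.nat v 0 0 = t → Agree (v :: c.nw) c.rw m m' → Inv t m' →
      Sp L c m' (fun m'' => Inv (t + 1) (m''.setNat v 0 0 (t + 1))))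
    (hQ : ∀ m', m'.nat v 0 0 = K → Agree (v :: c.nw) c.rw m m' → Inv K m' → Q m') :
    Sp L (forLoop v k c) m Q := by
  rw [forLoop, sp_seq, sp_setNat]
  simp only [NExp.eval]
  have hset : ∀ (m : Mem) (x : ℕ), Agree (v :: c.nw) c.rw m (m.setNat v 0 0 x) := by
    intro m x
    refine ⟨fun a ha => nat_setNat_ne fun h => ha (by simp [h]), fun a _ => rfl⟩
  apply sp_loop (K := K) (Inv := fun t m' => m'.nat v 0 0 = t ∧ Agree (v :: c.nw) c.rw m m' ∧ Inv t m')
    hk hK
  · exact ⟨by simp [nat_setNat], hset m 0, h0⟩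
  · rintro t ht m' ⟨h1, h2, h3⟩
    rw [sp_seq]
    apply Sp.frame
    refine (hs t ht m' h1 h2 h3).mono fun m'' h4 h5 => ?_
    rw [sp_setNat]
    have h6 : m''.nat v 0 0 = t := by
      rw [h5.1 v hv, h1]
    simp only [NExp.eval, h6]
    refine ⟨by simp [nat_setNat], ?_, h4⟩
    refine h2.trans ((h5.mono ?_ ?_).trans (hset _ _))
    · intro x hx
      exact List.mem_cons_of_mem _ hx
    · intro x hx
      exact hx
  · rintro m' ⟨h1, h2, h3⟩
    exact hQ m' h1 h2 h3

theorem sp_mulTo {L X Y v : ℕ} {x y : NExp} {m : Mem} {Q : Mem → Prop}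
    (hx : x.eval (m.setNat v 0 0 0) = X) (hX : X ≤ L)
    (hy : ∀ u, y.eval (m.setNat v 0 0 u) = Y) (hQ : Q (m.setNat v 0 0 (X * Y))) :
    Sp L (mulTo v x y) m Q := by
  rw [mulTo, sp_seq, sp_setNat]
  simp only [NExp.eval]
  apply sp_loop (K := X) (Inv := fun t m' => m' = m.setNat v 0 0 (t * Y)) hx hX
  · simp
  · rintro t ht m' rfl
    rw [sp_setNat]
    simp only [NExp.eval, hy, setNat_setNat_self, nat_setNat]
    simp [add_mul]
  · rintro m' rfl
    exact hQ

end Pool.Agent.Helper48_FPT
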