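import Pool.Agent.Helper48_FPT.Solve

/-!
# Verification of the matching phase
-/

set_option autoImplicit false
set_option linter.unusedSimpArgs false

namespace Pool.Agent.Helper48_FPT

open Finset

/-- Type of the slot `q`. -/
def slotT (n h : ℕ) (x : ℕ → ℕ) (q : ℕ) : ℕ := TT h (q % 3) (x (3 * n + q / 3))

/-- The matching invariant when `u` slots are filled. -/
structure MInv (n h : ℕ) (x : ℕ → ℕ) (u : ℕ) (m : Mem) : Prop where
  out : ∀ q < u, m.nat 1 (q / 3) (q % 3) < 3 * n ∧
    TT h 0 (x (m.nat 1 (q / 3) (q % 3))) = slotT n h x q ∧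
    m.nat 33 (m.nat 1 (q / 3) (q % 3)) 0 = h * h
  inj : ∀ q < u, ∀ q' < u, m.nat 1 (q / 3) (q % 3) = m.nat 1 (q' / 3) (q' % 3) → q = q'
  typ : ∀ p < 3 * n, m.nat 33 p 0 = TT h 0 (x p) ∨ m.nat 33 p 0 = h * h
  cou : ∀ τ < h * h, ((range (3 * n)).filter fun p => m.nat 33 p 0 = τ).card =
    ((Ico u (3 * n)).filter fun q => slotT n h x q = τ).card

theorem MInv.congr {n h u : ℕ} {x : ℕ → ℕ} {m m' : Mem} (H : MInv n h x u m)
    (h1 : m'.nat 1 = m.nat 1) (h33 : m'.nat 33 = m.nat 33) : MInv n h x u m' := by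
  obtain ⟨a, b, c, d⟩ := H
  constructor
  · rw [h1, h33]; exact a
  · rw [h1]; exact b
  · rw [h33]; exact c
  · rw [h33]; exact d

theorem sp_cSlot {L n h i k : ℕ} {x : ℕ → ℕ} {m : Mem} (hh : 0 < h) (hL : 3 * n ≤ L)
    (hi : i < n) (hk : k < 3)
    (h2 : m.nat 2 0 0 = 3 * n) (h5 : m.nat 5 0 0 = h * h)
    (hT : ∀ k < 3, ∀ o < h * (h * h), m.nat 21 k o = TT h k o)
    (h30 : ∀ j < 3 * n + n, m.nat 30 j 0 = x j) (hx : ∀ j < 3 * n + n, x j < h * (h * h))
    (h53 : m.nat 53 0 0 = i) (h54 : m.nat 54 0 0 = k) (H : MInv n h x (3 * i + k) m) :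
    Sp L cSlot m (fun m' => MInv n h x (3 * i + k + 1) m') := by
  have hdiv : (3 * i + k) / 3 = i := by omega
  have hmod : (3 * i + k) % 3 = k := by omega
  have hu : 3 * i + k < 3 * n := by omega
  set u := 3 * i + k with hudef
  have hτ : slotT n h x u = TT h k (x (3 * n + i)) := by rw [slotT, hdiv, hmod]
  have hτr : slotT n h x u < h * h := by
    rw [hτ]
    exact TT_lt hh (hx _ (by omega))
  set τ := slotT n h x u with hτdef
  simp only [cSlot, sp_seqs_cons, sp_seqs_nil, sp_setNat]
  simp only [NExp.eval, eval_add', h2, h53, h54, h30 (3 * n + i) (by omega),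
    hT k hk _ (hx (3 * n + i) (by omega))]
  rw [← hτ]
  -- the search
  apply sp_for (K := 3 * n) (Inv := fun t m' =>
    ((∃ p < t, m.nat 33 p 0 = τ) → m'.nat 1 i k < 3 * n ∧ m.nat 33 (m'.nat 1 i k) 0 = τ) ∧
    (∀ i' k', ¬ (i' = i ∧ k' = k) → m'.nat 1 i' k' = m.nat 1 i' k'))
  · decide
  · simp [h2]
  · exact hL
  · refine ⟨?_, fun i' k' _ => by simp⟩
    rintro ⟨p, hp, -⟩
    omega
  · rintro t ht m1 h52 hA1 ⟨h6, h7⟩
    have b33 : m1.nat 33 = m.nat 33 := by rw [hA1.1 33 (by decide)]; simp
    have b51 : m1.nat 51 0 0 = τ := by rw [hA1.1 51 (by decide)]; simp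
    have b53 : m1.nat 53 0 0 = i := by rw [hA1.1 53 (by decide)]; simp [h53]
    have b54 : m1.nat 54 0 0 = k := by rw [hA1.1 54 (by decide)]; simp [h54]
    simp only [sp_ifNat, sp_skip, sp_setNat]
    simp only [NExp.eval, b33, b51, b53, b54, h52, ne_eq, OfNat.ofNat_eq_ofNat, Nat.reduceEqDiff,
      OfNat.one_ne_ofNat, not_false_eq_true, nat_setNat_ne, nat_setNat, and_self, if_true]
    have hno : m.nat 33 t 0 ≠ τ → ((∃ p < t + 1, m.nat 33 p 0 = τ) →
        m1.nat 1 i k < 3 * n ∧ m.nat 33 (m1.nat 1 i k) 0 = τ) := by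
      rintro hne ⟨p, hp, hp'⟩
      apply h6
      refine ⟨p, ?_, hp'⟩
      rcases Nat.lt_succ_iff_lt_or_eq.1 hp with h8 | rfl
      · exact h8
      · exact absurd hp' hne
    refine ⟨fun h8 => ⟨fun h9 => ⟨fun _ => ?_, fun i' k' hne => ?_⟩, fun h9 => ⟨?_, h7⟩⟩,
      fun h8 => ⟨?_, h7⟩⟩
    · exact ⟨ht, le_antisymm h8 h9⟩
    · rw [if_neg hne]
      exact h7 i' k' hne
    · exact hno (by omega)
    · exact hno (by omega)
  · rintro m1 - hA1 ⟨h6, h7⟩
    have b33 : m1.nat 33 = m.nat 33 := by rw [hA1.1 33 (by decide)]; simp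
    have b53 : m1.nat 53 0 0 = i := by rw [hA1.1 53 (by decide)]; simp [h53]
    have b54 : m1.nat 54 0 0 = k := by rw [hA1.1 54 (by decide)]; simp [h54]
    have b5 : m1.nat 5 0 0 = h * h := by rw [hA1.1 5 (by decide)]; simp [h5]
    simp only [NExp.eval, b53, b54, b5]
    -- there is a point of the right type
    have hex : ∃ p < 3 * n, m.nat 33 p 0 = τ := by
      have h8 := H.cou τ hτr
      have h9 : 0 < ((Ico u (3 * n)).filter fun q => slotT n h x q = τ).card := by
        apply Finset.card_pos.2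
        exact ⟨u, by simp [hu, ← hτdef]⟩
      rw [← h8] at h9
      obtain ⟨p, hp⟩ := Finset.card_pos.1 h9
      simp only [Finset.mem_filter, Finset.mem_range] at hp
      exact ⟨p, hp.1, hp.2⟩
    obtain ⟨h8, h9⟩ := h6 hex
    set p := m1.nat 1 i k with hp
    have hpT : TT h 0 (x p) = τ := by
      rcases H.typ p h8 with h10 | h10
      · rw [← h10, h9]
      · rw [h9] at h10
        omega
    have hcell : ∀ q < u, ¬ (q / 3 = i ∧ q % 3 = k) := by
      rintro q hq ⟨h10, h11⟩
      omega
    constructor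
    · intro q hq
      rcases Nat.lt_succ_iff_lt_or_eq.1 hq with h10 | h10
      · have h11 := H.out q h10
        simp only [ne_eq, OfNat.ofNat_eq_ofNat, Nat.reduceEqDiff, OfNat.one_ne_ofNat,
          not_false_eq_true, nat_setNat_ne, nat_setNat, h7 _ _ (hcell q h10), b33, and_true]
        refine ⟨h11.1, h11.2.1, ?_⟩
        split_ifs
        · rfl
        · exact h11.2.2
      · rw [h10]
        simp only [ne_eq, OfNat.ofNat_eq_ofNat, Nat.reduceEqDiff, OfNat.one_ne_ofNat,
          not_false_eq_true, nat_setNat_ne, nat_setNat, hdiv, hmod, and_true, ← hp, if_true]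
        exact ⟨h8, hpT⟩
    · intro q hq q' hq' heq
      simp only [ne_eq, OfNat.ofNat_eq_ofNat, Nat.reduceEqDiff, OfNat.one_ne_ofNat,
          not_false_eq_true, nat_setNat_ne] at heq
      have hclash : ∀ q < u, m1.nat 1 (q / 3) (q % 3) ≠ p := by
        intro q hq h12
        rw [h7 _ _ (hcell q hq)] at h12
        have h13 := (H.out q hq).2.2
        rw [h12, h9] at h13
        omega
      rcases Nat.lt_succ_iff_lt_or_eq.1 hq with h10 | h10
      · rcases Nat.lt_succ_iff_lt_or_eq.1 hq' with h11 | h11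
        · rw [h7 _ _ (hcell q h10), h7 _ _ (hcell q' h11)] at heq
          exact H.inj q h10 q' h11 heq
        · rw [h11, hdiv, hmod, ← hp] at heq
          exact absurd heq (hclash q h10)
      · rcases Nat.lt_succ_iff_lt_or_eq.1 hq' with h11 | h11
        · rw [h10, hdiv, hmod, ← hp] at heq
          exact absurd heq.symm (hclash q' h11)
        · omega
    · intro p' hp'
      simp only [nat_setNat, b33, and_true]
      split_ifs with h10
      · exact Or.inr rfl
      · exact H.typ p' hp'
    · intro σ hσ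
      have h10 := H.cou σ hσ
      have hfil : ((range (3 * n)).filter fun p' => (m1.setNat 33 p 0 (h * h)).nat 33 p' 0 = σ) =
          ((range (3 * n)).filter fun p' => m.nat 33 p' 0 = σ).erase p := by
        ext p'
        simp only [nat_setNat, b33, and_true, Finset.mem_filter, Finset.mem_range,
          Finset.mem_erase]
        split_ifs with h11
        · subst h11
          constructor
          · rintro ⟨-, h12⟩
            omega
          · rintro ⟨h12, -⟩
            exact absurd rfl h12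
        · constructor
          · rintro ⟨h12, h13⟩
            exact ⟨h11, h12, h13⟩
          · rintro ⟨-, h12, h13⟩
            exact ⟨h12, h13⟩
      have hico : ((Ico (u + 1) (3 * n)).filter fun q => slotT n h x q = σ) =
          ((Ico u (3 * n)).filter fun q => slotT n h x q = σ).erase u := by
        ext q
        simp only [Finset.mem_filter, Finset.mem_Ico, Finset.mem_erase]
        constructor
        · rintro ⟨⟨h11, h12⟩, h13⟩
          exact ⟨by omega, ⟨by omega, h12⟩, h13⟩
        · rintro ⟨h11, ⟨h12, h13⟩, h14⟩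
          exact ⟨⟨by omega, h13⟩, h14⟩
      rw [hfil, hico]
      by_cases h11 : σ = τ
      · rw [Finset.card_erase_of_mem, Finset.card_erase_of_mem, h10]
        · simp [hu, ← hτdef, h11]
        · simp [h8, h9, h11]
      · rw [Finset.erase_eq_of_notMem, Finset.erase_eq_of_notMem, h10]
        · simp only [Finset.mem_filter, not_and]
          intro _ h12
          exact h11 h12.symm
        · simp only [Finset.mem_filter, not_and]
          intro _ h12
          rw [h9] at h12
          exact h11 h12.symm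

theorem sum_range_three (F : ℕ → ℤ) (n : ℕ) :
    ∑ q ∈ range (3 * n), F q = ∑ i ∈ range n, (F (3 * i) + F (3 * i + 1) + F (3 * i + 2)) := by
  induction n with
  | zero => simp
  | succ n ih =>
    rw [Finset.sum_range_succ _ n, ← ih, show 3 * (n + 1) = 3 * n + 1 + 1 + 1 by ring,
      Finset.sum_range_succ, Finset.sum_range_succ, Finset.sum_range_succ]
    ring

theorem count_eq {n h : ℕ} {x : ℕ → ℕ}
    (hx : FeasN (3 * n + n) (h * (h * h)) (h * h) (vec n h) x) {τ : ℕ} (hτ : τ < h * h) :
    ((range (3 * n)).filter fun p => TT h 0 (x p) = τ).card =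
    ((range (3 * n)).filter fun q => slotT n h x q = τ).card := by
  have h1 := hx.2 τ hτ
  rw [Finset.sum_range_add] at h1
  have h2 : ∑ i ∈ range (3 * n), vec n h i (x i) τ =
      ∑ i ∈ range (3 * n), (if TT h 0 (x i) = τ then (1 : ℤ) else 0) := by
    apply Finset.sum_congr rfl
    intro i hi
    rw [Finset.mem_range] at hi
    simp only [vec, hi, if_true]
  have h3 : ∑ i ∈ range n, vec n h (3 * n + i) (x (3 * n + i)) τ =
      - ∑ q ∈ range (3 * n), (if slotT n h x q = τ then (1 : ℤ) else 0) := by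
    rw [sum_range_three, ← Finset.sum_neg_distrib]
    apply Finset.sum_congr rfl
    intro i _
    have e0 : ¬ 3 * n + i < 3 * n := by omega
    have e1 : (3 * i) % 3 = 0 := by omega
    have e2 : (3 * i) / 3 = i := by omega
    have e3 : (3 * i + 1) % 3 = 1 := by omega
    have e4 : (3 * i + 1) / 3 = i := by omega
    have e5 : (3 * i + 2) % 3 = 2 := by omega
    have e6 : (3 * i + 2) / 3 = i := by omega
    simp only [vec, e0, if_false, slotT, e1, e2, e3, e4, e5, e6]
  rw [h2, h3] at h1
  have h4 : (((range (3 * n)).filter fun p => TT h 0 (x p) = τ).card : ℤ) =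
      ((range (3 * n)).filter fun q => slotT n h x q = τ).card := by
    rw [Finset.card_filter, Finset.card_filter]
    push_cast
    linarith
  exact_mod_cast h4

theorem sp_cMatch {L n h : ℕ} {x : ℕ → ℕ} {m : Mem} (hh : 0 < h) (hLn : 3 * n + n ≤ L)
    (hL3 : 3 ≤ L) (h0 : m.nat 0 0 0 = n)
    (h2 : m.nat 2 0 0 = 3 * n) (h5 : m.nat 5 0 0 = h * h)
    (hT : ∀ k < 3, ∀ o < h * (h * h), m.nat 21 k o = TT h k o)
    (h30 : ∀ j < 3 * n + n, m.nat 30 j 0 = x j)
    (hx : FeasN (3 * n + n) (h * (h * h)) (h * h) (vec n h) x) :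
    Sp L cMatch m (fun m' => MInv n h x (3 * n) m') := by
  rw [cMatch, sp_seq]
  apply Sp.frame
  -- types of the points
  have htypes : Sp L cTypes m (fun m' => ∀ p < 3 * n, m'.nat 33 p 0 = TT h 0 (x p)) := by
    rw [cTypes]
    apply sp_for (K := 3 * n) (Inv := fun t m' => ∀ p < t, m'.nat 33 p 0 = TT h 0 (x p))
    · decide
    · simp [h2]
    · omega
    · intro p hp; omega
    · rintro t ht m1 h52 hA1 h1
      have b30 : m1.nat 30 = m.nat 30 := hA1.1 30 (by decide)
      have b21 : m1.nat 21 = m.nat 21 := hA1.1 21 (by decide)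
      rw [sp_setNat]
      simp only [NExp.eval, eval_ofNat', h52, b30, b21, h30 t (by omega),
        hT 0 (by norm_num) _ (hx.1 t (by omega))]
      intro p hp
      by_cases h3 : p = t
      · simp [h3]
      · have := h1 p (by omega)
        simp [h3, this]
    · rintro m1 - - h1
      exact h1
  refine htypes.mono ?_
  intro m1 hty hA1
  have b0 : m1.nat 0 0 0 = n := by rw [hA1.1 0 (by decide), h0]
  have b2 : m1.nat 2 0 0 = 3 * n := by rw [hA1.1 2 (by decide), h2]
  have b5 : m1.nat 5 0 0 = h * h := by rw [hA1.1 5 (by decide), h5]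
  have b21 : m1.nat 21 = m.nat 21 := hA1.1 21 (by decide)
  have b30 : m1.nat 30 = m.nat 30 := hA1.1 30 (by decide)
  clear hA1 htypes
  have hI0 : MInv n h x 0 m1 := by
    constructor
    · intro q hq; omega
    · intro q hq; omega
    · intro p hp
      exact Or.inl (hty p hp)
    · intro τ hτ
      rw [← Finset.range_eq_Ico, ← count_eq hx hτ]
      congr 1
      apply Finset.filter_congr
      intro p hp
      rw [hty p (Finset.mem_range.1 hp)]
  apply sp_for (K := n) (Inv := fun i m' => MInv n h x (3 * i) m')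
  · decide
  · simp [b0]
  · omega
  · exact hI0.congr (by simp) (by simp)
  · rintro i hi m2 h53 hA2 hI2
    have c2 : m2.nat 2 0 0 = 3 * n := by rw [hA2.1 2 (by decide), b2]
    have c5 : m2.nat 5 0 0 = h * h := by rw [hA2.1 5 (by decide), b5]
    have c21 : m2.nat 21 = m.nat 21 := (hA2.1 21 (by decide)).trans b21
    have c30 : m2.nat 30 = m.nat 30 := (hA2.1 30 (by decide)).trans b30
    clear hA2
    apply sp_for (K := 3) (Inv := fun k m' => MInv n h x (3 * i + k) m')
    · decide
    · simp
    · exact hL3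
    · exact hI2.congr (by simp) (by simp)
    · rintro k hk m3 h54 hA3 hI3
      have d2 : m3.nat 2 0 0 = 3 * n := by rw [hA3.1 2 (by decide), c2]
      have d5 : m3.nat 5 0 0 = h * h := by rw [hA3.1 5 (by decide), c5]
      have d21 : m3.nat 21 = m.nat 21 := (hA3.1 21 (by decide)).trans c21
      have d30 : m3.nat 30 = m.nat 30 := (hA3.1 30 (by decide)).trans c30
      have d53 : m3.nat 53 0 0 = i := by rw [hA3.1 53 (by decide), h53]
      refine (sp_cSlot (x := x) hh (by omega) hi hk d2 d5 (by rw [d21]; exact hT)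
        (by rw [d30]; exact h30) hx.1 d53 h54 hI3).mono ?_
      intro m4 hI4
      exact hI4.congr (by simp) (by simp)
    · rintro m3 - - hI3
      exact hI3.congr (by simp) (by simp)
  · rintro m2 - - hI2
    exact hI2

end Pool.Agent.Helper48_FPT
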