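import Mathlib

/-!
# A real-number random access machine with unit-cost operations

The memory holds arrays of natural numbers and arrays of real numbers.  Array cells are addressed by
two natural-number indices, which may be computed by the machine (indirect addressing).  The only
operations on natural numbers are addition, truncated subtraction and comparison; the only
operations on real numbers are addition, subtraction, multiplication and comparison.
-/

set_option autoImplicit false

namespace Pool.Agent.Helper48_FPT

/-- The memory: `nat a i j` is the cell `(i, j)` of the natural-number array `a`, and `real a i j` is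
the cell `(i, j)` of the real array `a`. -/
structure Mem where
  nat : ℕ → ℕ → ℕ → ℕ
  real : ℕ → ℕ → ℕ → ℝ

/-- Expressions with natural-number values. -/
inductive NExp where
  | lit (k : ℕ)
  | get (a : ℕ) (i j : NExp)
  | add (x y : NExp)
  | sub (x y : NExp)

/-- Value of a natural-number expression. -/
def NExp.eval (m : Mem) : NExp → ℕ
  | .lit k => k
  | .get a i j => m.nat a (i.eval m) (j.eval m)
  | .add x y => x.eval m + y.eval m
  | .sub x y => x.eval m - y.eval m

/-- Number of elementary operations needed to evaluate a natural-number expression. -/
def NExp.cost : NExp → ℕ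
  | .lit _ => 1
  | .get _ i j => i.cost + j.cost + 1
  | .add x y => x.cost + y.cost + 1
  | .sub x y => x.cost + y.cost + 1

/-- Expressions with real values. -/
inductive RExp where
  | zero
  | get (a : ℕ) (i j : NExp)
  | add (x y : RExp)
  | sub (x y : RExp)
  | mul (x y : RExp)

/-- Value of a real expression. -/
noncomputable def RExp.eval (m : Mem) : RExp → ℝ
  | .zero => 0
  | .get a i j => m.real a (i.eval m) (j.eval m)
  | .add x y => x.eval m + y.eval m
  | .sub x y => x.eval m - y.eval m
  | .mul x y => x.eval m * y.eval m

/-- Number of elementary operations needed to evaluate a real expression. -/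
def RExp.cost : RExp → ℕ
  | .zero => 1
  | .get _ i j => i.cost + j.cost + 1
  | .add x y => x.cost + y.cost + 1
  | .sub x y => x.cost + y.cost + 1
  | .mul x y => x.cost + y.cost + 1

/-- Overwriting one cell of a natural-number array. -/
def Mem.setNat (m : Mem) (a i j v : ℕ) : Mem where
  nat a' i' j' := if a' = a ∧ i' = i ∧ j' = j then v else m.nat a' i' j'
  real := m.real

/-- Overwriting one cell of a real array. -/
noncomputable def Mem.setReal (m : Mem) (a i j : ℕ) (v : ℝ) : Mem where
  nat := m.nat
  real a' i' j' := if a' = a ∧ i' = i ∧ j' = j then v else m.real a' i' j'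

/-- Programs. -/
inductive Cmd where
  /-- do nothing -/
  | skip
  /-- store the value of `e` in the cell `(i, j)` of the natural-number array `a` -/
  | setNat (a : ℕ) (i j e : NExp)
  /-- store the value of `e` in the cell `(i, j)` of the real array `a` -/
  | setReal (a : ℕ) (i j : NExp) (e : RExp)
  /-- run `c`, then `d` -/
  | seq (c d : Cmd)
  /-- if `x ≤ y` then run `c`, else run `d` -/
  | ifNat (x y : NExp) (c d : Cmd)
  /-- if `x ≤ y` then run `c`, else run `d` -/
  | ifReal (x y : RExp) (c d : Cmd)
  /-- evaluate `k` once, then run `c` that many times -/
  | loop (k : NExp) (c : Cmd)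

/-- The memory after running a program. -/
noncomputable def Cmd.run : Cmd → Mem → Mem
  | .skip, m => m
  | .setNat a i j e, m => m.setNat a (i.eval m) (j.eval m) (e.eval m)
  | .setReal a i j e, m => m.setReal a (i.eval m) (j.eval m) (e.eval m)
  | .seq c d, m => d.run (c.run m)
  | .ifNat x y c d, m => if x.eval m ≤ y.eval m then c.run m else d.run m
  | .ifReal x y c d, m => if x.eval m ≤ y.eval m then c.run m else d.run m
  | .loop k c, m => c.run^[k.eval m] m

/-- The running time of a program: the number of elementary operations carried out. -/
noncomputable def Cmd.time : Cmd → Mem → ℕ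
  | .skip, _ => 1
  | .setNat _ i j e, _ => i.cost + j.cost + e.cost + 1
  | .setReal _ i j e, _ => i.cost + j.cost + e.cost + 1
  | .seq c d, m => c.time m + d.time (c.run m)
  | .ifNat x y c d, m => x.cost + y.cost + 1 + if x.eval m ≤ y.eval m then c.time m else d.time m
  | .ifReal x y c d, m => x.cost + y.cost + 1 + if x.eval m ≤ y.eval m then c.time m else d.time m
  | .loop k c, m => k.cost + 1 + ∑ t ∈ Finset.range (k.eval m), (1 + c.time (c.run^[t] m))

end Pool.Agent.Helper48_FPT
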