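import Pool.Agent.Helper48_FPT.Const

/-!
# Verification of the tables for the options, the kinds and the functionals
-/

set_option autoImplicit false
set_option linter.unusedSimpArgs false

namespace Pool.Agent.Helper48_FPT

open Finset

/-- Correct tables at the option `o`. -/
structure OptTab (h : ℕ) (m : Mem) (o : ℕ) : Prop where
  t0 : m.nat 21 0 o = TT h 0 o
  t1 : m.nat 21 1 o = TT h 1 o
  t2 : m.nat 21 2 o = TT h 2 o
  tx : m.nat 24 o 0 = ox h o
  tz : m.nat 25 o 0 = oz h o
  c0 : m.nat 22 0 o = code h (Mh h) 0 o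
  c1 : m.nat 22 1 o = code h (Mh h) 1 o

theorem OptTab.congr {h o : ℕ} {m m' : Mem} (H : OptTab h m o) {W W' : List ℕ}
    (hA : Agree W W' m m') (hW : ∀ a ∈ [21, 22, 24, 25], a ∉ W) : OptTab h m' o := by
  have e : ∀ a ∈ [21, 22, 24, 25], m'.nat a = m.nat a := fun a ha => hA.1 a (hW a ha)
  constructor
  · rw [e 21 (by simp), H.t0]
  · rw [e 21 (by simp), H.t1]
  · rw [e 21 (by simp), H.t2]
  · rw [e 24 (by simp), H.tx]
  · rw [e 25 (by simp), H.tz]
  · rw [e 22 (by simp), H.c0]
  · rw [e 22 (by simp), H.c1]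

theorem sp_cOption {L h x y z : ℕ} {m : Mem} (hL : h ≤ L) (hx : x < h) (hy : y < h) (hz : z < h)
    (h4 : m.nat 4 0 0 = h) (h11 : m.nat 11 0 0 = Eh h)
    (h20 : ∀ τ ≤ h * h, m.nat 20 τ 0 = Mh h ^ τ)
    (h47 : m.nat 47 0 0 = x) (h48 : m.nat 48 0 0 = y) (h49 : m.nat 49 0 0 = z)
    (h44 : m.nat 44 0 0 = idx h x y z) (hT : ∀ o < idx h x y z, OptTab h m o) :
    Sp L cOption m (fun m' => m'.nat 44 0 0 = idx h x y z + 1 ∧
      ∀ o < idx h x y z + 1, OptTab h m' o) := by
  have hh : 0 < h := by omega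
  simp only [cOption, sp_seqs_cons, sp_seqs_nil, sp_setNat]
  apply sp_mulTo (X := x) (Y := h)
  · simp [h47]
  · omega
  · intro u; simp [h4]
  apply sp_mulTo (X := y) (Y := h)
  · simp [h48]
  · omega
  · intro u; simp [h4]
  apply sp_mulTo (X := z) (Y := h)
  · simp [h49]
  · omega
  · intro u; simp [h4]
  have e0 : TT h 0 (idx h x y z) = x * h + z := by
    simp [TT, ox_idx hy hz, oz_idx hz]
  have e1 : TT h 1 (idx h x y z) = y * h + x := by
    simp [TT, ox_idx hy hz, oy_idx hy hz]
  have e2 : TT h 2 (idx h x y z) = z * h + y := by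
    simp [TT, oz_idx hz, oy_idx hy hz]
  have p0 := h20 _ (pair_lt hx hz).le
  have p1 := h20 _ (pair_lt hy hx).le
  have p2 := h20 _ (pair_lt hz hy).le
  simp only [NExp.eval, eval_add', eval_sub', eval_ofNat', nat_setNat, h44, h47, h48, h49, h11, ne_eq,
    OfNat.ofNat_eq_ofNat, Nat.reduceEqDiff, not_false_eq_true, nat_setNat_ne, and_true, true_and,
    if_true, p0, p1, p2, OfNat.zero_ne_ofNat, OfNat.ofNat_ne_zero, OfNat.ofNat_ne_one,
    OfNat.one_ne_ofNat, zero_ne_one, one_ne_zero, if_false, false_and, and_false, and_self]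
  intro o ho
  rcases Nat.lt_succ_iff_lt_or_eq.1 ho with ho' | rfl
  · have H := hT o ho'
    have hne : o ≠ idx h x y z := ho'.ne
    constructor
    · simp [hne, H.t0]
    · simp [hne, H.t1]
    · simp [hne, H.t2]
    · simp [hne, H.tx]
    · simp [hne, H.tz]
    · simp [hne, H.c0]
    · simp [hne, H.c1]
  · constructor
    · simp [e0]
    · simp [e1]
    · simp [e2]
    · simp [ox_idx hy hz]
    · simp [oz_idx hz]
    · simp [code, e0]
    · simp [code, e0, e1, e2, Eh]

theorem sp_options {L h : ℕ} {m : Mem} (hL : h ≤ L) (h4 : m.nat 4 0 0 = h)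
    (h11 : m.nat 11 0 0 = Eh h) (h20 : ∀ τ ≤ h * h, m.nat 20 τ 0 = Mh h ^ τ) :
    Sp L cOptions m (fun m' => ∀ o < h * (h * h), OptTab h m' o) := by
  rw [cOptions, sp_seq, sp_setNat]
  simp only [NExp.eval, eval_ofNat']
  generalize hm0 : m.setNat 44 0 0 0 = m0
  have a4 : m0.nat 4 0 0 = h := by subst hm0; simp [h4]
  have a11 : m0.nat 11 0 0 = Eh h := by subst hm0; simp [h11]
  have a20 : ∀ τ ≤ h * h, m0.nat 20 τ 0 = Mh h ^ τ := by subst hm0; simpa using h20
  have a44 : m0.nat 44 0 0 = 0 := by subst hm0; simp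
  clear hm0 h4 h11 h20 m
  -- the outer loop
  apply sp_for (K := h) (Inv := fun x m' => m'.nat 44 0 0 = idx h x 0 0 ∧
    ∀ o < idx h x 0 0, OptTab h m' o)
  · decide
  · simp [a4]
  · exact hL
  · refine ⟨by simp [a44, idx], fun o ho => ?_⟩
    simp [idx] at ho
  · rintro x hx m1 h47 hA1 ⟨b44, bT⟩
    have b4 : m1.nat 4 0 0 = h := by rw [hA1.1 4 (by decide), a4]
    have b11 : m1.nat 11 0 0 = Eh h := by rw [hA1.1 11 (by decide), a11]
    have b20 : ∀ τ ≤ h * h, m1.nat 20 τ 0 = Mh h ^ τ := by rw [hA1.1 20 (by decide)]; exact a20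
    clear hA1
    apply sp_for (K := h) (Inv := fun y m' => m'.nat 44 0 0 = idx h x y 0 ∧
      ∀ o < idx h x y 0, OptTab h m' o)
    · decide
    · simp [b4]
    · exact hL
    · refine ⟨by simp [b44], fun o ho => (bT o ho).congr (W := [48]) (W' := []) ?_ (by decide)⟩
      refine ⟨fun a ha => ?_, fun a _ => rfl⟩
      simp only [List.mem_cons, not_or] at ha
      rw [nat_setNat_ne ha.1]
    · rintro y hy m2 h48 hA2 ⟨c44, cT⟩
      have c4 : m2.nat 4 0 0 = h := by rw [hA2.1 4 (by decide), b4]
      have c11 : m2.nat 11 0 0 = Eh h := by rw [hA2.1 11 (by decide), b11]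
      have c20 : ∀ τ ≤ h * h, m2.nat 20 τ 0 = Mh h ^ τ := by rw [hA2.1 20 (by decide)]; exact b20
      have c47 : m2.nat 47 0 0 = x := by rw [hA2.1 47 (by decide), h47]
      clear hA2
      apply sp_for (K := h) (Inv := fun z m' => m'.nat 44 0 0 = idx h x y z ∧
        ∀ o < idx h x y z, OptTab h m' o)
      · decide
      · simp [c4]
      · exact hL
      · refine ⟨by simp [c44], fun o ho => (cT o ho).congr (W := [49]) (W' := []) ?_ (by decide)⟩
        refine ⟨fun a ha => ?_, fun a _ => rfl⟩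
        simp only [List.mem_cons, not_or] at ha
        rw [nat_setNat_ne ha.1]
      · rintro z hz m3 h49 hA3 ⟨d44, dT⟩
        have d4 : m3.nat 4 0 0 = h := by rw [hA3.1 4 (by decide), c4]
        have d11 : m3.nat 11 0 0 = Eh h := by rw [hA3.1 11 (by decide), c11]
        have d20 : ∀ τ ≤ h * h, m3.nat 20 τ 0 = Mh h ^ τ := by
          rw [hA3.1 20 (by decide)]; exact c20
        have d47 : m3.nat 47 0 0 = x := by rw [hA3.1 47 (by decide), c47]
        have d48 : m3.nat 48 0 0 = y := by rw [hA3.1 48 (by decide), h48]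
        refine (sp_cOption hL hx hy hz d4 d11 d20 d47 d48 h49 d44 dT).mono fun m4 h5 => ?_
        refine ⟨?_, fun o ho => (h5.2 o ?_).congr (W := [49]) (W' := []) ?_ (by decide)⟩
        · simp only [ne_eq, OfNat.ofNat_eq_ofNat, Nat.reduceEqDiff, not_false_eq_true,
            nat_setNat_ne, h5.1]
          simp only [idx]
          ring
        · simp only [idx] at ho ⊢
          omega
        · refine ⟨fun a ha => ?_, fun a _ => rfl⟩
          simp only [List.mem_cons, not_or] at ha
          rw [nat_setNat_ne ha.1]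
      · rintro m3 - - ⟨d44, dT⟩
        have e1 : idx h x (y + 1) 0 = idx h x y h := by simp only [idx]; ring
        rw [e1]
        refine ⟨by simp [d44], fun o ho => (dT o ho).congr (W := [48]) (W' := []) ?_ (by decide)⟩
        refine ⟨fun a ha => ?_, fun a _ => rfl⟩
        simp only [List.mem_cons, not_or] at ha
        rw [nat_setNat_ne ha.1]
    · rintro m2 - - ⟨c44, cT⟩
      have e1 : idx h (x + 1) 0 0 = idx h x h 0 := by simp only [idx]; ring
      rw [e1]
      refine ⟨by simp [c44], fun o ho => (cT o ho).congr (W := [47]) (W' := []) ?_ (by decide)⟩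
      refine ⟨fun a ha => ?_, fun a _ => rfl⟩
      simp only [List.mem_cons, not_or] at ha
      rw [nat_setNat_ne ha.1]
  · rintro m1 - - ⟨-, bT⟩
    intro o ho
    apply bT o
    have e1 : idx h h 0 0 = h * (h * h) := by simp only [idx]; ring
    rw [e1]
    exact ho

theorem sp_kinds {L n : ℕ} {m : Mem} (hL : n ≤ L) (h0 : m.nat 0 0 0 = n)
    (h2 : m.nat 2 0 0 = 3 * n) (h23 : ∀ j, m.nat 23 j 0 = 0) :
    Sp L cKinds m (fun m' => ∀ j < 3 * n + n, m'.nat 23 j 0 = kind n j) := by
  rw [cKinds]
  apply sp_for (K := n) (Inv := fun t m' => ∀ j < 3 * n + t, m'.nat 23 j 0 = kind n j)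
  · decide
  · simp [h0]
  · exact hL
  · intro j hj
    have : j < 3 * n := by omega
    simp [h23, kind, this]
  · rintro t ht m' h53 hA h1
    have h2' : m'.nat 2 0 0 = 3 * n := by rw [hA.1 2 (by decide), h2]
    rw [sp_setNat]
    simp only [NExp.eval, eval_add', eval_ofNat', h2', h53]
    intro j hj
    by_cases h3 : j = 3 * n + t
    · have h4 : ¬ j < 3 * n := by omega
      simp [h3, kind]
    · simp only [ne_eq, OfNat.ofNat_eq_ofNat, Nat.reduceEqDiff, not_false_eq_true,
            nat_setNat_ne, nat_setNat, h3, false_and, if_false]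
      exact h1 j (by omega)
  · rintro m' - - h1
    exact h1

/-- Values of the functionals. -/
noncomputable def Phi (f s : ℕ) (A P : ℕ → ℕ → ℝ) (g p : ℕ) : ℝ :=
  if g < f then ∑ c ∈ range s, A g c * P p c else 0 - ∑ c ∈ range s, A (g - f) c * P p c

theorem sp_phi {L n f s : ℕ} {m : Mem} (hL : Bnd L n f s)
    (hf : m.nat 0 1 0 = f) (hs : m.nat 0 2 0 = s) (h2 : m.nat 2 0 0 = 3 * n) :
    Sp L cPhi m (fun m' => ∀ g < f + f, ∀ p < 3 * n,
      m'.real 2 g p = Phi f s (m.real 0) (m.real 1) g p) := by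
  rw [cPhi]
  apply sp_for (K := f) (Inv := fun t m' => ∀ g < t, ∀ p < 3 * n,
      m'.real 2 g p = Phi f s (m.real 0) (m.real 1) g p ∧
      m'.real 2 (f + g) p = Phi f s (m.real 0) (m.real 1) (f + g) p)
  · decide
  · simp [hf]
  · have := hL.bh; omega
  · intro g hg; omega
  · rintro g hg m1 h55 hA1 h1
    have a0 : m1.nat 0 = m.nat 0 := hA1.1 0 (by decide)
    have a2 : m1.nat 2 = m.nat 2 := hA1.1 2 (by decide)
    have r0 : m1.real 0 = m.real 0 := hA1.2 0 (by decide)
    have r1 : m1.real 1 = m.real 1 := hA1.2 1 (by decide)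
    clear hA1
    apply sp_for (K := 3 * n) (Inv := fun t m' => (∀ p < t,
      m'.real 2 g p = Phi f s (m.real 0) (m.real 1) g p ∧
      m'.real 2 (f + g) p = Phi f s (m.real 0) (m.real 1) (f + g) p) ∧
      ∀ g' < g, ∀ p < 3 * n, m'.real 2 g' p = Phi f s (m.real 0) (m.real 1) g' p ∧
      m'.real 2 (f + g') p = Phi f s (m.real 0) (m.real 1) (f + g') p)
    · decide
    · simp [a2, h2]
    · have := hL.b3n; omega
    · exact ⟨fun p hp => by omega, h1⟩
    · rintro p hp m2 h52 hA2 ⟨h3, h4⟩
      have b0 : m2.nat 0 = m.nat 0 := (hA2.1 0 (by decide)).trans a0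
      have s0 : m2.real 0 = m.real 0 := (hA2.2 0 (by decide)).trans r0
      have s1 : m2.real 1 = m.real 1 := (hA2.2 1 (by decide)).trans r1
      have b55 : m2.nat 55 0 0 = g := by rw [hA2.1 55 (by decide), h55]
      clear hA2
      simp only [sp_seqs_cons, sp_seqs_nil, sp_setReal]
      apply sp_for (K := s) (Inv := fun c m' => m'.real 4 0 0 =
        ∑ c ∈ range c, m.real 0 g c * m.real 1 p c)
      · decide
      · simp [b0, hs]
      · exact hL.bs
      · simp
      · rintro c hc m3 h56 hA3 h5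
        have c0 : m3.real 0 = m.real 0 := by rw [hA3.2 0 (by decide)]; simp [s0]
        have c1 : m3.real 1 = m.real 1 := by rw [hA3.2 1 (by decide)]; simp [s1]
        have c55 : m3.nat 55 0 0 = g := by rw [hA3.1 55 (by decide)]; simp [b55]
        have c52 : m3.nat 52 0 0 = p := by rw [hA3.1 52 (by decide)]; simp [h52]
        rw [sp_setReal]
        simp [c0, c1, c55, c52, h56, h5, Finset.sum_range_succ]
      · rintro m3 h56 hA3 h5
        have c0 : m3.nat 0 = m.nat 0 := by rw [hA3.1 0 (by decide)]; simp [b0]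
        have c2 : m3.real 2 = m2.real 2 := by rw [hA3.2 2 (by decide)]; simp
        have c55 : m3.nat 55 0 0 = g := by rw [hA3.1 55 (by decide)]; simp [b55]
        have c52 : m3.nat 52 0 0 = p := by rw [hA3.1 52 (by decide)]; simp [h52]
        simp only [NExp.eval, RExp.eval, c55, c52, h5, eval_add', reval_sub', nat_setReal, c0, hf]
        have hne : f + g ≠ g := by omega
        constructor
        · intro p' hp'
          by_cases hpp : p' = p
          · subst hpp
            constructor
            · have hf0 : f ≠ 0 := by omega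
              simp [Phi, hg, hf0, h5]
            · simp [Phi, h5]
          · obtain ⟨h6, h7⟩ := h3 p' (by omega)
            simp only [real_setNat, real_setReal, hpp, and_false, if_false, c2]
            exact ⟨h6, h7⟩
        · intro g' hg' p' hp'
          have e1 : g' ≠ g := hg'.ne
          have e2 : g' ≠ f + g := by omega
          have e3 : f + g' ≠ g := by omega
          have e4 : f + g' ≠ f + g := by omega
          simp only [real_setNat, real_setReal, e1, e2, e3, e4, false_and, if_false, c2]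
          exact h4 g' hg' p' hp'
    · rintro m2 - - ⟨h3, h4⟩
      intro g' hg' p hp
      rcases Nat.lt_succ_iff_lt_or_eq.1 hg' with h5 | rfl
      · exact h4 g' h5 p hp
      · exact h3 p hp
  · rintro m' - - h1 g hg p hp
    by_cases h3 : g < f
    · exact (h1 g h3 p hp).1
    · have h4 := (h1 (g - f) (by omega) p hp).2
      rw [Nat.add_sub_cancel' (not_lt.1 h3)] at h4
      exact h4

end Pool.Agent.Helper48_FPT
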