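import Pool.Agent.Helper48_FPT.Geo
import Pool.Agent.Helper48_FPT.Hoare

/-!
# The program

Natural-number arrays:
`0` sizes of the input, `1` the result, `2` number of points, `3` number of items,
`4` number `h` of functionals, `5` `h^2`, `6` `h^3`, `7` `G`, `8` `B`, `9` `BIG`, `10` `S`, `11` `E`,
`12` `M`, `13` scratch, `20` powers of `M`, `21` pair codes, `22` option codes, `23` kinds of the
items, `24` and `25` first and third functional of an option, `30` current assignment,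
`31` reachability table, `32` choice table, `33` types of the points, `40`-`56` counters.

Real arrays: `0` facet normals, `1` points, `2` values of the functionals on the points, `3` value
table, `4`-`6` scratch.
-/

set_option autoImplicit false

namespace Pool.Agent.Helper48_FPT

instance : Add NExp := ⟨NExp.add⟩
instance : Sub NExp := ⟨NExp.sub⟩
instance (k : ℕ) : OfNat NExp k := ⟨NExp.lit k⟩
instance : Add RExp := ⟨RExp.add⟩
instance : Sub RExp := ⟨RExp.sub⟩
instance : Mul RExp := ⟨RExp.mul⟩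

/-- Cell of a natural-number array. -/
abbrev N1 (a : ℕ) (i : NExp) : NExp := .get a i (.lit 0)
/-- Cell of a natural-number array. -/
abbrev N2 (a : ℕ) (i j : NExp) : NExp := .get a i j
/-- Cell of a real array. -/
abbrev R2 (a : ℕ) (i j : NExp) : RExp := .get a i j
/-- Real scalar variable. -/
abbrev RV (a : ℕ) : RExp := .get a (.lit 0) (.lit 0)
/-- Assignment to a cell of a natural-number array. -/
abbrev set1 (a : ℕ) (i e : NExp) : Cmd := .setNat a i (.lit 0) e
/-- Assignment to a cell of a natural-number array. -/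
abbrev set2 (a : ℕ) (i j e : NExp) : Cmd := .setNat a i j e
/-- Assignment to a real scalar variable. -/
abbrev setR (a : ℕ) (e : RExp) : Cmd := .setReal a (.lit 0) (.lit 0) e
/-- Assignment to a cell of a real array. -/
abbrev setR2 (a : ℕ) (i j : NExp) (e : RExp) : Cmd := .setReal a i j e

/-- Sequential composition of a list of programs. -/
def seqs : List Cmd → Cmd
  | [] => .skip
  | c :: cs => .seq c (seqs cs)

/-- Constants. -/
def cConst : Cmd := seqs [
  set 2 (V 0 + V 0 + V 0),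
  set 3 (V 2 + V 0),
  set 4 (N1 0 1 + N1 0 1),
  mulTo 5 (V 4) (V 4),
  mulTo 6 (V 4) (V 5),
  set 7 7,
  .loop (V 5) (.seq (mulTo 13 (V 7) (V 7)) (set 7 (V 13))),
  set 12 (V 7 + V 7 + V 7 + 1),
  set1 20 0 1,
  forLoop 51 (V 5) (.seq (mulTo 13 (V 12) (N1 20 (V 51))) (set1 20 (V 51 + 1) (V 13))),
  set 11 (N1 20 (V 5) + N1 20 (V 5) + N1 20 (V 5)),
  mulTo 8 (V 7 + 1) (V 11),
  set 9 (V 8 + V 8 + 1),
  mulTo 10 (V 7 + 1) (V 9)]

/-- Tables for one option. -/
def cOption : Cmd := seqs [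
  mulTo 13 (V 47) (V 4), set2 21 0 (V 44) (V 13 + V 49),
  mulTo 13 (V 48) (V 4), set2 21 1 (V 44) (V 13 + V 47),
  mulTo 13 (V 49) (V 4), set2 21 2 (V 44) (V 13 + V 48),
  set1 24 (V 44) (V 47),
  set1 25 (V 44) (V 49),
  set2 22 0 (V 44) (N1 20 (N2 21 0 (V 44))),
  set2 22 1 (V 44) (V 11 -
    (N1 20 (N2 21 0 (V 44)) + N1 20 (N2 21 1 (V 44)) + N1 20 (N2 21 2 (V 44)))),
  set 44 (V 44 + 1)]

/-- Tables for all options. -/
def cOptions : Cmd := .seq (set 44 0)
  (forLoop 47 (V 4) (forLoop 48 (V 4) (forLoop 49 (V 4) cOption)))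

/-- Kinds of the items. -/
def cKinds : Cmd := forLoop 53 (V 0) (set1 23 (V 2 + V 53) 1)

/-- Values of the functionals. -/
def cPhi : Cmd := forLoop 55 (N1 0 1) (forLoop 52 (V 2) (seqs [
  setR 4 .zero,
  forLoop 56 (N1 0 2) (setR 4 (RV 4 + R2 0 (V 55) (V 56) * R2 1 (V 52) (V 56))),
  setR2 2 (V 55) (V 52) (RV 4),
  setR2 2 (N1 0 1 + V 55) (V 52) (.zero - RV 4)]))

/-- Last row of the tables. -/
def cLast : Cmd := seqs [
  forLoop 43 (V 10) (.seq (set2 31 (V 3) (V 43) 0) (setR2 3 (V 3) (V 43) .zero)),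
  set 45 (V 8),
  .loop (V 7 + 1) (.seq (set2 31 (V 3) (V 45) 1) (set 45 (V 45 + V 9)))]

/-- The transition: item `V 42`, state `V 43`, option `V 44`, new state in `V 45`. -/
def cStep : Cmd :=
  .ifNat (V 44) (N1 30 (V 42))
    (.ifNat (N1 30 (V 42)) (V 44) (set 45 (V 43))
      (set 45 (V 43 + V 9 + N2 22 (N1 23 (V 42)) (V 44) - N2 22 (N1 23 (V 42)) (N1 30 (V 42)))))
    (set 45 (V 43 + V 9 + N2 22 (N1 23 (V 42)) (V 44) - N2 22 (N1 23 (V 42)) (N1 30 (V 42))))

/-- Recording a new best choice. -/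
def cUpd : Cmd := seqs [
  set2 31 (V 42) (V 43) 1,
  set2 32 (V 42) (V 43) (V 44),
  setR2 3 (V 42) (V 43) (RV 6)]

/-- Trying one option. -/
def cTry : Cmd := seqs [
  cStep,
  .ifNat (V 42) (V 40) (setR 5 (R2 2 (N1 24 (V 44)) (V 42) - R2 2 (N1 25 (V 44)) (V 42)))
    (setR 5 .zero),
  setR 6 (RV 5 + R2 3 (V 42 + 1) (V 45)),
  .ifNat (V 45 + 1) (V 10)
    (.ifNat 1 (N2 31 (V 42 + 1) (V 45))
      (.ifNat (N2 31 (V 42) (V 43)) 0 cUpd
        (.ifReal (R2 3 (V 42) (V 43)) (RV 6) cUpd .skip)) .skip) .skip]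

/-- One row of the tables. -/
def cRow : Cmd := forLoop 43 (V 10) (.seq (set2 31 (V 42) (V 43) 0) (forLoop 44 (V 6) cTry))

/-- All rows but the last. -/
def cRows : Cmd := forLoop 41 (V 3) (.seq (set 42 (V 3 - 1 - V 41)) cRow)

/-- Reading off the new assignment. -/
def cForward : Cmd := .seq (set 43 (V 8)) (forLoop 42 (V 3) (seqs [
  set 44 (N2 32 (V 42) (V 43)),
  cStep,
  set1 30 (V 42) (V 44),
  set 43 (V 45)]))

/-- One stage: switching on the weights of the item `V 40`. -/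
def cStage : Cmd := seqs [cLast, cRows, cForward]

/-- All stages. -/
def cSolve : Cmd := forLoop 40 (V 2) cStage

/-- Types of the points. -/
def cTypes : Cmd := forLoop 52 (V 2) (set1 33 (V 52) (N2 21 0 (N1 30 (V 52))))

/-- Filling the slot `V 54` of the triangle `V 53`. -/
def cSlot : Cmd := seqs [
  set 51 (N2 21 (V 54) (N1 30 (V 2 + V 53))),
  forLoop 52 (V 2) (.ifNat (N1 33 (V 52)) (V 51)
    (.ifNat (V 51) (N1 33 (V 52)) (set2 1 (V 53) (V 54) (V 52)) .skip) .skip),
  set1 33 (N2 1 (V 53) (V 54)) (V 5)]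

/-- Matching points and slots. -/
def cMatch : Cmd := .seq cTypes (forLoop 53 (V 0) (forLoop 54 3 cSlot))

/-- The whole program. -/
def prog : Cmd := seqs [cConst, cOptions, cKinds, cPhi, cSolve, cMatch]

end Pool.Agent.Helper48_FPT
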