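import Pool.Agent.Helper48_FPT.Options

/-!
# Verification of the stages
-/

set_option autoImplicit false
set_option linter.unusedSimpArgs false

namespace Pool.Agent.Helper48_FPT

open Finset

/-- Everything computed before the stages. -/
structure Glob (n h : ℕ) (Ph : ℕ → ℕ → ℝ) (m : Mem) : Prop where
  con : ConstOK n h m
  tab : ∀ o < h * (h * h), OptTab h m o
  kd : ∀ j < 3 * n + n, m.nat 23 j 0 = kind n j
  phi : ∀ g < h, ∀ p < 3 * n, m.real 2 g p = Ph g p

theorem Glob.congr {n h : ℕ} {Ph : ℕ → ℕ → ℝ} {m m' : Mem} (H : Glob n h Ph m) {W W' : List ℕ}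
    (hA : Agree W W' m m')
    (hW : ∀ a ∈ [0, 2, 3, 4, 5, 6, 7, 8, 9, 10, 21, 22, 23, 24, 25], a ∉ W) (hW' : 2 ∉ W') :
    Glob n h Ph m' := by
  refine ⟨H.con.congr hA fun a ha => hW a ?_, fun o ho => (H.tab o ho).congr hA fun a ha => hW a ?_,
    fun j hj => ?_, fun g hg p hp => ?_⟩
  · simp only [List.mem_cons, List.not_mem_nil, or_false] at ha ⊢
    tauto
  · simp only [List.mem_cons, List.not_mem_nil, or_false] at ha ⊢
    tauto
  · rw [hA.1 23 (hW 23 (by simp)), H.kd j hj]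
  · rw [hA.2 2 hW', H.phi g hg p hp]

/-- The codes of the items. -/
def Cd (n h : ℕ) (j o : ℕ) : ℕ := code h (Mh h) (kind n j) o

/-- The transitions. -/
def st (n h : ℕ) (cur : ℕ → ℕ) (j y o : ℕ) : ℕ := stepc (BIGh h) (Cd n h) cur j y o

theorem kind_lt (n j : ℕ) : kind n j = 0 ∨ kind n j = 1 := by
  rw [kind]
  split_ifs
  · exact Or.inl rfl
  · exact Or.inr rfl

theorem Glob.cd {n h : ℕ} {Ph : ℕ → ℕ → ℝ} {m : Mem} (H : Glob n h Ph m) {j o : ℕ}
    (ho : o < h * (h * h)) : m.nat 22 (kind n j) o = Cd n h j o := by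
  rw [Cd]
  rcases kind_lt n j with h1 | h1
  · rw [h1, (H.tab o ho).c0]
  · rw [h1, (H.tab o ho).c1]

theorem sp_cStep {L n h j y o : ℕ} {Ph : ℕ → ℕ → ℝ} {m : Mem} {cur : ℕ → ℕ} {Q : Mem → Prop}
    (H : Glob n h Ph m) (hj : j < 3 * n + n) (h30 : m.nat 30 j 0 = cur j)
    (hcur : cur j < h * (h * h)) (h42 : m.nat 42 0 0 = j) (h43 : m.nat 43 0 0 = y)
    (h44 : m.nat 44 0 0 = o) (ho : o < h * (h * h)) (hQ : Q (m.setNat 45 0 0 (st n h cur j y o))) :
    Sp L cStep m Q := by
  have e1 := H.cd (j := j) ho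
  have e2 := H.cd (j := j) hcur
  have e3 := H.kd j hj
  have e4 := H.con.h9
  have key : o ≠ cur j → Sp L (set 45 (V 43 + V 9 + N2 22 (N1 23 (V 42)) (V 44) -
      N2 22 (N1 23 (V 42)) (N1 30 (V 42)))) m Q := by
    intro hne
    rw [sp_setNat]
    simp only [NExp.eval, eval_add', eval_sub', h42, h43, h44, h30, e3, e4, e1, e2]
    rw [st, stepc, if_neg hne] at hQ
    exact hQ
  simp only [cStep, sp_ifNat]
  simp only [NExp.eval, h42, h43, h44, h30]
  refine ⟨fun h1 => ⟨fun h2 => ?_, fun h2 => key (by omega)⟩, fun h1 => key (by omega)⟩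
  have h3 : o = cur j := le_antisymm h1 h2
  rw [sp_setNat]
  simp only [NExp.eval, h43]
  rw [st, stepc, if_pos h3] at hQ
  exact hQ

/-- Specification of one cell of the tables, for the options `< u`. -/
structure Cell (K S : ℕ) (st : ℕ → ℕ → ℕ → ℕ) (w : ℕ → ℕ → ℝ) (j y u : ℕ) (m : Mem) : Prop where
  sound : 1 ≤ m.nat 31 j y → m.nat 32 j y < K ∧ st j y (m.nat 32 j y) < S ∧
    1 ≤ m.nat 31 (j + 1) (st j y (m.nat 32 j y)) ∧
    m.real 3 j y = w j (m.nat 32 j y) + m.real 3 (j + 1) (st j y (m.nat 32 j y))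
  complete : ∀ o < u, st j y o < S → 1 ≤ m.nat 31 (j + 1) (st j y o) →
    1 ≤ m.nat 31 j y ∧ w j o + m.real 3 (j + 1) (st j y o) ≤ m.real 3 j y

/-- The tables agree at the cell `(j, y)`. -/
def CellSame (j y : ℕ) (m m' : Mem) : Prop :=
  m'.nat 31 j y = m.nat 31 j y ∧ m'.nat 32 j y = m.nat 32 j y ∧ m'.real 3 j y = m.real 3 j y

theorem CellSame.trans {j y : ℕ} {m m' m'' : Mem} (h : CellSame j y m m')
    (h' : CellSame j y m' m'') : CellSame j y m m'' :=
  ⟨h'.1.trans h.1, h'.2.1.trans h.2.1, h'.2.2.trans h.2.2⟩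

theorem Cell.congr {K S : ℕ} {st : ℕ → ℕ → ℕ → ℕ} {w : ℕ → ℕ → ℝ} {j y u : ℕ} {m m' : Mem}
    (H : Cell K S st w j y u m) (h : CellSame j y m m') (h' : ∀ y', CellSame (j + 1) y' m m') :
    Cell K S st w j y u m' := by
  obtain ⟨h1, h2, h3⟩ := h
  constructor
  · intro h4
    rw [h1] at h4
    obtain ⟨h5, h6, h7, h8⟩ := H.sound h4
    rw [h2, h3, (h' _).1, (h' _).2.2]
    exact ⟨h5, h6, h7, h8⟩
  · intro o ho h4 h5
    rw [(h' _).1] at h5
    rw [h1, h3, (h' _).2.2]
    exact H.complete o ho h4 h5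

/-- The weights after `t` stages. -/
noncomputable def wS (n h : ℕ) (Ph : ℕ → ℕ → ℝ) (t j o : ℕ) : ℝ :=
  if j < t then wgt n h Ph j o else 0

theorem sp_cTry {L n h t j y o : ℕ} {Ph : ℕ → ℕ → ℝ} {m : Mem} {cur : ℕ → ℕ}
    (hh : 0 < h)
    (H : Glob n h Ph m) (ht : t < 3 * n) (hj : j < 3 * n + n) (h30 : m.nat 30 j 0 = cur j)
    (hcur : cur j < h * (h * h)) (h40 : m.nat 40 0 0 = t) (h42 : m.nat 42 0 0 = j)
    (h43 : m.nat 43 0 0 = y) (h44 : m.nat 44 0 0 = o) (ho : o < h * (h * h))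
    (hC : Cell (h * (h * h)) (Sh h) (st n h cur) (wS n h Ph (t + 1)) j y o m) :
    Sp L cTry m (fun m' => Cell (h * (h * h)) (Sh h) (st n h cur) (wS n h Ph (t + 1)) j y (o + 1) m' ∧
      ∀ j' y', ¬ (j' = j ∧ y' = y) → CellSame j' y' m m') := by
  simp only [cTry, sp_seqs_cons, sp_seqs_nil]
  apply sp_cStep H hj h30 hcur h42 h43 h44 ho
  -- the weight
  set y' := st n h cur j y o with hy'
  have hw : Sp L (.ifNat (V 42) (V 40)
      (setR 5 (R2 2 (N1 24 (V 44)) (V 42) - R2 2 (N1 25 (V 44)) (V 42))) (setR 5 .zero))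
      (m.setNat 45 0 0 y') (fun m1 => m1 = (m.setNat 45 0 0 y').setReal 5 0 0
        (wS n h Ph (t + 1) j o)) := by
    rw [sp_ifNat]
    simp only [sp_setReal, NExp.eval, RExp.eval, ne_eq, OfNat.ofNat_eq_ofNat, Nat.reduceEqDiff,
      not_false_eq_true, nat_setNat_ne, h40, h42, h44, real_setNat, reval_sub']
    refine ⟨fun h1 => ?_, fun h1 => ?_⟩
    · have h2 : j < t + 1 := by omega
      have h3 : j < 3 * n := by omega
      rw [(H.tab o ho).tx, (H.tab o ho).tz, H.phi _ (ox_lt ho) _ h3, H.phi _ (oz_lt hh) _ h3]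
      simp only [wS, wgt, h2, h3, if_true]
    · have h2 : ¬ j < t + 1 := by omega
      simp only [wS, h2, if_false]
  refine hw.mono ?_
  rintro m1 rfl
  rw [sp_setReal]
  simp only [NExp.eval, RExp.eval, eval_add', eval_ofNat', reval_add', nat_setReal, ne_eq,
    OfNat.ofNat_eq_ofNat, Nat.reduceEqDiff, not_false_eq_true, nat_setNat_ne, nat_setNat, h42,
    and_self, if_true, real_setReal, real_setReal_ne, real_setNat]
  generalize hw' : wS n h Ph (t + 1) j o = wt
  generalize hm2 : ((m.setNat 45 0 0 y').setReal 5 0 0 wt).setReal 6 0 0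
    (wt + m.real 3 (j + 1) y') = m2
  have a31 : m2.nat 31 = m.nat 31 := by subst hm2; simp
  have a32 : m2.nat 32 = m.nat 32 := by subst hm2; simp
  have a3 : m2.real 3 = m.real 3 := by subst hm2; simp
  have a6 : m2.real 6 0 0 = wt + m.real 3 (j + 1) y' := by subst hm2; simp
  have a10 : m2.nat 10 0 0 = Sh h := by subst hm2; simp [H.con.h10]
  have a42 : m2.nat 42 0 0 = j := by subst hm2; simp [h42]
  have a43 : m2.nat 43 0 0 = y := by subst hm2; simp [h43]
  have a44 : m2.nat 44 0 0 = o := by subst hm2; simp [h44]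
  have a45 : m2.nat 45 0 0 = y' := by subst hm2; simp
  clear hm2 hw
  -- the update
  have hupd : y' < Sh h → 1 ≤ m.nat 31 (j + 1) y' →
      (1 ≤ m.nat 31 j y → m.real 3 j y ≤ wt + m.real 3 (j + 1) y') →
      Sp L cUpd m2 (fun m' =>
        Cell (h * (h * h)) (Sh h) (st n h cur) (wS n h Ph (t + 1)) j y (o + 1) m' ∧
        ∀ j' y', ¬ (j' = j ∧ y' = y) → CellSame j' y' m m') := by
    intro u1 u2 u3
    simp only [cUpd, sp_seqs_cons, sp_seqs_nil, sp_setNat, sp_setReal]
    simp only [NExp.eval, RExp.eval, eval_ofNat', ne_eq, OfNat.ofNat_eq_ofNat, Nat.reduceEqDiff,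
      not_false_eq_true, nat_setNat_ne, a42, a43, a44, real_setNat, a6]
    have hne : ∀ z, ¬ (j + 1 = j ∧ z = y) := fun z hz => by omega
    constructor
    · constructor
      · intro _
        simp only [nat_setReal, nat_setNat, ne_eq, OfNat.ofNat_eq_ofNat, Nat.reduceEqDiff,
          not_false_eq_true, nat_setNat_ne, and_self, if_true, real_setReal, real_setNat, a31, a3]
        rw [← hy']
        simp only [hne, if_false, hw', a31]
        exact ⟨ho, u1, u2, trivial⟩
      · intro o' ho' u4 u5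
        simp only [nat_setReal, nat_setNat, ne_eq, OfNat.ofNat_eq_ofNat, Nat.reduceEqDiff,
          not_false_eq_true, nat_setNat_ne, and_self, if_true, real_setReal, real_setNat, a31, a3,
          hne, if_false] at u5 ⊢
        refine ⟨le_rfl, ?_⟩
        rcases Nat.lt_succ_iff_lt_or_eq.1 ho' with h5 | rfl
        · have h6 := hC.complete o' h5 u4 u5
          exact h6.2.trans (u3 h6.1)
        · rw [← hy', hw']
    · intro j' z hne'
      refine ⟨?_, ?_, ?_⟩
      · simp [hne', a31]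
      · simp [hne', a32]
      · simp [hne', a3]
  have hskip : (y' < Sh h → 1 ≤ m.nat 31 (j + 1) y' →
      1 ≤ m.nat 31 j y ∧ wt + m.real 3 (j + 1) y' ≤ m.real 3 j y) →
      Sp L .skip m2 (fun m' =>
        Cell (h * (h * h)) (Sh h) (st n h cur) (wS n h Ph (t + 1)) j y (o + 1) m' ∧
        ∀ j' y', ¬ (j' = j ∧ y' = y) → CellSame j' y' m m') := by
    intro u1
    rw [sp_skip]
    have hsame : ∀ j' y', CellSame j' y' m m2 := fun j' y' => ⟨by rw [a31], by rw [a32], by rw [a3]⟩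
    refine ⟨?_, fun j' z _ => hsame j' z⟩
    have : Cell (h * (h * h)) (Sh h) (st n h cur) (wS n h Ph (t + 1)) j y (o + 1) m := by
      refine ⟨hC.sound, fun o' ho' u4 u5 => ?_⟩
      rcases Nat.lt_succ_iff_lt_or_eq.1 ho' with h5 | rfl
      · exact hC.complete o' h5 u4 u5
      · rw [hw']
        exact u1 u4 u5
    exact this.congr (hsame _ _) (fun z => hsame _ z)
  simp only [sp_ifNat, sp_ifReal]
  simp only [NExp.eval, RExp.eval, eval_add', eval_ofNat', a45, a10, a42, a43, a31, a3, a6]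
  refine ⟨fun h1 => ⟨fun h2 => ⟨fun h3 => ?_, fun h3 => ⟨fun h4 => ?_, fun h4 => ?_⟩⟩,
    fun h2 => ?_⟩, fun h1 => ?_⟩
  · exact hupd (by omega) h2 (fun h4 => by omega)
  · exact hupd (by omega) h2 (fun _ => h4)
  · exact hskip fun _ _ => ⟨by omega, (not_le.1 h4).le⟩
  · exact hskip fun _ h3 => absurd h3 h2
  · exact hskip fun h3 _ => absurd h3 (by omega)

theorem sp_cRow {L n h t j : ℕ} {Ph : ℕ → ℕ → ℝ} {m : Mem} {cur : ℕ → ℕ}
    (hh : 0 < h) (hLO : h * (h * h) ≤ L) (hLS : Sh h ≤ L)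
    (H : Glob n h Ph m) (ht : t < 3 * n) (hj : j < 3 * n + n) (h30 : m.nat 30 j 0 = cur j)
    (hcur : cur j < h * (h * h)) (h40 : m.nat 40 0 0 = t) (h42 : m.nat 42 0 0 = j) :
    Sp L cRow m (fun m' => (∀ y < Sh h,
      Cell (h * (h * h)) (Sh h) (st n h cur) (wS n h Ph (t + 1)) j y (h * (h * h)) m') ∧
      ∀ j' y', j' ≠ j → CellSame j' y' m m') := by
  rw [cRow]
  apply sp_for (K := Sh h) (Inv := fun y m' => (∀ y' < y,
      Cell (h * (h * h)) (Sh h) (st n h cur) (wS n h Ph (t + 1)) j y' (h * (h * h)) m') ∧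
      ∀ j' y', j' ≠ j → CellSame j' y' m m')
  · decide
  · simp [H.con.h10]
  · exact hLS
  · exact ⟨fun y' hy' => by omega, fun j' y' _ => ⟨by simp, by simp, by simp⟩⟩
  · rintro y hy m1 h43 hA1 ⟨hC1, hS1⟩
    have H1 : Glob n h Ph m1 := H.congr hA1 (by decide) (by decide)
    have b30 : m1.nat 30 j 0 = cur j := by rw [hA1.1 30 (by decide), h30]
    have b40 : m1.nat 40 0 0 = t := by rw [hA1.1 40 (by decide), h40]
    have b42 : m1.nat 42 0 0 = j := by rw [hA1.1 42 (by decide), h42]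
    clear hA1
    rw [sp_seq, sp_setNat]
    simp only [NExp.eval, eval_ofNat', b42, h43]
    have hA1' : Agree [31] [] m1 (m1.setNat 31 j y 0) := by
      refine ⟨fun a ha => ?_, fun a _ => rfl⟩
      simp only [List.mem_cons, not_or] at ha
      rw [nat_setNat_ne ha.1]
    apply sp_for (K := h * (h * h)) (Inv := fun o m' =>
      Cell (h * (h * h)) (Sh h) (st n h cur) (wS n h Ph (t + 1)) j y o m' ∧
      ∀ j' y', ¬ (j' = j ∧ y' = y) → CellSame j' y' m1 m')
    · decide
    · simp [H1.con.h6]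
    · exact hLO
    · refine ⟨⟨fun h1 => ?_, fun o ho => by omega⟩, fun j' y' hne => ⟨?_, ?_, ?_⟩⟩
      · simp at h1
      · simp [hne]
      · simp
      · simp
    · rintro o ho m2 h44 hA2 ⟨hC2, hS2⟩
      have H2 : Glob n h Ph m2 :=
        (H1.congr hA1' (by decide) (by decide)).congr hA2 (by decide) (by decide)
      have c30 : m2.nat 30 j 0 = cur j := by rw [hA2.1 30 (by decide)]; simp [b30]
      have c40 : m2.nat 40 0 0 = t := by rw [hA2.1 40 (by decide)]; simp [b40]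
      have c42 : m2.nat 42 0 0 = j := by rw [hA2.1 42 (by decide)]; simp [b42]
      have c43 : m2.nat 43 0 0 = y := by rw [hA2.1 43 (by decide)]; simp [h43]
      refine (sp_cTry hh H2 ht hj c30 hcur c40 c42 c43 h44 ho hC2).mono ?_
      rintro m3 ⟨hC3, hS3⟩
      have hset : ∀ j' y', CellSame j' y' m3 (m3.setNat 44 0 0 (o + 1)) := fun j' y' =>
        ⟨by simp, by simp, by simp⟩
      exact ⟨hC3.congr (hset _ _) (hset _), fun j' y' hne =>
        ((hS2 j' y' hne).trans (hS3 j' y' hne)).trans (hset _ _)⟩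
    · rintro m2 - - ⟨hC2, hS2⟩
      have hset : ∀ j' y', CellSame j' y' m2 (m2.setNat 43 0 0 (y + 1)) := fun j' y' =>
        ⟨by simp, by simp, by simp⟩
      constructor
      · intro y' hy'
        rcases Nat.lt_succ_iff_lt_or_eq.1 hy' with h5 | rfl
        · refine ((hC1 y' h5).congr (hS2 j y' (by omega)) (fun z => hS2 _ _ (by omega))).congr
            (hset _ _) (hset _)
        · exact hC2.congr (hset _ _) (hset _)
      · intro j' y' hne
        exact ((hS1 j' y' hne).trans (hS2 j' y' (by tauto))).trans (hset _ _)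
  · rintro m1 - - h1
    exact h1

theorem sp_cRows {L n h t : ℕ} {Ph : ℕ → ℕ → ℝ} {m : Mem} {cur : ℕ → ℕ}
    (hh : 0 < h) (hLn : 3 * n + n ≤ L) (hLO : h * (h * h) ≤ L) (hLS : Sh h ≤ L)
    (H : Glob n h Ph m) (ht : t < 3 * n) (h30 : ∀ j < 3 * n + n, m.nat 30 j 0 = cur j)
    (hcur : ∀ j < 3 * n + n, cur j < h * (h * h)) (h40 : m.nat 40 0 0 = t) :
    Sp L cRows m (fun m' => (∀ j < 3 * n + n, ∀ y < Sh h,
      Cell (h * (h * h)) (Sh h) (st n h cur) (wS n h Ph (t + 1)) j y (h * (h * h)) m') ∧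
      ∀ y', CellSame (3 * n + n) y' m m') := by
  rw [cRows]
  apply sp_for (K := 3 * n + n) (Inv := fun i m' => (∀ j < 3 * n + n, 3 * n + n - i ≤ j → ∀ y < Sh h,
      Cell (h * (h * h)) (Sh h) (st n h cur) (wS n h Ph (t + 1)) j y (h * (h * h)) m') ∧
      ∀ y', CellSame (3 * n + n) y' m m')
  · decide
  · simp [H.con.h3]
  · exact hLn
  · exact ⟨fun j hj hj' => by omega, fun y' => ⟨by simp, by simp, by simp⟩⟩
  · rintro i hi m1 h41 hA1 ⟨hC1, hS1⟩
    have H1 : Glob n h Ph m1 := H.congr hA1 (by decide) (by decide)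
    have b30 : ∀ j < 3 * n + n, m1.nat 30 j 0 = cur j := by rw [hA1.1 30 (by decide)]; exact h30
    have b40 : m1.nat 40 0 0 = t := by rw [hA1.1 40 (by decide), h40]
    clear hA1
    rw [sp_seq, sp_setNat]
    simp only [NExp.eval, eval_sub', eval_ofNat', H1.con.h3, h41]
    set j := 3 * n + n - 1 - i with hj
    have hA1' : Agree [42] [] m1 (m1.setNat 42 0 0 j) := by
      refine ⟨fun a ha => ?_, fun a _ => rfl⟩
      simp only [List.mem_cons, not_or] at ha
      rw [nat_setNat_ne ha.1]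
    have hset : ∀ j' y', CellSame j' y' m1 (m1.setNat 42 0 0 j) := fun j' y' =>
        ⟨by simp, by simp, by simp⟩
    refine (sp_cRow (cur := cur) hh hLO hLS (H1.congr hA1' (by decide) (by decide)) ht
      (j := j) (by omega) (by simp [b30 j (by omega)]) (hcur j (by omega)) (by simp [b40])
      (by simp)).mono ?_
    rintro m2 ⟨hC2, hS2⟩
    have hset2 : ∀ j' y', CellSame j' y' m2 (m2.setNat 41 0 0 (i + 1)) := fun j' y' =>
        ⟨by simp, by simp, by simp⟩
    constructor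
    · intro j' hj' hj'' y hy
      by_cases h5 : j' = j
      · rw [h5]
        exact (hC2 y hy).congr (hset2 _ _) (hset2 _)
      · have h6 : j < j' := by omega
        have h7 := hC1 j' hj' (by omega) y hy
        refine h7.congr ((hset j' y).trans ((hS2 j' y h5).trans (hset2 _ _))) fun z => ?_
        exact (hset _ z).trans ((hS2 _ z (by omega)).trans (hset2 _ _))
    · intro y'
      exact (hS1 y').trans ((hset _ y').trans ((hS2 _ y' (by omega)).trans (hset2 _ _)))
  · rintro m1 - - ⟨h1, h2⟩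
    exact ⟨fun j hj => h1 j hj (by omega), h2⟩

theorem sp_cLast {L n h : ℕ} {Ph : ℕ → ℕ → ℝ} {m : Mem}
    (hLG : Gh h + 1 ≤ L) (hLS : Sh h ≤ L) (H : Glob n h Ph m) :
    Sp L cLast m (fun m' => ∀ y < Sh h,
      (1 ≤ m'.nat 31 (3 * n + n) y ↔ Acc (Gh h) (Bh h) (BIGh h) y) ∧
      m'.real 3 (3 * n + n) y = 0) := by
  simp only [cLast, sp_seqs_cons, sp_seqs_nil]
  apply sp_for (K := Sh h) (Inv := fun t m' => ∀ y < t,
    m'.nat 31 (3 * n + n) y = 0 ∧ m'.real 3 (3 * n + n) y = 0)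
  · decide
  · simp [H.con.h10]
  · exact hLS
  · intro y hy; omega
  · rintro t ht m1 h43 hA1 h1
    have b3 : m1.nat 3 0 0 = 3 * n + n := by rw [hA1.1 3 (by decide), H.con.h3]
    rw [sp_seq, sp_setNat, sp_setReal]
    simp only [NExp.eval, RExp.eval, eval_ofNat', ne_eq, OfNat.ofNat_eq_ofNat, Nat.reduceEqDiff,
      not_false_eq_true, nat_setNat_ne, b3, h43]
    intro y hy
    by_cases h2 : y = t
    · simp [h2]
    · have := h1 y (by omega)
      simp [h2, this]
  · rintro m1 h43 hA1 h1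
    have H1 : Glob n h Ph m1 := H.congr hA1 (by decide) (by decide)
    clear hA1
    simp only [sp_setNat]
    simp only [NExp.eval, H1.con.h8]
    apply sp_loop (K := Gh h + 1) (Inv := fun k m' => m'.nat 45 0 0 = k * BIGh h + Bh h ∧
      Agree [31, 45] [] m1 m' ∧ ∀ y < Sh h,
      (1 ≤ m'.nat 31 (3 * n + n) y ↔ ∃ k' < k, y = k' * BIGh h + Bh h) ∧
      m'.real 3 (3 * n + n) y = 0)
    · simp [H1.con.h7]
    · exact hLG
    · refine ⟨by simp, ⟨fun a ha => ?_, fun a _ => rfl⟩, fun y hy => ?_⟩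
      · simp only [List.mem_cons, not_or] at ha
        rw [nat_setNat_ne ha.2.1]
      · simp [h1 y hy]
    · rintro k hk m2 ⟨h2, hA2, h3⟩
      have c3 : m2.nat 3 0 0 = 3 * n + n := by rw [hA2.1 3 (by decide), H1.con.h3]
      have c9 : m2.nat 9 0 0 = BIGh h := by rw [hA2.1 9 (by decide), H1.con.h9]
      simp only [sp_seq, sp_setNat]
      simp only [NExp.eval, eval_add', eval_ofNat', ne_eq, OfNat.ofNat_eq_ofNat, Nat.reduceEqDiff,
        not_false_eq_true, nat_setNat_ne, c3, c9, h2]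
      refine ⟨?_, ?_, ?_⟩
      · simp only [nat_setNat, and_self, if_true]
        ring
      · refine hA2.trans ⟨fun a ha => ?_, fun a _ => rfl⟩
        simp only [List.mem_cons, not_or] at ha
        rw [nat_setNat_ne ha.2.1, nat_setNat_ne ha.1]
      · intro y hy
        have h4 := h3 y hy
        refine ⟨?_, by simp [h4.2]⟩
        simp only [ne_eq, OfNat.ofNat_eq_ofNat, Nat.reduceEqDiff,
          not_false_eq_true, nat_setNat_ne, nat_setNat, true_and]
        by_cases h5 : y = k * BIGh h + Bh h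
        · rw [if_pos h5]
          exact ⟨fun _ => ⟨k, Nat.lt_succ_self k, h5⟩, fun _ => le_rfl⟩
        · rw [if_neg h5, h4.1]
          constructor
          · rintro ⟨k', hk', h6⟩
            exact ⟨k', by omega, h6⟩
          · rintro ⟨k', hk', h6⟩
            rcases Nat.lt_succ_iff_lt_or_eq.1 hk' with h7 | rfl
            · exact ⟨k', h7, h6⟩
            · exact absurd h6 h5
    · rintro m2 ⟨-, -, h3⟩ y hy
      refine ⟨(h3 y hy).1.trans ?_, (h3 y hy).2⟩
      simp only [Acc, Nat.lt_succ_iff]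

theorem sp_cForward {L n h : ℕ} {Ph : ℕ → ℕ → ℝ} {m : Mem} {cur : ℕ → ℕ}
    (hLn : 3 * n + n ≤ L) (H : Glob n h Ph m) (h30 : ∀ j < 3 * n + n, m.nat 30 j 0 = cur j)
    (hcur : ∀ j < 3 * n + n, cur j < h * (h * h))
    (hch : ∀ j < 3 * n + n,
      m.nat 32 j (greedy (st n h cur) (m.nat 32) (Bh h) j) < h * (h * h)) :
    Sp L cForward m (fun m' => ∀ j < 3 * n + n,
      m'.nat 30 j 0 = m.nat 32 j (greedy (st n h cur) (m.nat 32) (Bh h) j)) := by
  rw [cForward, sp_seq, sp_setNat]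
  simp only [NExp.eval, H.con.h8]
  apply sp_for (K := 3 * n + n) (Inv := fun j m' =>
    m'.nat 43 0 0 = greedy (st n h cur) (m.nat 32) (Bh h) j ∧
    ∀ i < 3 * n + n, m'.nat 30 i 0 = if i < j then
      m.nat 32 i (greedy (st n h cur) (m.nat 32) (Bh h) i) else cur i)
  · decide
  · simp [H.con.h3]
  · exact hLn
  · refine ⟨by simp [greedy], fun i hi => by simp [h30 i hi]⟩
  · rintro j hj m1 h42 hA1 ⟨h43, h1⟩
    have hA0 : Agree [43] [] m (m.setNat 43 0 0 (Bh h)) := by
      refine ⟨fun a ha => ?_, fun a _ => rfl⟩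
      simp only [List.mem_cons, not_or] at ha
      rw [nat_setNat_ne ha.1]
    have H1 : Glob n h Ph m1 := (H.congr hA0 (by decide) (by decide)).congr hA1 (by decide)
      (by decide)
    have b32 : m1.nat 32 = m.nat 32 := by rw [hA1.1 32 (by decide)]; simp
    clear hA1
    simp only [sp_seqs_cons, sp_seqs_nil, sp_setNat]
    simp only [NExp.eval, h42, h43, b32]
    set y := greedy (st n h cur) (m.nat 32) (Bh h) j with hy
    set o := m.nat 32 j y with ho
    have hA1' : Agree [44] [] m1 (m1.setNat 44 0 0 o) := by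
      refine ⟨fun a ha => ?_, fun a _ => rfl⟩
      simp only [List.mem_cons, not_or] at ha
      rw [nat_setNat_ne ha.1]
    apply sp_cStep (cur := cur) (y := y) (o := o) (H1.congr hA1' (by decide) (by decide)) hj
    · simp [h1 j hj]
    · exact hcur j hj
    · simp [h42]
    · simp [h43]
    · simp
    · exact hch j hj
    simp only [ne_eq, OfNat.ofNat_eq_ofNat, Nat.reduceEqDiff, not_false_eq_true, nat_setNat_ne,
      nat_setNat, h42, and_self, if_true, and_true]
    refine ⟨?_, ?_⟩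
    · simp only [greedy, ← hy, ← ho]
    · intro i hi
      by_cases h2 : i = j
      · simp [h2, ho, hy]
      · rw [if_neg h2, h1 i hi]
        have h3 : (i < j + 1) = (i < j) := by
          apply propext
          omega
        simp only [h3]
  · rintro m1 - - ⟨-, h1⟩ j hj
    rw [h1 j hj, if_pos hj]

theorem GG_le' : ∀ (r Δ : ℕ), GG r Δ ≤ (2 * Δ + 1) ^ (2 ^ r - 1) := by
  intro r
  induction r with
  | zero => intro Δ; simp [GG]
  | succ r ih =>
    intro Δ
    rw [GG]
    have h1 := ih ((2 * Δ + 1) * Δ)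
    have h2 : 2 * ((2 * Δ + 1) * Δ) + 1 ≤ (2 * Δ + 1) ^ 2 := by nlinarith
    have h3 : (2 * ((2 * Δ + 1) * Δ) + 1) ^ (2 ^ r - 1) ≤ ((2 * Δ + 1) ^ 2) ^ (2 ^ r - 1) :=
      Nat.pow_le_pow_left h2 _
    have h4 : 2 ^ (r + 1) - 1 = 2 * (2 ^ r - 1) + 1 := by
      have : 1 ≤ 2 ^ r := Nat.one_le_two_pow
      rw [pow_succ]
      omega
    rw [h4, pow_succ, pow_mul, mul_comm]
    exact Nat.mul_le_mul_right _ (h1.trans h3)

theorem GG_le (h : ℕ) : GG (h * h) 3 ≤ Gh h := by
  refine (GG_le' (h * h) 3).trans ?_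
  rw [Gh]
  exact Nat.pow_le_pow_right (by norm_num) (Nat.sub_le _ _)

theorem sp_cStage {L n h t : ℕ} {Ph : ℕ → ℕ → ℝ} {m : Mem}
    (hh : 0 < h) (hLn : 3 * n + n ≤ L) (hLO : h * (h * h) ≤ L) (hLS : Sh h ≤ L)
    (hLG : Gh h + 1 ≤ L) (H : Glob n h Ph m) (ht : t < 3 * n) (h40 : m.nat 40 0 0 = t)
    (hopt : IsOptN (3 * n + n) (h * (h * h)) (h * h) (vec n h) (wS n h Ph t)
      (fun j => m.nat 30 j 0)) :
    Sp L cStage m (fun m' => IsOptN (3 * n + n) (h * (h * h)) (h * h) (vec n h)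
      (wS n h Ph (t + 1)) (fun j => m'.nat 30 j 0)) := by
  set cur : ℕ → ℕ := fun j => m.nat 30 j 0 with hcur
  have hM : 0 < Mh h := by rw [Mh]; omega
  simp only [cStage, sp_seqs_cons, sp_seqs_nil]
  apply Sp.frame
  refine (sp_cLast hLG hLS H).mono ?_
  intro m1 hL1 hA1
  have H1 : Glob n h Ph m1 := H.congr hA1 (by decide) (by decide)
  have b30 : m1.nat 30 = m.nat 30 := hA1.1 30 (by decide)
  have b40 : m1.nat 40 = m.nat 40 := hA1.1 40 (by decide)
  clear hA1
  apply Sp.frame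
  refine (sp_cRows (cur := cur) hh hLn hLO hLS H1 ht (fun j _ => by rw [b30]) hopt.1.1
    (by rw [b40, h40])).mono ?_
  rintro m2 ⟨hC2, hS2⟩ hA2
  have H2 : Glob n h Ph m2 := H1.congr hA2 (by decide) (by decide)
  have c30 : m2.nat 30 = m.nat 30 := (hA2.1 30 (by decide)).trans b30
  have hTab : Tables (3 * n + n) (Sh h) (h * (h * h)) (stepc (BIGh h) (Cd n h) cur)
      (Acc (Gh h) (Bh h) (BIGh h)) (wS n h Ph (t + 1)) (m2.nat 31) (m2.real 3) (m2.nat 32) := by
    constructor
    · intro y hy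
      rw [(hS2 y).1, (hS2 y).2.2]
      exact hL1 y hy
    · intro j hj y hy h1
      exact (hC2 j hj y hy).sound h1
    · intro j hj y hy o ho h1 h2
      exact (hC2 j hj y hy).complete o ho h1 h2
  have key := stage_opt (Δ := 3) (M := Mh h) (G := Gh h) (E := Eh h) (B := Bh h) (BIG := BIGh h)
    (S := Sh h) (Cd := Cd n h)
    (base := fun j => if j < 3 * n then 0 else ((3 * Mh h ^ (h * h) : ℕ) : ℤ))
    (i₀ := t) (w := wS n h Ph t) (w' := wS n h Ph (t + 1)) (v := vec n h)
    (fun i _ o _ o' _ c _ => vec_diff) (fun j _ o ho => code_eq hh hM ho)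
    (fun j _ o ho => code_le hh hM ho) rfl rfl rfl (by rw [Mh]; omega) (GG_le h)
    (by
      intro i hi
      funext o
      simp only [wS]
      have : (i < t + 1) = (i < t) := by
        apply propext
        omega
      simp only [this]) hopt hTab
  refine (sp_cForward (cur := cur) hLn H2 (fun j _ => by rw [c30]) hopt.1.1
    (fun j hj => key.1.1.1 j hj)).mono ?_
  intro m3 h3
  obtain ⟨⟨k1, k2⟩, -⟩ := key
  have hcong : ∀ {M : Type} [AddCommMonoid M] (F : ℕ → ℕ → M),
      ∑ i ∈ range (3 * n + n), F i (m3.nat 30 i 0) =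
      ∑ i ∈ range (3 * n + n), F i (m2.nat 32 i
        (greedy (stepc (BIGh h) (Cd n h) cur) (m2.nat 32) (Bh h) i)) := by
    intro M _ F
    apply Finset.sum_congr rfl
    intro i hi
    rw [h3 i (Finset.mem_range.1 hi)]
    rfl
  refine ⟨⟨fun i hi => ?_, fun c hc => ?_⟩, fun y hy => ?_⟩
  · simp only [h3 i hi]
    exact k1.1 i hi
  · rw [hcong (fun i o => vec n h i o c)]
    exact k1.2 c hc
  · rw [hcong (fun i o => wS n h Ph (t + 1) i o)]
    exact k2 y hy

theorem sp_cSolve {L n h : ℕ} {Ph : ℕ → ℕ → ℝ} {m : Mem}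
    (hh : 0 < h) (hLn : 3 * n + n ≤ L) (hLO : h * (h * h) ≤ L) (hLS : Sh h ≤ L)
    (hLG : Gh h + 1 ≤ L) (H : Glob n h Ph m) (h30 : ∀ j, m.nat 30 j 0 = 0) :
    Sp L cSolve m (fun m' => IsOptN (3 * n + n) (h * (h * h)) (h * h) (vec n h)
      (wgt n h Ph) (fun j => m'.nat 30 j 0)) := by
  rw [cSolve]
  apply sp_for (K := 3 * n) (Inv := fun t m' => IsOptN (3 * n + n) (h * (h * h)) (h * h) (vec n h)
      (wS n h Ph t) (fun j => m'.nat 30 j 0))
  · decide
  · simp [H.con.h2]
  · omega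
  · have e0 : (fun j => (m.setNat 40 0 0 0).nat 30 j 0) = fun _ => 0 := by
      funext j
      simp [h30]
    rw [e0]
    refine ⟨⟨fun i _ => by positivity, fun c hc => ?_⟩, fun y _ => ?_⟩
    · rw [Finset.sum_range_add]
      have h1 : ∀ k, TT h k 0 = 0 := by
        intro k
        simp [TT, ox, oy, oz]
      have h2 : ∑ i ∈ range (3 * n), vec n h i 0 c = ∑ _i ∈ range (3 * n), (if 0 = c then 1 else 0) := by
        apply Finset.sum_congr rfl
        intro i hi
        rw [Finset.mem_range] at hi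
        simp only [vec, hi, if_true, h1]
      have h3 : ∑ i ∈ range n, vec n h (3 * n + i) 0 c =
          ∑ _i ∈ range n, -((if 0 = c then 1 else 0) + (if 0 = c then 1 else 0) +
            (if 0 = c then 1 else 0)) := by
        apply Finset.sum_congr rfl
        intro i _
        have : ¬ 3 * n + i < 3 * n := by omega
        simp only [vec, this, if_false, h1]
      rw [h2, h3, Finset.sum_const, Finset.sum_const, Finset.card_range, Finset.card_range]
      simp only [nsmul_eq_mul]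
      push_cast
      ring
    · simp [wS]
  · rintro t ht m1 h40 hA1 h1
    have H1 : Glob n h Ph m1 := H.congr hA1 (by decide) (by decide)
    refine (sp_cStage hh hLn hLO hLS hLG H1 ht h40 h1).mono ?_
    intro m2 h2
    have e0 : (fun j => (m2.setNat 40 0 0 (t + 1)).nat 30 j 0) = fun j => m2.nat 30 j 0 := by
      funext j
      simp
    rw [e0]
    exact h2
  · rintro m1 - - h1
    have e0 : wS n h Ph (3 * n) = wgt n h Ph := by
      funext j o
      simp only [wS, wgt]
      split_ifs <;> rfl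
    rw [e0] at h1
    exact h1

end Pool.Agent.Helper48_FPT
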